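import Mathlib

/-!
# Antichains and pairs of positions (helper53)
-/

set_option autoImplicit false

namespace Run7.h53.TI

open Filter Topology Finset

lemma central (n : ℕ) : (2 * (n : ℝ) + 1) * (n.centralBinom : ℝ) ^ 2 ≤ 16 ^ n := by
  induction n with
  | zero => simp
  | succ n ih =>
    have h1 : ((n : ℝ) + 1) * ((n + 1).centralBinom : ℝ) = 2 * (2 * n + 1) * (n.centralBinom : ℝ) := by
      exact_mod_cast Nat.succ_mul_centralBinom_succ n
    have h2 : (0 : ℝ) < ((n : ℝ) + 1) ^ 2 := by positivity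
    refine le_of_mul_le_mul_left ?_ h2
    calc ((n : ℝ) + 1) ^ 2 * ((2 * ((n + 1 : ℕ) : ℝ) + 1) * ((n + 1).centralBinom : ℝ) ^ 2)
        = (2 * n + 3) * (((n : ℝ) + 1) * ((n + 1).centralBinom : ℝ)) ^ 2 := by push_cast; ring
      _ = 4 * (2 * n + 3) * (2 * n + 1) * ((2 * (n : ℝ) + 1) * (n.centralBinom : ℝ) ^ 2) := by
          rw [h1]; ring
      _ ≤ 4 * (2 * n + 3) * (2 * n + 1) * 16 ^ n := mul_le_mul_of_nonneg_left ih (by positivity)
      _ ≤ ((n : ℝ) + 1) ^ 2 * 16 ^ (n + 1) := by
          rw [pow_succ (16 : ℝ) n]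
          have h3 : (4 : ℝ) * (2 * n + 3) * (2 * n + 1) ≤ 16 * ((n : ℝ) + 1) ^ 2 := by nlinarith
          have h4 : (0 : ℝ) ≤ 16 ^ n := by positivity
          have h5 := mul_le_mul_of_nonneg_right h3 h4
          linarith

lemma choose_half (D : ℕ) : ((D : ℝ) + 1) * (D.choose (D / 2) : ℝ) ^ 2 ≤ 4 ^ D := by
  rcases Nat.even_or_odd' D with ⟨n, rfl | rfl⟩
  · have h1 := central n
    rw [Nat.mul_div_cancel_left n (by norm_num : 0 < 2)]
    have e : (4 : ℝ) ^ (2 * n) = 16 ^ n := by rw [pow_mul]; norm_num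
    rw [e]
    push_cast
    exact h1
  · have e1 : (2 * n + 1) / 2 = n := by omega
    rw [e1]
    have h1 := central (n + 1)
    have h2 : ((n + 1).centralBinom : ℝ) = 2 * ((2 * n + 1).choose n : ℝ) := by
      have h3 : (n + 1).centralBinom = 2 * (2 * n + 1).choose n := by
        rw [Nat.centralBinom_eq_two_mul_choose]
        have h4 : 2 * (n + 1) = (2 * n + 1) + 1 := by ring
        rw [h4, Nat.choose_succ_succ, Nat.choose_symm_half]
        ring
      exact_mod_cast h3
    rw [h2] at h1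
    have e2 : (4 : ℝ) ^ (2 * n + 1) = 16 ^ (n + 1) / 4 := by
      rw [pow_succ, pow_mul, pow_succ]
      norm_num
      ring
    rw [e2]
    push_cast at h1 ⊢
    have h3 : (0 : ℝ) ≤ ((2 * n + 1).choose n : ℝ) ^ 2 := by positivity
    nlinarith

/-- antichains of subsets of `D` -/
lemma lo {α : Type*} [DecidableEq α] (D : Finset α) (P : Finset α → Prop) [DecidablePred P]
    (h : ∀ X X', X ⊆ D → X' ⊆ D → P X → P X' → X ⊆ X' → X = X') :
    (D.powerset.filter P).card ≤ D.card.choose (D.card / 2) := by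
  classical
  set 𝒜 : Finset (Finset D) := univ.filter fun Z => P (Z.map (Function.Embedding.subtype _)) with h𝒜
  have e : ∀ X : Finset α, X ⊆ D → (X.subtype (· ∈ D)).map (Function.Embedding.subtype _) = X := by
    intro X hX
    rw [Finset.subtype_map]
    exact Finset.filter_true_of_mem hX
  have h1 : (D.powerset.filter P).card ≤ 𝒜.card := by
    refine Finset.card_le_card_of_injOn (fun X => X.subtype (· ∈ D)) (fun X hX => ?_) fun X hX X' hX' heq => ?_
    · obtain ⟨h2, h3⟩ := Finset.mem_filter.1 (Finset.mem_coe.1 hX)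
      rw [Finset.mem_powerset] at h2
      simp only [h𝒜, Finset.coe_filter, Finset.mem_univ, true_and, Set.mem_ofPred_eq]
      rw [e X h2]
      exact h3
    · obtain ⟨h2, _⟩ := Finset.mem_filter.1 (Finset.mem_coe.1 hX)
      obtain ⟨h3, _⟩ := Finset.mem_filter.1 (Finset.mem_coe.1 hX')
      rw [Finset.mem_powerset] at h2 h3
      rw [← e X h2, ← e X' h3]
      simp only at heq
      rw [heq]
  have h2 : IsAntichain (· ⊆ ·) (𝒜 : Set (Finset D)) := by
    intro Z hZ Z' hZ' hne hsub
    have h3 := (Finset.mem_filter.1 (Finset.mem_coe.1 hZ)).2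
    have h4 := (Finset.mem_filter.1 (Finset.mem_coe.1 hZ')).2
    have h5 : ∀ Z : Finset D, Z.map (Function.Embedding.subtype (· ∈ D)) ⊆ D := by
      intro Z x hx
      obtain ⟨y, _, rfl⟩ := Finset.mem_map.1 hx
      exact y.2
    have h6 := h _ _ (h5 Z) (h5 Z') h3 h4 (Finset.map_subset_map.2 hsub)
    exact hne (Finset.map_injective _ h6)
  have h3 := h2.sperner
  rw [Fintype.card_coe] at h3
  exact h1.trans h3

/-- a function which grows by a constant factor with each new element -/
lemma window {α : Type*} [DecidableEq α] (D : Finset α) (f : Finset α → ℝ) {δ : ℝ} (hδ : 0 < δ)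
    (hf0 : ∀ X, X ⊆ D → 0 < f X) (hf : ∀ X, X ⊆ D → ∀ i ∈ D, i ∉ X → (1 + δ) * f X ≤ f (insert i X))
    (v : ℝ) :
    (D.powerset.filter fun X => v ≤ f X ∧ f X < (1 + δ) * v).card ≤ D.card.choose (D.card / 2) := by
  -- monotonicity
  have hmono : ∀ Y X : Finset α, X ⊆ D → Y ⊆ D → f X ≤ f (X ∪ Y) := by
    intro Y
    induction Y using Finset.induction_on with
    | empty => intro X _ _; rw [Finset.union_empty]
    | insert i Y _ ih =>
      intro X hX hY
      have hi : i ∈ D := hY (Finset.mem_insert_self _ _)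
      have hY' : Y ⊆ D := fun y hy => hY (Finset.mem_insert_of_mem hy)
      have h1 := ih X hX hY'
      rw [Finset.union_insert]
      by_cases h2 : i ∈ X ∪ Y
      · rw [Finset.insert_eq_of_mem h2]
        exact h1
      · have h3 := hf (X ∪ Y) (Finset.union_subset hX hY') i hi h2
        have h4 := hf0 (X ∪ Y) (Finset.union_subset hX hY')
        nlinarith
  refine lo D _ fun X X' hX hX' hP hP' hsub => ?_
  by_contra hne
  obtain ⟨i, hi, hi'⟩ : ∃ i ∈ X', i ∉ X := by
    by_contra hcon
    push Not at hcon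
    exact hne (Finset.Subset.antisymm hsub hcon)
  have h1 := hf X hX i (hX' hi) hi'
  have h2 := hmono X' (insert i X) (Finset.insert_subset (hX' hi) hX) hX'
  have h3 : insert i X ∪ X' = X' := Finset.union_eq_right.2 (Finset.insert_subset hi hsub)
  rw [h3] at h2
  have h4 : (1 + δ) * v ≤ (1 + δ) * f X := mul_le_mul_of_nonneg_left hP.1 (by linarith)
  linarith [hP'.2]

end Run7.h53.TI
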