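import Mathlib
import Pool.Agent.Run7.h53.FW.Pre

/-!
# Exchanging a three with a two far behind it increases the value by a constant factor (helper53)
-/

set_option autoImplicit false

namespace Run7.h53.TI

open Filter Topology Finset
open Pool.Agent.H447R2.MZ (H H_nil H_cons H_cons_zero H_cons_succ H_nonneg Adm val tendsto_H H_le_val H_mono)
open Run7.h53.VD (T T_zero T_nil T_step T_nonneg T_le T_tendsto adm_append_left)
open Run7.h53.SX (hasSum_split H_small H_pos)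
open Run7.h53.FW (T_ratio T_anti T_pos adm_of_two)

/-- growth of the truncated sums, as for binomial coefficients -/
theorem H_ratio (S : List ℕ) : ∀ n : ℕ, ((n : ℝ) + 1 - S.length) * H S (n + 1) ≤ ((n : ℝ) + 1) * H S n := by
  induction S with
  | nil => intro n; rw [H_nil, H_nil]; simp
  | cons a S ih =>
    -- the auxiliary inequality
    have key : ∀ n : ℕ, ((n : ℝ) + 1 - (S.length + 1)) * ((((n + 1 : ℕ) : ℝ) ^ a)⁻¹ * H S n) ≤
        ((S.length : ℝ) + 1) * H (a :: S) n := by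
      intro n
      induction n with
      | zero =>
        rw [H_cons_zero, mul_zero]
        rcases Nat.eq_zero_or_pos S.length with h | h
        · rw [h]; simp
        · rw [H_small S 0 h]; simp
      | succ n ihn =>
        have e1 := H_cons_succ a S n
        have h1 := ih n
        have hH : 0 ≤ H S n := H_nonneg _ _
        have hH1 : 0 ≤ H S (n + 1) := H_nonneg _ _
        have hA : (0 : ℝ) < ((n + 1 : ℕ) : ℝ) ^ a := by positivity
        have hB : (0 : ℝ) < ((n + 1 + 1 : ℕ) : ℝ) ^ a := by positivity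
        have h2 : (((n + 1 + 1 : ℕ) : ℝ) ^ a)⁻¹ ≤ (((n + 1 : ℕ) : ℝ) ^ a)⁻¹ := by
          apply inv_anti₀ hA
          apply pow_le_pow_left₀ (by positivity)
          push_cast
          linarith
        have h3 : ((n : ℝ) + 1) * ((((n + 1 : ℕ) : ℝ) ^ a)⁻¹ * H S n) ≤
            ((S.length : ℝ) + 1) * H (a :: S) (n + 1) := by
          rw [e1]
          linarith
        calc (((n + 1 : ℕ) : ℝ) + 1 - (S.length + 1)) * ((((n + 1 + 1 : ℕ) : ℝ) ^ a)⁻¹ * H S (n + 1))
            = (((n + 1 + 1 : ℕ) : ℝ) ^ a)⁻¹ * (((n : ℝ) + 1 - S.length) * H S (n + 1)) := by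
              push_cast; ring
          _ ≤ (((n + 1 + 1 : ℕ) : ℝ) ^ a)⁻¹ * (((n : ℝ) + 1) * H S n) :=
              mul_le_mul_of_nonneg_left h1 (inv_nonneg.2 hB.le)
          _ ≤ (((n + 1 : ℕ) : ℝ) ^ a)⁻¹ * (((n : ℝ) + 1) * H S n) :=
              mul_le_mul_of_nonneg_right h2 (by positivity)
          _ = ((n : ℝ) + 1) * ((((n + 1 : ℕ) : ℝ) ^ a)⁻¹ * H S n) := by ring
          _ ≤ _ := h3
    intro n
    have h1 := key n
    rw [H_cons_succ, List.length_cons]
    push_cast at h1 ⊢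
    nlinarith

/-- the sum over the last variable of a tail -/
lemma T_hasSum {p : List ℕ} {b : ℕ} (h : Adm (p ++ [b])) (x : ℕ) :
    HasSum (fun k => (((x + k + 1 : ℕ) : ℝ) ^ b)⁻¹ * T p (x + k + 1)) (T (p ++ [b]) x) := by
  have hp := adm_append_left h
  have h0 : ∀ k, 0 ≤ (((x + k + 1 : ℕ) : ℝ) ^ b)⁻¹ * T p (x + k + 1) := fun k =>
    mul_nonneg (by positivity) (T_nonneg hp _)
  rw [hasSum_iff_tendsto_nat_of_nonneg h0]
  have h1 : ∀ N, ∑ k ∈ Finset.range N, (((x + k + 1 : ℕ) : ℝ) ^ b)⁻¹ * T p (x + k + 1) =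
      T (p ++ [b]) x - T (p ++ [b]) (x + N) := by
    intro N
    induction N with
    | zero => simp
    | succ N ih =>
      rw [Finset.sum_range_succ, ih, T_step h (x + N)]
      rw [← add_assoc]
      ring
  simp only [h1]
  have h2 : Tendsto (fun N => T (p ++ [b]) (x + N)) atTop (𝓝 0) := by
    have h3 := (T_tendsto h (by simp)).comp (tendsto_add_atTop_nat x)
    refine h3.congr fun N => ?_
    simp only [Function.comp]
    rw [add_comm]
  have := h2.const_sub (T (p ++ [b]) x)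
  rwa [sub_zero] at this

/-- a smaller letter in front -/
theorem T_front (P Q : List ℕ) (hP : ∀ x ∈ P, 2 ≤ x) (hQ : ∀ x ∈ Q, 2 ≤ x) (x : ℕ) :
    ((x : ℝ) + Q.length + 1) * T (P ++ 3 :: Q) x ≤ T (P ++ 2 :: Q) x := by
  have adm : ∀ (a : ℕ) (Q : List ℕ), 2 ≤ a → (∀ x ∈ Q, 2 ≤ x) → Adm (P ++ a :: Q) := by
    intro a Q ha hQ
    refine adm_of_two fun x hx => ?_
    rcases List.mem_append.1 hx with hx | hx
    · exact hP x hx
    · rcases List.mem_cons.1 hx with rfl | hx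
      · exact ha
      · exact hQ x hx
  induction Q using List.reverseRecOn generalizing x with
  | nil =>
    have h3 := T_hasSum (p := P) (b := 3) (adm 3 [] (by norm_num) (by simp)) x
    have h2 := T_hasSum (p := P) (b := 2) (adm 2 [] (by norm_num) (by simp)) x
    refine hasSum_le (fun k => ?_) (h3.mul_left ((x : ℝ) + ([] : List ℕ).length + 1)) h2
    have hT : 0 ≤ T P (x + k + 1) := T_nonneg (adm_of_two hP) _
    have hy : (0 : ℝ) < ((x + k + 1 : ℕ) : ℝ) := by positivity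
    have hxy : (x : ℝ) + ([] : List ℕ).length + 1 ≤ ((x + k + 1 : ℕ) : ℝ) := by
      simp only [List.length_nil]
      push_cast
      have : (0 : ℝ) ≤ k := Nat.cast_nonneg k
      linarith
    rw [← mul_assoc]
    refine mul_le_mul_of_nonneg_right ?_ hT
    have e : (((x + k + 1 : ℕ) : ℝ) ^ 2)⁻¹ = ((x + k + 1 : ℕ) : ℝ) * (((x + k + 1 : ℕ) : ℝ) ^ 3)⁻¹ := by
      field_simp
    rw [e]
    exact mul_le_mul_of_nonneg_right hxy (by positivity)
  | append_singleton Q b ih =>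
    have hQ' : ∀ y ∈ Q, 2 ≤ y := fun y hy => hQ y (List.mem_append_left _ hy)
    have e3 : P ++ 3 :: (Q ++ [b]) = (P ++ 3 :: Q) ++ [b] := by simp
    have e2 : P ++ 2 :: (Q ++ [b]) = (P ++ 2 :: Q) ++ [b] := by simp
    have a3 := adm 3 (Q ++ [b]) (by norm_num) hQ
    have a2 := adm 2 (Q ++ [b]) (by norm_num) hQ
    rw [e3] at a3 ⊢
    rw [e2] at a2 ⊢
    refine hasSum_le (fun k => ?_) ((T_hasSum a3 x).mul_left ((x : ℝ) + (Q ++ [b]).length + 1))
      (T_hasSum a2 x)
    have h1 := ih hQ' (x + k + 1)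
    have hT : 0 ≤ T (P ++ 3 :: Q) (x + k + 1) := T_nonneg (adm 3 Q (by norm_num) hQ') _
    have hxy : (x : ℝ) + (Q ++ [b]).length + 1 ≤ ((x + k + 1 : ℕ) : ℝ) + Q.length + 1 := by
      simp only [List.length_append, List.length_singleton]
      push_cast
      have : (0 : ℝ) ≤ k := Nat.cast_nonneg k
      linarith
    calc ((x : ℝ) + (Q ++ [b]).length + 1) * ((((x + k + 1 : ℕ) : ℝ) ^ b)⁻¹ * T (P ++ 3 :: Q) (x + k + 1))
        ≤ (((x + k + 1 : ℕ) : ℝ) + Q.length + 1) *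
          ((((x + k + 1 : ℕ) : ℝ) ^ b)⁻¹ * T (P ++ 3 :: Q) (x + k + 1)) :=
          mul_le_mul_of_nonneg_right hxy (mul_nonneg (by positivity) hT)
      _ = (((x + k + 1 : ℕ) : ℝ) ^ b)⁻¹ * ((((x + k + 1 : ℕ) : ℝ) + Q.length + 1) *
          T (P ++ 3 :: Q) (x + k + 1)) := by ring
      _ ≤ _ := mul_le_mul_of_nonneg_left h1 (by positivity)

/-- concentration -/
lemma conc {W : ℕ → ℝ} {m : ℕ} (hm : 1 ≤ m) (h0 : ∀ n, 0 ≤ W n) {V : ℝ} (hV : HasSum W V)
    (h : ∀ n : ℕ, 4 * m ≤ n + 1 → W (n + 1) * ((n : ℝ) + 2 + 5 / 4 * m) ≤ ((n : ℝ) + 1) * W n)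
    {B : ℝ} (hB : HasSum (fun n => W n / ((n : ℝ) + 1)) B) : 5 / (84 * (m : ℝ)) * V ≤ B := by
  obtain ⟨M, hM⟩ : ∃ M, 4 * m = M + 1 := ⟨4 * m - 1, by omega⟩
  have hMR : 4 * (m : ℝ) = M + 1 := by exact_mod_cast hM
  have hmR : (1 : ℝ) ≤ m := by exact_mod_cast hm
  -- the tail
  have h1 : ∀ N, 5 / 4 * (m : ℝ) * ∑ k ∈ Finset.range N, W (M + 1 + k) ≤
      ((M : ℝ) + 1) * W M - ((M : ℝ) + N + 1) * W (M + N) := by
    intro N
    induction N with
    | zero => simp
    | succ N ih =>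
      rw [Finset.sum_range_succ, mul_add]
      have h2 := h (M + N) (by omega)
      have e : M + 1 + N = M + N + 1 := by ring
      have e' : M + (N + 1) = M + N + 1 := by ring
      rw [e, e']
      push_cast at h2 ⊢
      linarith
  have hS := hV.summable
  have h2 : 5 / 4 * (m : ℝ) * ∑' k, W (k + (M + 1)) ≤ ((M : ℝ) + 1) * W M := by
    have hs : Summable fun k => W (k + (M + 1)) := (summable_nat_add_iff (M + 1)).2 hS
    have h3 := hs.hasSum.tendsto_sum_nat.const_mul (5 / 4 * (m : ℝ))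
    refine le_of_tendsto' h3 fun N => ?_
    have h4 := h1 N
    have h5 : 0 ≤ ((M : ℝ) + N + 1) * W (M + N) := mul_nonneg (by positivity) (h0 _)
    have e : ∑ i ∈ Finset.range N, W (i + (M + 1)) = ∑ k ∈ Finset.range N, W (M + 1 + k) :=
      Finset.sum_congr rfl fun k _ => by rw [add_comm]
    rw [e]
    linarith
  have h3 : V = ∑ k ∈ Finset.range (M + 1), W k + ∑' k, W (k + (M + 1)) := by
    rw [hS.sum_add_tsum_nat_add (M + 1)]
    exact hV.tsum_eq.symm
  have h4 : ∑ k ∈ Finset.range (M + 1), W k ≤ 4 * (m : ℝ) * B := by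
    have h5 : ∑ k ∈ Finset.range (M + 1), W k / ((k : ℝ) + 1) ≤ B :=
      sum_le_hasSum _ (fun n _ => div_nonneg (h0 n) (by positivity)) hB
    have h6 : ∑ k ∈ Finset.range (M + 1), W k ≤ 4 * (m : ℝ) * ∑ k ∈ Finset.range (M + 1), W k / ((k : ℝ) + 1) := by
      rw [Finset.mul_sum]
      refine Finset.sum_le_sum fun k hk => ?_
      have hk' : k < M + 1 := Finset.mem_range.1 hk
      have hk2 : (k : ℝ) + 1 ≤ 4 * m := by
        rw [hMR]
        exact_mod_cast hk'
      rw [mul_div_assoc']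
      rw [le_div_iff₀ (by positivity)]
      rw [mul_comm]
      exact mul_le_mul_of_nonneg_right hk2 (h0 k)
    exact h6.trans (mul_le_mul_of_nonneg_left h5 (by positivity))
  have h5 : W M ≤ ∑ k ∈ Finset.range (M + 1), W k :=
    Finset.single_le_sum (fun k _ => h0 k) (Finset.mem_range.2 (Nat.lt_succ_self M))
  have h6 : ∑' k, W (k + (M + 1)) ≤ 16 / 5 * W M := by
    rw [← hMR] at h2
    have h7 : (m : ℝ) * (5 / 4 * ∑' k, W (k + (M + 1))) ≤ (m : ℝ) * (4 * W M) := by linarith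
    have h8 := le_of_mul_le_mul_left h7 (by linarith)
    linarith
  have h7 : V ≤ 84 * m / 5 * B := by linarith
  rw [div_mul_eq_mul_div, div_le_iff₀ (by positivity)]
  linarith

/-- **Exchange.** -/
theorem flip {P Q S : List ℕ} {m : ℕ} (hm : 1 ≤ m) (hP : ∀ x ∈ P, 2 ≤ x) (hQ : ∀ x ∈ Q, 2 ≤ x)
    (hS : ∀ x ∈ S, 2 ≤ x) (hlQ : Q.length + 1 = 2 * m) (hlS : S.length ≤ m) (hlP : m ≤ P.length) :
    (1 + 5 / 42) * val (P ++ 3 :: Q ++ 2 :: S) ≤ val (P ++ 2 :: Q ++ 3 :: S) := by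
  have adm : ∀ a b : ℕ, 2 ≤ a → 2 ≤ b → Adm (P ++ a :: Q ++ b :: S) := by
    intro a b ha hb
    refine adm_of_two fun x hx => ?_
    rcases List.mem_append.1 hx with hx | hx
    · rcases List.mem_append.1 hx with hx | hx
      · exact hP x hx
      · rcases List.mem_cons.1 hx with rfl | hx
        · exact ha
        · exact hQ x hx
    · rcases List.mem_cons.1 hx with rfl | hx
      · exact hb
      · exact hS x hx
  have h32 := hasSum_split (adm 3 2 (by norm_num) le_rfl)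
  have h23 := hasSum_split (adm 2 3 le_rfl (by norm_num))
  set U : List ℕ := P ++ 3 :: Q with hU
  have hU2 : ∀ x ∈ U, 2 ≤ x := by
    intro x hx
    rcases List.mem_append.1 hx with hx | hx
    · exact hP x hx
    · rcases List.mem_cons.1 hx with rfl | hx
      · norm_num
      · exact hQ x hx
  have hlU : 3 * m ≤ U.length := by
    rw [hU, List.length_append, List.length_cons]
    omega
  set W : ℕ → ℝ := fun n => H S n * (((n + 1 : ℕ) : ℝ) ^ 2)⁻¹ * T U (n + 1) with hW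
  have hW0 : ∀ n, 0 ≤ W n := fun n =>
    mul_nonneg (mul_nonneg (H_nonneg _ _) (by positivity)) (T_nonneg (adm_of_two hU2) _)
  have hWs : Summable fun n => W n / ((n : ℝ) + 1) := by
    refine Summable.of_nonneg_of_le (fun n => div_nonneg (hW0 n) (by positivity)) (fun n => ?_) h32.summable
    refine div_le_self (hW0 n) ?_
    have : (0 : ℝ) ≤ n := Nat.cast_nonneg n
    linarith
  obtain ⟨B, hB⟩ := hWs
  have hmR : (1 : ℝ) ≤ m := by exact_mod_cast hm
  have h1 := conc hm hW0 h32 (fun n hn => ?_) hB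
  · -- conclusion
    have h2 : HasSum (fun n => W n + 2 * (m : ℝ) * (W n / ((n : ℝ) + 1)))
        (val (P ++ 3 :: Q ++ 2 :: S) + 2 * m * B) := h32.add (hB.mul_left _)
    have h3 := hasSum_le (fun n => ?_) h2 h23
    · have h4 : 2 * (m : ℝ) * (5 / (84 * (m : ℝ)) * val (U ++ 2 :: S)) ≤ 2 * (m : ℝ) * B :=
        mul_le_mul_of_nonneg_left h1 (by positivity)
      have h5 : 2 * (m : ℝ) * (5 / (84 * (m : ℝ)) * val (U ++ 2 :: S)) = 5 / 42 * val (U ++ 2 :: S) := by
        field_simp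
        ring
      rw [h5] at h4
      have h6 : (1 + 5 / 42 : ℝ) * val (P ++ 3 :: Q ++ 2 :: S) =
        val (U ++ 2 :: S) + 5 / 42 * val (U ++ 2 :: S) := by rw [hU]; ring
      rw [h6]
      linarith
    · have h4 := T_front P Q hP hQ (n + 1)
      have hl : (Q.length : ℝ) + 1 = 2 * m := by exact_mod_cast hlQ
      have hx : (0 : ℝ) < ((n + 1 : ℕ) : ℝ) := by positivity
      have h5 : 0 ≤ H S n * (((n + 1 : ℕ) : ℝ) ^ 3)⁻¹ := mul_nonneg (H_nonneg _ _) (by positivity)
      have h6 := mul_le_mul_of_nonneg_left h4 h5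
      rw [← hU] at h6
      refine le_trans (le_of_eq ?_) h6
      simp only [hW]
      have hn : ((n : ℝ) + 1) ≠ 0 := by positivity
      have hl' : (Q.length : ℝ) = 2 * m - 1 := by linarith
      rw [hl']
      push_cast
      field_simp
      ring
  · have h2 := T_ratio U hU2 (n + 1)
    have h3 := H_ratio S n
    have hT1 : 0 ≤ T U (n + 1) := T_nonneg (adm_of_two hU2) _
    have hT2 : 0 ≤ T U (n + 1 + 1) := T_nonneg (adm_of_two hU2) _
    have hH1 : 0 ≤ H S n := H_nonneg _ _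
    have hH2 : 0 ≤ H S (n + 1) := H_nonneg _ _
    have hs : (S.length : ℝ) ≤ m := by exact_mod_cast hlS
    have hu : 3 * (m : ℝ) ≤ U.length := by exact_mod_cast hlU
    have hx : 4 * (m : ℝ) ≤ (n : ℝ) + 1 := by exact_mod_cast hn
    set x : ℝ := (n : ℝ) + 1 with hxdef
    have hx0 : 0 < x := by rw [hxdef]; positivity
    -- bounds
    have h4 : (x + 1 + 3 * m) * T U (n + 1 + 1) ≤ (x + 1) * T U (n + 1) := by
      push_cast at h2
      have : (x + 1 + 3 * m) * T U (n + 1 + 1) ≤ ((n : ℝ) + 1 + 1 + U.length) * T U (n + 1 + 1) := by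
        refine mul_le_mul_of_nonneg_right ?_ hT2
        rw [hxdef]
        linarith
      refine this.trans (h2.trans (le_of_eq ?_))
      rw [hxdef]
    have h5 : (x - m) * H S (n + 1) ≤ x * H S n := by
      refine le_trans (mul_le_mul_of_nonneg_right ?_ hH2) h3
      rw [hxdef]
      linarith
    have hxm : 0 ≤ x - m := by linarith
    have h6 : (x + 1 + 3 * m) * T U (n + 1 + 1) * ((x - m) * H S (n + 1)) ≤
        (x + 1) * T U (n + 1) * (x * H S n) :=
      mul_le_mul h4 h5 (mul_nonneg hxm hH2) (by positivity)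
    have hpoly : x ^ 2 * (x + 1 + 5 / 4 * m) ≤ (x + 1 + 3 * m) * (x - m) * (x + 1) := by
      have e : (x + 1 + 3 * m) * (x - m) * (x + 1) - x ^ 2 * (x + 1 + 5 / 4 * m) =
        (3 / 4 * (m : ℝ) * x) * (x - 4 * m) + (x ^ 2 + (1 + m) * x - m - 3 * (m : ℝ) ^ 2) := by ring
      have e2 : 0 ≤ (3 / 4 * (m : ℝ) * x) * (x - 4 * m) := mul_nonneg (by positivity) (by linarith)
      have e3 : 0 ≤ x ^ 2 + (1 + m) * x - m - 3 * (m : ℝ) ^ 2 := by nlinarith
      linarith
    have e1 : W (n + 1) = H S (n + 1) * ((x + 1) ^ 2)⁻¹ * T U (n + 1 + 1) := by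
      simp only [hW, hxdef]
      push_cast
      ring_nf
    have e2 : W n = H S n * (x ^ 2)⁻¹ * T U (n + 1) := by
      simp only [hW, hxdef]
      push_cast
      ring_nf
    rw [e1, e2]
    have hx1 : 0 < x + 1 := by linarith
    -- compare
    have h7 : x ^ 2 * (x + 1 + 5 / 4 * m) * (H S (n + 1) * T U (n + 1 + 1)) ≤
        (x + 1) ^ 2 * x * (H S n * T U (n + 1)) := by
      calc x ^ 2 * (x + 1 + 5 / 4 * m) * (H S (n + 1) * T U (n + 1 + 1)) ≤
            (x + 1 + 3 * m) * (x - m) * (x + 1) * (H S (n + 1) * T U (n + 1 + 1)) :=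
            mul_le_mul_of_nonneg_right hpoly (mul_nonneg hH2 hT2)
        _ = (x + 1) * ((x + 1 + 3 * m) * T U (n + 1 + 1) * ((x - m) * H S (n + 1))) := by ring
        _ ≤ (x + 1) * ((x + 1) * T U (n + 1) * (x * H S n)) := mul_le_mul_of_nonneg_left h6 hx1.le
        _ = _ := by ring
    have hn2 : ((n : ℝ) + 2 + 5 / 4 * m) = x + 1 + 5 / 4 * m := by rw [hxdef]; ring
    rw [hn2]
    have hx2 : x ≠ 0 := hx0.ne'
    have hx3 : x + 1 ≠ 0 := hx1.ne'
    have h8 : H S (n + 1) * ((x + 1) ^ 2)⁻¹ * T U (n + 1 + 1) * (x + 1 + 5 / 4 * m) =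
        (x ^ 2 * (x + 1 + 5 / 4 * m) * (H S (n + 1) * T U (n + 1 + 1))) * ((x ^ 2)⁻¹ * ((x + 1) ^ 2)⁻¹) := by
      field_simp
    have h9 : x * (H S n * (x ^ 2)⁻¹ * T U (n + 1)) =
        ((x + 1) ^ 2 * x * (H S n * T U (n + 1))) * ((x ^ 2)⁻¹ * ((x + 1) ^ 2)⁻¹) := by
      field_simp
    rw [h8, h9]
    exact mul_le_mul_of_nonneg_right h7 (by positivity)

end Run7.h53.TI
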