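import Mathlib
import Pool.Agent.Run7.h53.TI.Flip
import Pool.Agent.Run7.h53.TI.Comb
import Pool.Agent.Run7.h53.VD.Main

/-!
# Words in the letters two and three as four blocks (helper53)
-/

set_option autoImplicit false

namespace Run7.h53.TI

open Filter Topology Finset
open Pool.Agent.H447R2.MZ (H H_nil H_cons H_cons_zero H_cons_succ H_nonneg Adm val tendsto_H H_le_val H_mono)
open Run7.h53.VD (hof hof_finite hof_lower exists_rho hof_one hof_zero hof_two hof_card)
open Run7.h53.SX (H_small H_pos)
open Run7.h53.FW (adm_of_two)

/-- letters -/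
def bl (b : Bool) : ℕ := if b then 3 else 2

lemma bl_inj : Function.Injective bl := by
  intro a b h
  cases a <;> cases b <;> simp [bl] at h ⊢

lemma bl_two (b : Bool) : 2 ≤ bl b := by cases b <;> simp [bl]

lemma bl_or (b : Bool) : bl b = 2 ∨ bl b = 3 := by cases b <;> simp [bl]

/-- the word of a Boolean function -/
def wf {a : ℕ} (f : Fin a → Bool) : List ℕ := List.ofFn fun i => bl (f i)

lemma wf_length {a : ℕ} (f : Fin a → Bool) : (wf f).length = a := List.length_ofFn

lemma wf_inj {a : ℕ} : Function.Injective (wf (a := a)) := by
  intro f g h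
  have := List.ofFn_injective h
  funext i
  exact bl_inj (congrFun this i)

lemma wf_or {a : ℕ} (f : Fin a → Bool) : ∀ x ∈ wf f, x = 2 ∨ x = 3 := by
  intro x hx
  obtain ⟨i, rfl⟩ := (List.mem_ofFn' _ _).1 hx
  exact bl_or _

lemma wf_two {a : ℕ} (f : Fin a → Bool) : ∀ x ∈ wf f, 2 ≤ x := by
  intro x hx
  rcases wf_or f x hx with rfl | rfl <;> norm_num

lemma wf_ex {a : ℕ} (l : List ℕ) (hl : ∀ x ∈ l, x = 2 ∨ x = 3) (h : l.length = a) :
    ∃ f : Fin a → Bool, wf f = l := by
  subst h
  refine ⟨fun i => decide (l.get i = 3), ?_⟩
  unfold wf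
  conv_rhs => rw [← List.ofFn_get l]
  congr 1
  funext i
  have h0 : ∀ y : ℕ, (y = 2 ∨ y = 3) → bl (decide (y = 3)) = y := by
    rintro y (rfl | rfl) <;> simp [bl]
  exact h0 _ (hl (l.get i) (List.get_mem l i))

lemma wf_sum {a : ℕ} (f : Fin a → Bool) : (wf f).sum = ∑ i, bl (f i) := by
  unfold wf
  rw [List.sum_ofFn]

lemma ofFn_update {m : ℕ} (f : Fin m → ℕ) (i : Fin m) (a : ℕ) :
    List.ofFn (Function.update f i a) =
      (List.ofFn f).take i ++ a :: (List.ofFn f).drop (i + 1) := by
  have hlen : (List.ofFn (Function.update f i a)).length =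
      ((List.ofFn f).take i ++ a :: (List.ofFn f).drop (i + 1)).length := by
    simp only [List.length_ofFn, List.length_append, List.length_take, List.length_cons,
      List.length_drop]
    have := i.2
    omega
  refine List.ext_getElem hlen fun j h1 h2 => ?_
  rw [List.getElem_ofFn]
  have hi := i.2
  rw [List.length_ofFn] at h1
  rcases lt_trichotomy j i.1 with h | h | h
  · rw [List.getElem_append_left (by simp [List.length_take]; omega)]
    rw [List.getElem_take, List.getElem_ofFn, Function.update_of_ne]
    intro heq
    have := congrArg Fin.val heq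
    simp at this
    omega
  · subst h
    rw [List.getElem_append_right (by simp [List.length_take])]
    simp [List.length_take]
  · rw [List.getElem_append_right (by simp [List.length_take]; omega)]
    have e : ((List.ofFn f).take i).length = i.1 := by
      simp [List.length_take]
    obtain ⟨d, rfl⟩ : ∃ d, j = i.1 + (d + 1) := ⟨j - i.1 - 1, by omega⟩
    have h3 : i.1 + (d + 1) - ((List.ofFn f).take i).length = d + 1 := by
      rw [e]; omega
    simp only [h3, List.getElem_cons_succ, List.getElem_drop, List.getElem_ofFn]
    rw [Function.update_of_ne]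
    · congr 1
      apply Fin.ext
      show i.1 + (d + 1) = i.1 + 1 + d
      omega
    · intro heq
      have := congrArg Fin.val heq
      simp at this

/-- four blocks -/
def enc {m r : ℕ} (R : Fin (m + r) → Bool) (M L S : Fin m → Bool) : List ℕ :=
  wf R ++ wf L ++ wf M ++ wf S

/-- exchange of a pair -/
lemma enc_flip {m r : ℕ} (R : Fin (m + r) → Bool) (M L S : Fin m → Bool) (i : Fin m)
    (hL : L i = true) (hS : S i = false) :
    (1 + 5 / 42) * val (enc R M L S) ≤
      val (enc R M (Function.update L i false) (Function.update S i true)) := by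
  have key : ∀ (f : Fin m → Bool) (b : Bool), wf (Function.update f i b) =
      (wf f).take i ++ bl b :: (wf f).drop (i + 1) := by
    intro f b
    unfold wf
    rw [← ofFn_update]
    congr 1
    funext j
    by_cases hj : j = i
    · subst hj; simp
    · rw [Function.update_of_ne hj, Function.update_of_ne hj]
  have eL : wf L = (wf L).take i ++ 3 :: (wf L).drop (i + 1) := by
    have := key L true
    rw [← hL, Function.update_eq_self] at this
    conv_lhs => rw [this]
    rw [hL]
    rfl
  have eS : wf S = (wf S).take i ++ 2 :: (wf S).drop (i + 1) := by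
    have := key S false
    rw [← hS, Function.update_eq_self] at this
    conv_lhs => rw [this]
    rw [hS]
    rfl
  have hi := i.2
  have h := flip (P := wf R ++ (wf L).take i) (Q := (wf L).drop (i + 1) ++ wf M ++ (wf S).take i)
    (S := (wf S).drop (i + 1)) (m := m) (by omega)
    (fun x hx => by
      rcases List.mem_append.1 hx with hx | hx
      · exact wf_two _ _ hx
      · exact wf_two _ _ (List.mem_of_mem_take hx))
    (fun x hx => by
      rcases List.mem_append.1 hx with hx | hx
      · rcases List.mem_append.1 hx with hx | hx
        · exact wf_two _ _ (List.mem_of_mem_drop hx)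
        · exact wf_two _ _ hx
      · exact wf_two _ _ (List.mem_of_mem_take hx))
    (fun x hx => wf_two _ _ (List.mem_of_mem_drop hx))
    (by
      simp only [List.length_append, List.length_drop, List.length_take, wf_length]
      omega)
    (by simp only [List.length_drop, wf_length]; omega)
    (by simp only [List.length_append, List.length_take, wf_length]; omega)
  unfold enc
  rw [key, key]
  have e1 : wf R ++ wf L ++ wf M ++ wf S = wf R ++ (wf L).take i ++
      3 :: ((wf L).drop (i + 1) ++ wf M ++ (wf S).take i) ++ 2 :: (wf S).drop (i + 1) := by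
    conv_lhs => rw [eL, eS]
    simp only [List.append_assoc, List.cons_append]
  have e2 : wf R ++ ((wf L).take i ++ bl false :: (wf L).drop (i + 1)) ++ wf M ++
      ((wf S).take i ++ bl true :: (wf S).drop (i + 1)) = wf R ++ (wf L).take i ++
      2 :: ((wf L).drop (i + 1) ++ wf M ++ (wf S).take i) ++ 3 :: (wf S).drop (i + 1) := by
    simp only [List.append_assoc, List.cons_append, bl]
    rfl
  rw [e1, e2]
  exact h

end Run7.h53.TI
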