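import Mathlib
import Pool.Agent.Run7.h53.TI.Words

/-!
# Few words have their value in a short window (helper53)
-/

set_option autoImplicit false

namespace Run7.h53.TI

open Filter Topology Finset
open Pool.Agent.H447R2.MZ (H H_nil H_cons H_cons_zero H_cons_succ H_nonneg Adm val tendsto_H H_le_val H_mono)
open Run7.h53.VD (hof hof_finite hof_lower exists_rho hof_one hof_zero hof_two hof_card)
open Run7.h53.SX (H_small H_pos)
open Run7.h53.FW (adm_of_two)

/-- four blocks: `R`, `M`, `L`, `S` -/
abbrev Q4 (m r : ℕ) : Type := (Fin (m + r) → Bool) × (Fin m → Bool) × (Fin m → Bool) × (Fin m → Bool)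

/-- the class of a word -/
abbrev Cl (m r : ℕ) : Type := (Fin (m + r) → Bool) × (Fin m → Bool) × (Fin m → Option Bool)

/-- the word -/
def en {m r : ℕ} (x : Q4 m r) : List ℕ := enc x.1 x.2.1 x.2.2.1 x.2.2.2

/-- weight of a pair -/
def wO : Option Bool → ℕ
  | none => 5
  | some b => bl b + bl b

/-- weight of a class -/
def wC {m r : ℕ} (y : Cl m r) : ℕ := ∑ i, bl (y.1 i) + ∑ i, bl (y.2.1 i) + ∑ i, wO (y.2.2 i)

/-- type of the pairs -/
def pt {m : ℕ} (L S : Fin m → Bool) : Fin m → Option Bool := fun i => if L i = S i then some (L i) else none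

/-- the class of a word -/
def cl {m r : ℕ} (x : Q4 m r) : Cl m r := (x.1, x.2.1, pt x.2.2.1 x.2.2.2)

/-- mixed pairs -/
def mx {m : ℕ} (E : Fin m → Option Bool) : Finset (Fin m) := univ.filter fun i => E i = none

/-- left letters -/
def La {m : ℕ} (E : Fin m → Option Bool) (X : Finset (Fin m)) (i : Fin m) : Bool :=
  match E i with
  | none => decide (i ∉ X)
  | some b => b

/-- right letters -/
def Sa {m : ℕ} (E : Fin m → Option Bool) (X : Finset (Fin m)) (i : Fin m) : Bool :=
  match E i with
  | none => decide (i ∈ X)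
  | some b => b

/-- the pairs in the good order -/
def Xo {m : ℕ} (L S : Fin m → Bool) : Finset (Fin m) := univ.filter fun i => L i = false ∧ S i = true

lemma La_Xo {m : ℕ} (L S : Fin m → Bool) : La (pt L S) (Xo L S) = L := by
  funext i
  unfold La pt Xo
  by_cases h : L i = S i
  · simp [h]
  · cases h1 : L i <;> cases h2 : S i <;> simp_all

lemma Sa_Xo {m : ℕ} (L S : Fin m → Bool) : Sa (pt L S) (Xo L S) = S := by
  funext i
  unfold Sa pt Xo
  by_cases h : L i = S i
  · simp [h]
  · cases h1 : L i <;> cases h2 : S i <;> simp_all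

lemma Xo_sub {m : ℕ} (L S : Fin m → Bool) : Xo L S ⊆ mx (pt L S) := by
  intro i hi
  unfold Xo at hi
  unfold mx pt
  rw [Finset.mem_filter] at hi ⊢
  refine ⟨hi.1, ?_⟩
  rw [hi.2.1, hi.2.2]
  simp

lemma pt_La {m : ℕ} (E : Fin m → Option Bool) (X : Finset (Fin m)) : pt (La E X) (Sa E X) = E := by
  funext i
  unfold pt La Sa
  cases h : E i with
  | none => by_cases hX : i ∈ X <;> simp [hX]
  | some b => simp

lemma La_inj {m : ℕ} (E : Fin m → Option Bool) {X X' : Finset (Fin m)} (hX : X ⊆ mx E) (hX' : X' ⊆ mx E)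
    (h : La E X = La E X') : X = X' := by
  ext i
  by_cases hi : i ∈ mx E
  · have h1 := congrFun h i
    have h2 : E i = none := (Finset.mem_filter.1 hi).2
    unfold La at h1
    rw [h2] at h1
    simpa using h1
  · exact ⟨fun h => absurd (hX h) hi, fun h => absurd (hX' h) hi⟩

lemma sum_en {m r : ℕ} (x : Q4 m r) : (en x).sum = wC (cl x) := by
  unfold en enc wC cl
  rw [List.sum_append, List.sum_append, List.sum_append, wf_sum, wf_sum, wf_sum, wf_sum]
  have h : ∑ i, wO (pt x.2.2.1 x.2.2.2 i) = ∑ i, bl (x.2.2.1 i) + ∑ i, bl (x.2.2.2 i) := by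
    rw [← Finset.sum_add_distrib]
    refine Finset.sum_congr rfl fun i _ => ?_
    unfold pt
    cases h1 : x.2.2.1 i <;> cases h2 : x.2.2.2 i <;> simp [wO, bl]
  rw [h]
  ring

/-- the positive values -/
lemma val_pos {l : List ℕ} (hl : Adm l) : 0 < val l := (H_pos l le_rfl).trans_le (H_le_val l hl _)

lemma en_two {m r : ℕ} (x : Q4 m r) : ∀ y ∈ en x, y = 2 ∨ y = 3 := by
  intro y hy
  unfold en enc at hy
  rcases List.mem_append.1 hy with hy | hy
  · rcases List.mem_append.1 hy with hy | hy
    · rcases List.mem_append.1 hy with hy | hy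
      · exact wf_or _ _ hy
      · exact wf_or _ _ hy
    · exact wf_or _ _ hy
  · exact wf_or _ _ hy

lemma en_adm {m r : ℕ} (x : Q4 m r) : Adm (en x) :=
  adm_of_two fun y hy => by rcases en_two x y hy with rfl | rfl <;> norm_num

/-- one class, window -/
theorem fiber_window {m r : ℕ} (v : ℝ) (n : ℕ) (y : Cl m r) :
    ((univ.filter fun x : Q4 m r => wC (cl x) = n ∧ (v ≤ val (en x) ∧ val (en x) < (1 + 5 / 42) * v)).filter
      fun x => cl x = y).card ≤ (mx y.2.2).card.choose ((mx y.2.2).card / 2) := by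
  classical
  obtain ⟨R, M, E⟩ := y
  refine le_trans ?_ (window (mx E) (fun X => val (en ((R, M, La E X, Sa E X) : Q4 m r)))
    (by norm_num : (0 : ℝ) < 5 / 42) (fun X _ => val_pos (en_adm _)) (fun X _ i hi hiX => ?_) v)
  · refine Finset.card_le_card_of_injOn (fun x => Xo x.2.2.1 x.2.2.2) (fun x hx => ?_) fun x hx x' hx' h => ?_
    · obtain ⟨h1, h2⟩ := Finset.mem_filter.1 (Finset.mem_coe.1 hx)
      obtain ⟨_, _, h3⟩ := Finset.mem_filter.1 h1
      obtain ⟨R', M', L', S'⟩ := x
      unfold cl at h2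
      simp only [Prod.mk.injEq] at h2
      obtain ⟨rfl, rfl, rfl⟩ := h2
      rw [Finset.mem_coe, Finset.mem_filter, Finset.mem_powerset]
      refine ⟨Xo_sub _ _, ?_⟩
      simp only [La_Xo, Sa_Xo]
      exact h3
    · obtain ⟨_, h2⟩ := Finset.mem_filter.1 (Finset.mem_coe.1 hx)
      obtain ⟨_, h2'⟩ := Finset.mem_filter.1 (Finset.mem_coe.1 hx')
      obtain ⟨R1, M1, L1, S1⟩ := x
      obtain ⟨R2, M2, L2, S2⟩ := x'
      unfold cl at h2 h2'
      simp only [Prod.mk.injEq] at h2 h2' h
      obtain ⟨rfl, rfl, rfl⟩ := h2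
      obtain ⟨rfl, rfl, h3⟩ := h2'
      have e1 : L1 = L2 := by
        rw [← La_Xo L1 S1, ← La_Xo L2 S2, h3, h]
      have e2 : S1 = S2 := by
        rw [← Sa_Xo L1 S1, ← Sa_Xo L2 S2, h3, h]
      rw [e1, e2]
  · have hE : E i = none := (Finset.mem_filter.1 hi).2
    have e1 : La E (insert i X) = Function.update (La E X) i false := by
      funext j
      by_cases hj : j = i
      · subst hj
        rw [Function.update_self]
        unfold La
        rw [hE]
        simp
      · rw [Function.update_of_ne hj]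
        unfold La
        cases E j with
        | none => simp [hj]
        | some b => rfl
    have e2 : Sa E (insert i X) = Function.update (Sa E X) i true := by
      funext j
      by_cases hj : j = i
      · subst hj
        rw [Function.update_self]
        unfold Sa
        rw [hE]
        simp
      · rw [Function.update_of_ne hj]
        unfold Sa
        cases E j with
        | none => simp [hj]
        | some b => rfl
    unfold en
    simp only
    rw [e1, e2]
    refine enc_flip R M (La E X) (Sa E X) i ?_ ?_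
    · unfold La
      rw [hE]
      simp [hiX]
    · unfold Sa
      rw [hE]
      simp [hiX]

/-- one class, total -/
theorem fiber_total {m r : ℕ} (n : ℕ) (y : Cl m r) (hy : wC y = n) :
    2 ^ (mx y.2.2).card ≤ ((univ.filter fun x : Q4 m r => wC (cl x) = n).filter fun x => cl x = y).card := by
  classical
  obtain ⟨R, M, E⟩ := y
  rw [← Finset.card_powerset]
  refine Finset.card_le_card_of_injOn (fun X => ((R, M, La E X, Sa E X) : Q4 m r)) (fun X hX => ?_)
    fun X hX X' hX' h => ?_
  · have h1 : cl ((R, M, La E X, Sa E X) : Q4 m r) = (R, M, E) := by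
      unfold cl
      simp only [pt_La]
    rw [Finset.mem_coe, Finset.mem_filter, Finset.mem_filter]
    exact ⟨⟨Finset.mem_univ _, by rw [h1]; exact hy⟩, h1⟩
  · have hX1 := Finset.mem_powerset.1 (Finset.mem_coe.1 hX)
    have hX2 := Finset.mem_powerset.1 (Finset.mem_coe.1 hX')
    simp only [Prod.mk.injEq, true_and] at h
    exact La_inj E hX1 hX2 h.1

/-- number of classes -/
theorem classes {m r : ℕ} {ρ : ℝ} (hρ : 0 < ρ) (h : ρ ^ 2 + ρ ^ 3 = 1) (n : ℕ) :
    ((univ.filter fun y : Cl m r => wC y = n).card : ℝ) * ρ ^ n ≤ (1 - ρ ^ 5) ^ m := by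
  classical
  have h1 : ∑ y : Cl m r, ρ ^ wC y = (1 - ρ ^ 5) ^ m := by
    have e1 : ∀ a : ℕ, ∑ f : Fin a → Bool, ρ ^ (∑ i, bl (f i)) = 1 := by
      intro a
      have : ∀ f : Fin a → Bool, ρ ^ (∑ i, bl (f i)) = ∏ i, ρ ^ bl (f i) := fun f =>
        (Finset.prod_pow_eq_pow_sum _ _ _).symm
      simp only [this]
      rw [← Fintype.sum_pow (fun b => ρ ^ bl b) a]
      rw [Fintype.sum_bool]
      simp only [bl, if_true]
      have : ρ ^ 3 + ρ ^ (if false = true then 3 else 2) = 1 := by
        simp
        linarith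
      rw [this, one_pow]
    have e2 : ∑ E : Fin m → Option Bool, ρ ^ (∑ i, wO (E i)) = (1 - ρ ^ 5) ^ m := by
      have : ∀ f : Fin m → Option Bool, ρ ^ (∑ i, wO (f i)) = ∏ i, ρ ^ wO (f i) := fun f =>
        (Finset.prod_pow_eq_pow_sum _ _ _).symm
      simp only [this]
      rw [← Fintype.sum_pow (fun b => ρ ^ wO b) m]
      congr 1
      rw [Fintype.sum_option, Fintype.sum_bool]
      simp only [wO, bl]
      have h2 : (ρ ^ 2 + ρ ^ 3) ^ 2 = 1 := by rw [h]; norm_num
      simp only [if_true, Bool.false_eq_true, if_false]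
      linear_combination h2
    rw [Fintype.sum_prod_type]
    have e3 : ∀ R : Fin (m + r) → Bool, ∑ y : (Fin m → Bool) × (Fin m → Option Bool),
        ρ ^ wC ((R, y) : Cl m r) = ρ ^ (∑ i, bl (R i)) * (1 - ρ ^ 5) ^ m := by
      intro R
      rw [Fintype.sum_prod_type]
      have e4 : ∀ M : Fin m → Bool, ∑ E : Fin m → Option Bool, ρ ^ wC ((R, M, E) : Cl m r) =
          ρ ^ (∑ i, bl (R i)) * ρ ^ (∑ i, bl (M i)) * (1 - ρ ^ 5) ^ m := by
        intro M
        rw [← e2, Finset.mul_sum]
        refine Finset.sum_congr rfl fun E _ => ?_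
        unfold wC
        rw [pow_add, pow_add]
      simp only [e4]
      rw [← Finset.sum_mul, ← Finset.mul_sum, e1, mul_one]
    simp only [e3]
    rw [← Finset.sum_mul, e1, one_mul]
  have h2 : ((univ.filter fun y : Cl m r => wC y = n).card : ℝ) * ρ ^ n =
      ∑ y ∈ univ.filter (fun y : Cl m r => wC y = n), ρ ^ wC y := by
    rw [Finset.sum_congr rfl (g := fun _ => ρ ^ n), Finset.sum_const, nsmul_eq_mul]
    intro y hy
    rw [(Finset.mem_filter.1 hy).2]
  rw [h2, ← h1]
  exact Finset.sum_le_sum_of_subset_of_nonneg (Finset.subset_univ _) fun y _ _ => by positivity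

lemma point (D n : ℕ) (hn : 1 ≤ n) :
    (D.choose (D / 2) : ℝ) ≤ 8 / Real.sqrt n * 2 ^ D + 2 ^ (n / 50) := by
  have hs : 0 < Real.sqrt n := Real.sqrt_pos.2 (by exact_mod_cast hn)
  have h0 : (0 : ℝ) ≤ 8 / Real.sqrt n * 2 ^ D := by positivity
  rcases Nat.lt_or_ge (n / 50) D with h | h
  · have h1 := choose_half D
    have h2 : (n : ℝ) ≤ 64 * ((D : ℝ) + 1) := by
      have : n ≤ 64 * (D + 1) := by omega
      exact_mod_cast this
    have h3 : (D.choose (D / 2) : ℝ) ≤ 8 / Real.sqrt n * 2 ^ D := by
      rw [div_mul_eq_mul_div, le_div_iff₀ hs]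
      refine le_of_sq_le_sq ?_ (by positivity)
      rw [mul_pow, mul_pow, Real.sq_sqrt (by positivity)]
      have e : ((2 : ℝ) ^ D) ^ 2 = 4 ^ D := by rw [← pow_mul, mul_comm, pow_mul]; norm_num
      rw [e]
      have h4 : (0 : ℝ) ≤ (D.choose (D / 2) : ℝ) ^ 2 := by positivity
      nlinarith
    have h4 : (0 : ℝ) ≤ 2 ^ (n / 50) := by positivity
    linarith
  · have h1 : (D.choose (D / 2) : ℝ) ≤ 2 ^ (n / 50) := by
      have h2 : D.choose (D / 2) ≤ 2 ^ D := Nat.choose_le_two_pow _ _
      have h3 : 2 ^ D ≤ 2 ^ (n / 50) := Nat.pow_le_pow_right (by norm_num) h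
      exact_mod_cast h2.trans h3
    linarith

/-- words of a fixed length -/
theorem block_window {m r : ℕ} (v : ℝ) (n : ℕ) (hn : 1 ≤ n) {ρ : ℝ} (hρ : 0 < ρ) (h : ρ ^ 2 + ρ ^ 3 = 1) :
    ((univ.filter fun x : Q4 m r => wC (cl x) = n ∧
      (v ≤ val (en x) ∧ val (en x) < (1 + 5 / 42) * v)).card : ℝ) ≤
      8 / Real.sqrt n * ((univ.filter fun x : Q4 m r => wC (cl x) = n).card : ℝ) +
        2 ^ (n / 50) * (ρ⁻¹ ^ n * (1 - ρ ^ 5) ^ m) := by
  classical
  have h1 : (univ.filter fun x : Q4 m r => wC (cl x) = n ∧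
      (v ≤ val (en x) ∧ val (en x) < (1 + 5 / 42) * v)).card = _ :=
    Finset.card_eq_sum_card_fiberwise (f := cl) (t := univ.filter fun y : Cl m r => wC y = n)
      fun x hx => by
        have := (Finset.mem_filter.1 (Finset.mem_coe.1 hx)).2.1
        rw [Finset.mem_coe, Finset.mem_filter]
        exact ⟨Finset.mem_univ _, this⟩
  have h2 : (univ.filter fun x : Q4 m r => wC (cl x) = n).card = _ :=
    Finset.card_eq_sum_card_fiberwise (f := cl) (t := univ.filter fun y : Cl m r => wC y = n)
      fun x hx => by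
        have := (Finset.mem_filter.1 (Finset.mem_coe.1 hx)).2
        rw [Finset.mem_coe, Finset.mem_filter]
        exact ⟨Finset.mem_univ _, this⟩
  rw [h1, h2]
  push_cast
  have hs : 0 ≤ 8 / Real.sqrt n := by positivity
  calc (∑ y ∈ univ.filter (fun y : Cl m r => wC y = n),
        (((univ.filter fun x : Q4 m r => wC (cl x) = n ∧
          (v ≤ val (en x) ∧ val (en x) < (1 + 5 / 42) * v)).filter fun x => cl x = y).card : ℝ))
      ≤ ∑ y ∈ univ.filter (fun y : Cl m r => wC y = n),
        (8 / Real.sqrt n * (((univ.filter fun x : Q4 m r => wC (cl x) = n).filter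
          fun x => cl x = y).card : ℝ) + 2 ^ (n / 50)) := by
        refine Finset.sum_le_sum fun y hy => ?_
        have hy' := (Finset.mem_filter.1 hy).2
        have h3 := fiber_window v n y
        have h4 := fiber_total n y hy'
        have h5 := point (mx y.2.2).card n hn
        have h6 : (((univ.filter fun x : Q4 m r => wC (cl x) = n ∧
          (v ≤ val (en x) ∧ val (en x) < (1 + 5 / 42) * v)).filter fun x => cl x = y).card : ℝ) ≤
          ((mx y.2.2).card.choose ((mx y.2.2).card / 2) : ℝ) := by exact_mod_cast h3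
        have h7 : (2 : ℝ) ^ (mx y.2.2).card ≤ (((univ.filter fun x : Q4 m r => wC (cl x) = n).filter
          fun x => cl x = y).card : ℝ) := by exact_mod_cast h4
        have h8 := mul_le_mul_of_nonneg_left h7 hs
        linarith
    _ = 8 / Real.sqrt n * ∑ y ∈ univ.filter (fun y : Cl m r => wC y = n),
          (((univ.filter fun x : Q4 m r => wC (cl x) = n).filter fun x => cl x = y).card : ℝ) +
        2 ^ (n / 50) * ((univ.filter fun y : Cl m r => wC y = n).card : ℝ) := by
        rw [Finset.sum_add_distrib, Finset.mul_sum, Finset.sum_const, nsmul_eq_mul]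
        ring
    _ ≤ _ := by
        have h3 := classes (m := m) (r := r) hρ h n
        have h4 : ((univ.filter fun y : Cl m r => wC y = n).card : ℝ) ≤ ρ⁻¹ ^ n * (1 - ρ ^ 5) ^ m := by
          have h5 : (0 : ℝ) < ρ⁻¹ ^ n := by positivity
          have h6 := mul_le_mul_of_nonneg_left h3 h5.le
          have h7 : ρ⁻¹ ^ n * (((univ.filter fun y : Cl m r => wC y = n).card : ℝ) * ρ ^ n) =
              ((univ.filter fun y : Cl m r => wC y = n).card : ℝ) := by
            rw [mul_comm, mul_assoc, ← mul_pow, mul_inv_cancel₀ hρ.ne', one_pow, mul_one]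
          rw [h7] at h6
          exact h6
        have h5 : (0 : ℝ) ≤ 2 ^ (n / 50) := by positivity
        have h6 := mul_le_mul_of_nonneg_left h4 h5
        linarith

/-- the words of weight `n` -/
noncomputable def hw (n : ℕ) : Finset (List ℕ) := (hof_finite n).toFinset

lemma mem_hw {n : ℕ} {w : List ℕ} : w ∈ hw n ↔ (∀ x ∈ w, x = 2 ∨ x = 3) ∧ w.sum = n := by
  unfold hw
  rw [Set.Finite.mem_toFinset]
  rfl

lemma hw_card (n : ℕ) : (hw n).card = (hof n).ncard := by
  unfold hw
  rw [Set.ncard_eq_toFinset_card _ (hof_finite n)]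

/-- bijection with the four blocks -/
theorem block_card (m r n : ℕ) (P : List ℕ → Prop) [DecidablePred P] :
    ((hw n).filter fun w => w.length = 4 * m + r ∧ P w).card =
      (univ.filter fun x : Q4 m r => wC (cl x) = n ∧ P (en x)).card := by
  classical
  symm
  refine Finset.card_bij (fun x _ => en x) (fun x hx => ?_) (fun x hx x' hx' h => ?_) fun w hw' => ?_
  · obtain ⟨_, h1, h2⟩ := Finset.mem_filter.1 hx
    rw [Finset.mem_filter, mem_hw]
    refine ⟨⟨en_two x, by rw [sum_en]; exact h1⟩, ?_, h2⟩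
    unfold en enc
    simp only [List.length_append, wf_length]
    ring
  · unfold en enc at h
    obtain ⟨h1, h2⟩ := List.append_inj h (by simp only [List.length_append, wf_length])
    obtain ⟨h3, h4⟩ := List.append_inj h1 (by simp only [List.length_append, wf_length])
    obtain ⟨h5, h6⟩ := List.append_inj h3 (by simp only [wf_length])
    obtain ⟨R, M, L, S⟩ := x
    obtain ⟨R', M', L', S'⟩ := x'
    simp only at h2 h4 h5 h6
    rw [wf_inj h2, wf_inj h4, wf_inj h5, wf_inj h6]
  · obtain ⟨h1, h2, h3⟩ := Finset.mem_filter.1 hw'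
    obtain ⟨h4, h5⟩ := mem_hw.1 h1
    obtain ⟨R, hR⟩ := wf_ex (a := m + r) (w.take (m + r)) (fun x hx => h4 x (List.mem_of_mem_take hx))
      (by rw [List.length_take]; omega)
    obtain ⟨L, hL⟩ := wf_ex (a := m) ((w.drop (m + r)).take m)
      (fun x hx => h4 x (List.mem_of_mem_drop (List.mem_of_mem_take hx)))
      (by rw [List.length_take, List.length_drop]; omega)
    obtain ⟨M, hM⟩ := wf_ex (a := m) (((w.drop (m + r)).drop m).take m)
      (fun x hx => h4 x (List.mem_of_mem_drop (List.mem_of_mem_drop (List.mem_of_mem_take hx))))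
      (by rw [List.length_take, List.length_drop, List.length_drop]; omega)
    obtain ⟨S, hS⟩ := wf_ex (a := m) (((w.drop (m + r)).drop m).drop m)
      (fun x hx => h4 x (List.mem_of_mem_drop (List.mem_of_mem_drop (List.mem_of_mem_drop hx))))
      (by rw [List.length_drop, List.length_drop, List.length_drop]; omega)
    have e : en ((R, M, L, S) : Q4 m r) = w := by
      unfold en enc
      simp only
      rw [hR, hL, hM, hS, List.append_assoc, List.append_assoc, List.take_append_drop,
        List.take_append_drop, List.take_append_drop]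
    refine ⟨(R, M, L, S), ?_, e⟩
    rw [Finset.mem_filter]
    refine ⟨Finset.mem_univ _, ?_, by rw [e]; exact h3⟩
    rw [← sum_en, e]
    exact h5

end Run7.h53.TI
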