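import Mathlib
import Pool.Agent.Run7.h53.TI.Count

/-!
# Typical tuples of words in the letters two and three (helper53)
-/

set_option autoImplicit false

namespace Run7.h53.TI

open Filter Topology Finset
open Pool.Agent.H447R2.MZ (H H_nil H_cons H_cons_zero H_cons_succ H_nonneg Adm val tendsto_H H_le_val H_mono)
open Run7.h53.VD (hof hof_finite hof_lower exists_rho hof_one hof_zero hof_two hof_card)
open Run7.h53.SX (H_small H_pos)
open Run7.h53.FW (adm_of_two)

lemma hw_adm {n : ℕ} {w : List ℕ} (h : w ∈ hw n) : Adm w :=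
  adm_of_two fun x hx => by rcases (mem_hw.1 h).1 x hx with rfl | rfl <;> norm_num

lemma len_bounds (w : List ℕ) (h : ∀ x ∈ w, x = 2 ∨ x = 3) : w.length ≤ w.sum ∧ w.sum ≤ 3 * w.length := by
  induction w with
  | nil => simp
  | cons x w ih =>
    obtain ⟨h1, h2⟩ := ih fun y hy => h y (List.mem_cons_of_mem _ hy)
    rw [List.sum_cons, List.length_cons]
    rcases h x List.mem_cons_self with rfl | rfl <;> omega

lemma decay : ∃ C : ℝ, ∀ n : ℕ, 1 ≤ n →
    ((n : ℝ) + 1) * (2 ^ (n / 50) * (781 / 1024 : ℝ) ^ (n / 12)) ≤ C / Real.sqrt n := by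
  have hq : |(64 * (781 / 1024 : ℝ) ^ 25)| < 1 := by
    rw [abs_of_nonneg (by positivity)]
    norm_num
  obtain ⟨B, hB⟩ := (tendsto_pow_const_mul_const_pow_of_abs_lt_one 2 hq).bddAbove_range
  set q : ℝ := 64 * (781 / 1024 : ℝ) ^ 25 with hqd
  have hq0 : 0 < q := by rw [hqd]; positivity
  refine ⟨32 * 90000 * (B / q), fun n hn => ?_⟩
  have hs : 0 < Real.sqrt n := Real.sqrt_pos.2 (by exact_mod_cast hn)
  rw [le_div_iff₀ hs]
  set j := n / 300 with hj
  have h1 : n / 50 ≤ 6 * j + 5 := by omega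
  have h2 : 25 * j ≤ n / 12 := by omega
  have h3 : n + 1 ≤ 300 * (j + 1) := by omega
  have hB1 : (((j + 1 : ℕ) : ℝ)) ^ 2 * q ^ (j + 1) ≤ B := hB ⟨j + 1, rfl⟩
  have h4 : (2 : ℝ) ^ (n / 50) ≤ 32 * 64 ^ j := by
    calc (2 : ℝ) ^ (n / 50) ≤ 2 ^ (6 * j + 5) := pow_le_pow_right₀ (by norm_num) h1
      _ = 32 * 64 ^ j := by rw [pow_add, pow_mul]; norm_num; ring
  have h5 : (781 / 1024 : ℝ) ^ (n / 12) ≤ ((781 / 1024 : ℝ) ^ 25) ^ j := by
    rw [← pow_mul]
    exact pow_le_pow_of_le_one (by norm_num) (by norm_num) h2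
  have h6 : Real.sqrt n ≤ 300 * ((j : ℝ) + 1) := by
    have h7 : (n : ℝ) ≤ 300 * ((j : ℝ) + 1) := by
      have : n ≤ 300 * (j + 1) := by omega
      exact_mod_cast this
    have h8 : Real.sqrt n ≤ n := by
      rw [Real.sqrt_le_left (by positivity)]
      have : (1 : ℝ) ≤ n := by exact_mod_cast hn
      nlinarith
    linarith
  have h7 : ((n : ℝ) + 1) ≤ 300 * ((j : ℝ) + 1) := by exact_mod_cast h3
  calc ((n : ℝ) + 1) * (2 ^ (n / 50) * (781 / 1024 : ℝ) ^ (n / 12)) * Real.sqrt n
      ≤ (300 * ((j : ℝ) + 1)) * ((32 * 64 ^ j) * ((781 / 1024 : ℝ) ^ 25) ^ j) * (300 * ((j : ℝ) + 1)) := by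
        gcongr
    _ = 32 * 90000 * (((((j + 1 : ℕ) : ℝ)) ^ 2 * q ^ (j + 1)) / q) := by
        rw [pow_succ q j, hqd, mul_pow]
        push_cast
        field_simp
        ring
    _ ≤ 32 * 90000 * (B / q) := by gcongr

/-- **Short windows.** -/
theorem window_words : ∃ C : ℝ, 0 < C ∧ ∀ n : ℕ, 1 ≤ n → ∀ v : ℝ,
    (((hw n).filter fun w : List ℕ => v ≤ val w ∧ val w < (1 + 5 / 42) * v).card : ℝ) ≤
      C / Real.sqrt n * ((hw n).card : ℝ) := by
  classical
  obtain ⟨ρ, r1, r2, r3⟩ := exists_rho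
  have hρ : 0 < ρ := by linarith
  obtain ⟨C1, hC1⟩ := decay
  refine ⟨8 + 4 * |C1|, by positivity, fun n hn v => ?_⟩
  have hs : 0 < Real.sqrt n := Real.sqrt_pos.2 (by exact_mod_cast hn)
  by_cases hn1 : n = 1
  · subst hn1
    have h0 : (hw 1).card = 0 := by rw [hw_card, hof_one, Set.ncard_empty]
    rw [Finset.card_eq_zero] at h0
    rw [h0]
    simp
  set P : List ℕ → Prop := fun w => v ≤ val w ∧ val w < (1 + 5 / 42) * v with hP
  suffices hsuff : (((hw n).filter P).card : ℝ) ≤ (8 + 4 * |C1|) / Real.sqrt n * ((hw n).card : ℝ) by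
    convert hsuff using 3
  have hγ0 : 0 ≤ 1 - ρ ^ 5 := by
    have : ρ ^ 5 ≤ 1 := pow_le_one₀ hρ.le r2.le
    linarith
  have hγ : 1 - ρ ^ 5 ≤ 781 / 1024 := by
    have : (3 / 4 : ℝ) ^ 5 ≤ ρ ^ 5 := pow_le_pow_left₀ (by norm_num) r1.le 5
    norm_num at this
    linarith
  -- the lengths
  have hsum : ∀ (P : List ℕ → Prop) [DecidablePred P], (((hw n).filter P).card : ℝ) =
      ∑ k ∈ Finset.range (n + 1), (((hw n).filter fun w => w.length = k ∧ P w).card : ℝ) := by
    intro P _
    have h1 : ((hw n).filter P).card = _ := Finset.card_eq_sum_card_fiberwise (f := List.length)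
      (t := Finset.range (n + 1)) fun w hw' => by
        have h2 := mem_hw.1 (Finset.mem_filter.1 (Finset.mem_coe.1 hw')).1
        have h3 := (len_bounds w h2.1).1
        rw [Finset.mem_coe, Finset.mem_range]
        omega
    rw [h1]
    push_cast
    refine Finset.sum_congr rfl fun k _ => ?_
    rw [Finset.filter_filter]
    congr 2
    ext w
    simp only [Finset.mem_filter]
    tauto
  have hk : ∀ k ∈ Finset.range (n + 1), (((hw n).filter fun w => w.length = k ∧ P w).card : ℝ) ≤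
      8 / Real.sqrt n * (((hw n).filter fun w => w.length = k ∧ True).card : ℝ) +
        2 ^ (n / 50) * (ρ⁻¹ ^ n * (781 / 1024 : ℝ) ^ (n / 12)) := by
    intro k _
    by_cases hk3 : 3 * k < n
    · have h0 : ((hw n).filter fun w => w.length = k ∧ P w) = ∅ := by
        refine Finset.filter_false_of_mem fun w hw' h1 => ?_
        have h2 := mem_hw.1 hw'
        have h3 := (len_bounds w h2.1).2
        omega
      rw [h0, Finset.card_empty, Nat.cast_zero]
      positivity
    · have h1 := block_window (m := k / 4) (r := k % 4) v n hn hρ r3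
      have h2 := block_card (k / 4) (k % 4) n P
      have h3 := block_card (k / 4) (k % 4) n (fun _ => True)
      have hkk : 4 * (k / 4) + k % 4 = k := Nat.div_add_mod k 4
      rw [hkk] at h2 h3
      rw [h2, h3]
      have e1 : (univ.filter fun x : Q4 (k / 4) (k % 4) => wC (cl x) = n ∧ True) =
          univ.filter fun x : Q4 (k / 4) (k % 4) => wC (cl x) = n := by
        ext x
        simp
      rw [e1]
      refine h1.trans ?_
      have h4 : (1 - ρ ^ 5) ^ (k / 4) ≤ (781 / 1024 : ℝ) ^ (n / 12) := by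
        calc (1 - ρ ^ 5) ^ (k / 4) ≤ (781 / 1024 : ℝ) ^ (k / 4) := pow_le_pow_left₀ hγ0 hγ _
          _ ≤ _ := pow_le_pow_of_le_one (by norm_num) (by norm_num) (by omega)
      have h5 : (0 : ℝ) ≤ ρ⁻¹ ^ n := by positivity
      have h6 : (0 : ℝ) ≤ 2 ^ (n / 50) := by positivity
      have h7 := mul_le_mul_of_nonneg_left (mul_le_mul_of_nonneg_left h4 h5) h6
      linarith
  have h1 := hsum P
  have h2 : ((hw n).card : ℝ) = ∑ k ∈ Finset.range (n + 1),
      (((hw n).filter fun w => w.length = k ∧ True).card : ℝ) := by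
    have h3 := hsum fun _ => True
    have h4 : (hw n).filter (fun _ => True) = hw n := Finset.filter_true_of_mem fun _ _ => trivial
    rw [h4] at h3
    exact h3
  rw [h1]
  refine (Finset.sum_le_sum hk).trans ?_
  rw [Finset.sum_add_distrib, ← Finset.mul_sum, ← h2, Finset.sum_const, Finset.card_range, nsmul_eq_mul]
  have h3 := hof_lower r1 r2 r3 n hn1
  rw [← hw_card] at h3
  have h4 : ρ⁻¹ ^ n ≤ 4 * ((hw n).card : ℝ) := by
    rw [inv_pow, inv_le_iff_one_le_mul₀ (by positivity)]
    nlinarith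
  have h5 := hC1 n hn
  have h6 : (0 : ℝ) ≤ 2 ^ (n / 50) * (781 / 1024 : ℝ) ^ (n / 12) := by positivity
  have h7 : ((n + 1 : ℕ) : ℝ) * (2 ^ (n / 50) * (ρ⁻¹ ^ n * (781 / 1024 : ℝ) ^ (n / 12))) ≤
      C1 / Real.sqrt n * (4 * ((hw n).card : ℝ)) := by
    calc ((n + 1 : ℕ) : ℝ) * (2 ^ (n / 50) * (ρ⁻¹ ^ n * (781 / 1024 : ℝ) ^ (n / 12)))
        = (((n : ℝ) + 1) * (2 ^ (n / 50) * (781 / 1024 : ℝ) ^ (n / 12))) * ρ⁻¹ ^ n := by push_cast; ring
      _ ≤ (((n : ℝ) + 1) * (2 ^ (n / 50) * (781 / 1024 : ℝ) ^ (n / 12))) * (4 * ((hw n).card : ℝ)) :=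
          mul_le_mul_of_nonneg_left h4 (mul_nonneg (add_nonneg (Nat.cast_nonneg n) zero_le_one) h6)
      _ ≤ _ := mul_le_mul_of_nonneg_right h5 (mul_nonneg zero_le_four (Nat.cast_nonneg _))
  have h8 : C1 / Real.sqrt n * (4 * ((hw n).card : ℝ)) ≤ |C1| / Real.sqrt n * (4 * ((hw n).card : ℝ)) := by
    refine mul_le_mul_of_nonneg_right ?_ (mul_nonneg zero_le_four (Nat.cast_nonneg _))
    exact div_le_div_of_nonneg_right (le_abs_self _) hs.le
  have h9 : (8 + 4 * |C1|) / Real.sqrt n * ((hw n).card : ℝ) =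
      8 / Real.sqrt n * ((hw n).card : ℝ) + |C1| / Real.sqrt n * (4 * ((hw n).card : ℝ)) := by ring
  rw [h9]
  linarith

/-- **Long windows.** -/
theorem long_window : ∃ C : ℝ, 0 < C ∧ ∀ n : ℕ, 1 ≤ n → ∀ v K : ℝ, 0 < v → 1 ≤ K →
    (((hw n).filter fun w : List ℕ => v ≤ val w ∧ val w ≤ K * v).card : ℝ) ≤
      C * (1 + Real.log K) / Real.sqrt n * ((hw n).card : ℝ) := by
  classical
  obtain ⟨C, hC, h⟩ := window_words
  refine ⟨10 * C, by positivity, fun n hn v K hv hK => ?_⟩
  have hs : 0 < Real.sqrt n := Real.sqrt_pos.2 (by exact_mod_cast hn)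
  set y : ℝ := 1 + 5 / 42 with hy
  have hy1 : 1 < y := by rw [hy]; norm_num
  have hlog : 5 / 47 ≤ Real.log y := by
    have h1 := Real.one_sub_inv_le_log_of_pos (show 0 < y by linarith)
    refine le_trans (le_of_eq ?_) h1
    rw [hy]
    norm_num
  have hly : 0 < Real.log y := Real.log_pos hy1
  set J : ℕ := ⌊Real.log K / Real.log y⌋₊ + 1 with hJ
  have hlK : 0 ≤ Real.log K := Real.log_nonneg hK
  have hJ1 : (J : ℝ) ≤ 10 * (1 + Real.log K) := by
    rw [hJ]
    push_cast
    have h1 : (⌊Real.log K / Real.log y⌋₊ : ℝ) ≤ Real.log K / Real.log y :=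
      Nat.floor_le (div_nonneg hlK hly.le)
    have h2 : Real.log K / Real.log y ≤ 47 / 5 * Real.log K := by
      rw [div_le_iff₀ hly]
      nlinarith
    linarith
  have hJ2 : K < y ^ J := by
    have h1 : Real.log K / Real.log y < J := by
      rw [hJ]
      push_cast
      exact Nat.lt_floor_add_one _
    rw [div_lt_iff₀ hly] at h1
    rw [← Real.log_lt_log_iff (by linarith) (by positivity), Real.log_pow]
    exact h1
  have hsub : ((hw n).filter fun w : List ℕ => v ≤ val w ∧ val w ≤ K * v) ⊆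
      (Finset.range J).biUnion fun j => (hw n).filter fun w : List ℕ => y ^ j * v ≤ val w ∧ val w < y * (y ^ j * v) := by
    intro w hw'
    obtain ⟨h1, h2, h3⟩ := Finset.mem_filter.1 hw'
    obtain ⟨j, hj1, hj2⟩ := exists_nat_pow_near (show 1 ≤ val w / v by rw [le_div_iff₀ hv]; linarith) hy1
    rw [le_div_iff₀ hv] at hj1
    rw [div_lt_iff₀ hv] at hj2
    rw [Finset.mem_biUnion]
    refine ⟨j, ?_, ?_⟩
    · rw [Finset.mem_range]
      by_contra hcon
      rw [not_lt] at hcon
      have h4 : y ^ J ≤ y ^ j := pow_le_pow_right₀ hy1.le hcon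
      have h5 : K * v < y ^ j * v := mul_lt_mul_of_pos_right (hJ2.trans_le h4) hv
      linarith
    · rw [Finset.mem_filter]
      refine ⟨h1, hj1, ?_⟩
      rw [pow_succ] at hj2
      linarith
  have h1 : (((hw n).filter fun w : List ℕ => v ≤ val w ∧ val w ≤ K * v).card : ℝ) ≤
      ∑ j ∈ Finset.range J, (((hw n).filter fun w : List ℕ => y ^ j * v ≤ val w ∧ val w < y * (y ^ j * v)).card : ℝ) := by
    exact_mod_cast (Finset.card_le_card hsub).trans Finset.card_biUnion_le
  refine h1.trans ((Finset.sum_le_sum fun j _ => h n hn (y ^ j * v)).trans ?_)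
  rw [Finset.sum_const, Finset.card_range, nsmul_eq_mul]
  calc (J : ℝ) * (C / Real.sqrt n * ((hw n).card : ℝ)) ≤
        (10 * (1 + Real.log K)) * (C / Real.sqrt n * ((hw n).card : ℝ)) :=
        mul_le_mul_of_nonneg_right hJ1 (by positivity)
    _ = _ := by ring

/-! ### Small values -/

lemma two_pow_le (m : ℕ) : 2 ^ m ≤ 2 * m.factorial := by
  induction m with
  | zero => simp
  | succ m ih =>
    rw [pow_succ, Nat.factorial_succ]
    rcases Nat.eq_zero_or_pos m with rfl | hm
    · simp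
    · calc 2 ^ m * 2 ≤ 2 * m.factorial * 2 := Nat.mul_le_mul_right _ ih
        _ = 2 * (2 * m.factorial) := by ring
        _ ≤ 2 * ((m + 1) * m.factorial) :=
          Nat.mul_le_mul_left _ (Nat.mul_le_mul_right _ (by omega))

lemma sum_sq_le (ℓ N : ℕ) (hℓ : 1 ≤ ℓ) (hN : ℓ ≤ N) :
    ∑ i ∈ Finset.Ico ℓ N, (((i + 1 : ℕ) : ℝ) ^ 2)⁻¹ ≤ (ℓ : ℝ)⁻¹ - (N : ℝ)⁻¹ := by
  induction N, hN using Nat.le_induction with
  | base => simp
  | succ N hN ih =>
    rw [Finset.sum_Ico_succ_top hN]
    have hN0 : (0 : ℝ) < N := by exact_mod_cast (by omega : 0 < N)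
    have h1 : (((N + 1 : ℕ) : ℝ) ^ 2)⁻¹ ≤ (N : ℝ)⁻¹ - ((N + 1 : ℕ) : ℝ)⁻¹ := by
      push_cast
      rw [inv_sub_inv hN0.ne' (by positivity), add_sub_cancel_left, one_div]
      apply inv_anti₀ (by positivity)
      nlinarith
    linarith

lemma H_le_fact (l : List ℕ) (hl : ∀ x ∈ l, 2 ≤ x) (hne : l ≠ []) (N : ℕ) :
    H l N ≤ 2 / ((l.length - 1).factorial : ℝ) := by
  induction l generalizing N with
  | nil => exact absurd rfl hne
  | cons a l ih =>
    have ha : 2 ≤ a := hl a List.mem_cons_self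
    have hterm : ∀ i : ℕ, (((i + 1 : ℕ) : ℝ) ^ a)⁻¹ ≤ (((i + 1 : ℕ) : ℝ) ^ 2)⁻¹ := by
      intro i
      apply inv_anti₀ (by positivity)
      apply pow_le_pow_right₀ _ ha
      push_cast
      linarith [Nat.cast_nonneg (α := ℝ) i]
    cases l with
    | nil =>
      rw [H_cons]
      simp only [H_nil, mul_one, List.length_cons, List.length_nil]
      norm_num
      rcases Nat.eq_zero_or_pos N with rfl | hN
      · simp
      · rw [Finset.range_eq_Ico, Finset.sum_eq_sum_Ico_succ_bot hN]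
        have h1 := sum_sq_le 1 N le_rfl hN
        have h2 : ∑ i ∈ Finset.Ico 1 N, (((i : ℝ) + 1) ^ a)⁻¹ ≤
            ∑ i ∈ Finset.Ico 1 N, (((i + 1 : ℕ) : ℝ) ^ 2)⁻¹ :=
          Finset.sum_le_sum fun i _ => by
            have := hterm i
            push_cast at this ⊢
            exact this
        have h3 : (0 : ℝ) ≤ (N : ℝ)⁻¹ := by positivity
        have h4 : ((((0 : ℕ) : ℝ) + 1) ^ a)⁻¹ = 1 := by simp
        simp only [Nat.zero_add] at *
        rw [h4]
        norm_num at h1
        push_cast at h2 h1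
        linarith
    | cons b l =>
      have h1 := ih (fun x hx => hl x (List.mem_cons_of_mem _ hx)) (by simp)
      set ℓ := (b :: l).length with hℓ
      have hℓ1 : 1 ≤ ℓ := by rw [hℓ, List.length_cons]; omega
      have hfac : (0 : ℝ) < ((ℓ - 1).factorial : ℝ) := by positivity
      have hfac2 : ((ℓ : ℕ).factorial : ℝ) = ℓ * ((ℓ - 1).factorial : ℝ) := by
        have := Nat.mul_factorial_pred (show ℓ ≠ 0 by omega)
        exact_mod_cast this.symm
      have hℓ0 : (0 : ℝ) < ℓ := by exact_mod_cast hℓ1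
      have e : (a :: b :: l).length - 1 = ℓ := by rw [hℓ, List.length_cons]; omega
      rw [e, H_cons, hfac2]
      have h2 : ∀ i ∈ Finset.range N, (((i + 1 : ℕ) : ℝ) ^ a)⁻¹ * H (b :: l) i ≤
          if ℓ ≤ i then (((i + 1 : ℕ) : ℝ) ^ 2)⁻¹ * (2 / ((ℓ - 1).factorial : ℝ)) else 0 := by
        intro i _
        by_cases hi : ℓ ≤ i
        · rw [if_pos hi]
          exact mul_le_mul (hterm i) (h1 i) (H_nonneg _ _) (by positivity)
        · rw [if_neg hi, H_small _ _ (by rw [← hℓ]; omega), mul_zero]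
      refine (Finset.sum_le_sum h2).trans ?_
      rw [← Finset.sum_filter]
      have e2 : (Finset.range N).filter (fun i => ℓ ≤ i) = Finset.Ico ℓ N := by
        ext i
        simp only [Finset.mem_filter, Finset.mem_range, Finset.mem_Ico]
        tauto
      rw [e2, ← Finset.sum_mul]
      have h3 : ∑ i ∈ Finset.Ico ℓ N, (((i + 1 : ℕ) : ℝ) ^ 2)⁻¹ ≤ (ℓ : ℝ)⁻¹ := by
        rcases Nat.lt_or_ge N ℓ with h | h
        · rw [Finset.Ico_eq_empty (by omega), Finset.sum_empty]
          positivity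
        · have := sum_sq_le ℓ N hℓ1 h
          have : (0 : ℝ) ≤ (N : ℝ)⁻¹ := by positivity
          linarith
      calc (∑ i ∈ Finset.Ico ℓ N, (((i + 1 : ℕ) : ℝ) ^ 2)⁻¹) * (2 / ((ℓ - 1).factorial : ℝ)) ≤
            (ℓ : ℝ)⁻¹ * (2 / ((ℓ - 1).factorial : ℝ)) := mul_le_mul_of_nonneg_right h3 (by positivity)
        _ = _ := by field_simp

lemma val_small {n k : ℕ} {w : List ℕ} (hw' : w ∈ hw k) (hk : n ≤ k) (hn : 1 ≤ n) {K : ℝ} (hK : 1 ≤ K)
    (h : 1 ≤ K * val w) : Real.sqrt n ≤ 4 * (1 + Real.log K) := by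
  obtain ⟨h1, h2⟩ := mem_hw.1 hw'
  obtain ⟨_, h3⟩ := len_bounds w h1
  have hne : w ≠ [] := by
    rintro rfl
    simp at h2
    omega
  have hlen : 1 ≤ w.length := List.length_pos_iff.2 hne
  have h4 : val w ≤ 8 / 2 ^ w.length := by
    refine le_of_tendsto' (tendsto_H w (hw_adm hw')) fun N => ?_
    refine (H_le_fact w (fun x hx => by rcases h1 x hx with rfl | rfl <;> norm_num) hne N).trans ?_
    have h5 : (2 : ℝ) ^ (w.length - 1) ≤ 2 * ((w.length - 1).factorial : ℝ) := by
      exact_mod_cast two_pow_le (w.length - 1)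
    have h6 : (2 : ℝ) ^ w.length = 2 * 2 ^ (w.length - 1) := by
      rw [← pow_succ', Nat.sub_add_cancel hlen]
    rw [h6, div_le_div_iff₀ (by positivity) (by positivity)]
    linarith
  have h5 : (2 : ℝ) ^ w.length ≤ 8 * K := by
    have h6 : 1 ≤ K * (8 / 2 ^ w.length) := h.trans (mul_le_mul_of_nonneg_left h4 (by linarith))
    rw [mul_div_assoc', le_div_iff₀ (by positivity)] at h6
    linarith
  have h6 : (w.length : ℝ) * Real.log 2 ≤ 3 * Real.log 2 + Real.log K := by
    have h7 := Real.log_le_log (by positivity) h5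
    rw [Real.log_pow, Real.log_mul (by norm_num) (by linarith)] at h7
    have h8 : Real.log 8 = 3 * Real.log 2 := by
      rw [show (8 : ℝ) = 2 ^ 3 by norm_num, Real.log_pow]
      norm_num
    linarith
  have hl2 := Real.log_two_gt_d9
  have hlK : 0 ≤ Real.log K := Real.log_nonneg hK
  have h7 : (w.length : ℝ) ≤ 3 + 3 / 2 * Real.log K := by
    by_contra hcon
    rw [not_le] at hcon
    nlinarith
  have h8 : (n : ℝ) ≤ 3 * w.length := by
    have : n ≤ 3 * w.length := by omega
    exact_mod_cast this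
  rw [Real.sqrt_le_left (by positivity)]
  nlinarith

/-! ### Tuples -/

/-- one pair of coordinates -/
theorem pair_count : ∃ C : ℝ, 0 < C ∧ ∀ (N n : ℕ) (k : Fin N → ℕ), 1 ≤ n → (∀ i, n ≤ k i) → ∀ K : ℝ, 1 ≤ K →
    ∀ i j : Fin N, i ≠ j →
    (((Fintype.piFinset fun i => hw (k i)).filter fun w : Fin N → List ℕ =>
      val (w j) ≤ val (w i) ∧ val (w i) ≤ K * val (w j)).card : ℝ) ≤
      C * (1 + Real.log K) / Real.sqrt n * ∏ i, ((hw (k i)).card : ℝ) := by
  classical
  obtain ⟨C, hC, h⟩ := long_window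
  refine ⟨C, hC, fun N n k hn hk K hK i j hij => ?_⟩
  have hs : 0 < Real.sqrt n := Real.sqrt_pos.2 (by exact_mod_cast hn)
  have hlK : 0 ≤ Real.log K := Real.log_nonneg hK
  set B := (Fintype.piFinset fun i => hw (k i)).filter fun w : Fin N → List ℕ =>
      val (w j) ≤ val (w i) ∧ val (w i) ≤ K * val (w j) with hB
  set X : ℝ := C * (1 + Real.log K) / Real.sqrt n * ((hw (k j)).card : ℝ) with hX
  have hX0 : 0 ≤ X := by positivity
  set g : (Fin N → List ℕ) → (Fin N → List ℕ) := fun w => Function.update w j [] with hg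
  have h1 : B.card ≤ ⌊X⌋₊ * (B.image g).card := by
    refine Finset.card_le_mul_card_image B _ fun a ha => ?_
    obtain ⟨w0, hw0, rfl⟩ := Finset.mem_image.1 ha
    have hw0' := (Finset.mem_filter.1 hw0).1
    rw [Fintype.mem_piFinset] at hw0'
    have hv : 0 < val (w0 i) := val_pos (hw_adm (hw0' i))
    rw [Nat.le_floor_iff hX0]
    have h2 := h (k j) (hn.trans (hk j)) (val (w0 i) / K) K (by positivity) hK
    have h3 : ((B.filter fun x => g x = g w0).card : ℝ) ≤
        (((hw (k j)).filter fun w : List ℕ => val (w0 i) / K ≤ val w ∧ val w ≤ K * (val (w0 i) / K)).card : ℝ) := by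
      have : (B.filter fun x => g x = g w0).card ≤
          ((hw (k j)).filter fun w : List ℕ => val (w0 i) / K ≤ val w ∧ val w ≤ K * (val (w0 i) / K)).card := by
        refine Finset.card_le_card_of_injOn (fun x => x j) (fun x hx => ?_) fun x hx x' hx' heq => ?_
        · obtain ⟨hx1, hx2⟩ := Finset.mem_filter.1 (Finset.mem_coe.1 hx)
          obtain ⟨hx3, hx4, hx5⟩ := Finset.mem_filter.1 hx1
          rw [Fintype.mem_piFinset] at hx3
          have hxi : x i = w0 i := by
            have := congrFun hx2 i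
            rw [hg] at this
            simp only [Function.update_of_ne hij] at this
            exact this
          rw [Finset.mem_coe, Finset.mem_filter]
          refine ⟨hx3 j, ?_, ?_⟩
          · rw [div_le_iff₀ (by linarith), ← hxi]
            linarith
          · rw [mul_div_cancel₀ _ (by linarith), ← hxi]
            exact hx4
        · obtain ⟨_, hx2⟩ := Finset.mem_filter.1 (Finset.mem_coe.1 hx)
          obtain ⟨_, hx2'⟩ := Finset.mem_filter.1 (Finset.mem_coe.1 hx')
          funext l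
          by_cases hl : l = j
          · subst hl; exact heq
          · have := congrFun (hx2.trans hx2'.symm) l
            rw [hg] at this
            simp only [Function.update_of_ne hl] at this
            exact this
      exact_mod_cast this
    refine h3.trans (h2.trans ?_)
    rw [hX]
    have hkj : (n : ℝ) ≤ k j := by exact_mod_cast hk j
    gcongr
  have h2 : (B.image g).card ≤ ∏ l ∈ univ.erase j, (hw (k l)).card := by
    have h3 : B.image g ⊆ Fintype.piFinset fun l => if l = j then {[]} else hw (k l) := by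
      intro a ha
      obtain ⟨w, hw', rfl⟩ := Finset.mem_image.1 ha
      have hw0' := (Finset.mem_filter.1 hw').1
      rw [Fintype.mem_piFinset] at hw0' ⊢
      intro l
      by_cases hl : l = j
      · subst hl
        rw [hg]
        simp
      · rw [hg]
        simp only [Function.update_of_ne hl, if_neg hl]
        exact hw0' l
    refine (Finset.card_le_card h3).trans (le_of_eq ?_)
    rw [Fintype.card_piFinset, ← Finset.mul_prod_erase univ _ (Finset.mem_univ j)]
    simp only [if_true, Finset.card_singleton, one_mul]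
    refine Finset.prod_congr rfl fun l hl => ?_
    rw [if_neg (Finset.ne_of_mem_erase hl)]
  have h3 : ((B.image g).card : ℝ) ≤ ∏ l ∈ univ.erase j, ((hw (k l)).card : ℝ) := by exact_mod_cast h2
  have h4 : (B.card : ℝ) ≤ (⌊X⌋₊ : ℝ) * ((B.image g).card : ℝ) := by exact_mod_cast h1
  calc (B.card : ℝ) ≤ (⌊X⌋₊ : ℝ) * ((B.image g).card : ℝ) := h4
    _ ≤ X * ∏ l ∈ univ.erase j, ((hw (k l)).card : ℝ) :=
        mul_le_mul (Nat.floor_le hX0) h3 (by positivity) hX0
    _ = C * (1 + Real.log K) / Real.sqrt n * (((hw (k j)).card : ℝ) *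
          ∏ l ∈ univ.erase j, ((hw (k l)).card : ℝ)) := by rw [hX]; ring
    _ = _ := by rw [Finset.mul_prod_erase univ (fun l => ((hw (k l)).card : ℝ)) (Finset.mem_univ j)]

/-- two coordinates of similar size -/
lemma two_close {N : ℕ} {x c : Fin N → ℝ} {K : ℝ} (hx : ∀ i, 0 < x i)
    (hc : ∀ i, c i = 0 ∨ (1 ≤ |c i| ∧ |c i| ≤ K)) (hne : ∃ i, c i ≠ 0) (h : ∑ i, c i * x i = 0) :
    ∃ i j, i ≠ j ∧ x j ≤ x i ∧ x i ≤ N * K * x j := by
  classical
  obtain ⟨i0, hi0⟩ := hne
  obtain ⟨i, hi, hmax⟩ := Finset.exists_max_image (univ.filter fun i => c i ≠ 0) x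
    ⟨i0, Finset.mem_filter.2 ⟨Finset.mem_univ _, hi0⟩⟩
  have hci : c i ≠ 0 := (Finset.mem_filter.1 hi).2
  have hci1 : 1 ≤ |c i| := by
    rcases hc i with h1 | h1
    · exact absurd h1 hci
    · exact h1.1
  have hN : (0 : ℝ) < N := by exact_mod_cast (Fin.pos i)
  by_contra hcon
  push Not at hcon
  have h1 : ∀ j ∈ univ.erase i, |c j * x j| ≤ x i / N := by
    intro j hj
    have hji : j ≠ i := Finset.ne_of_mem_erase hj
    by_cases hcj : c j = 0
    · rw [hcj, zero_mul, abs_zero]
      exact div_nonneg (hx i).le hN.le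
    · have h2 := hcon i j hji.symm (hmax j (Finset.mem_filter.2 ⟨Finset.mem_univ _, hcj⟩))
      have h3 : |c j| ≤ K := by
        rcases hc j with h4 | h4
        · exact absurd h4 hcj
        · exact h4.2
      rw [abs_mul, abs_of_pos (hx j), le_div_iff₀ hN]
      have h4 : |c j| * x j ≤ K * x j := mul_le_mul_of_nonneg_right h3 (hx j).le
      nlinarith
  have h2 : |c i * x i| ≤ ∑ j ∈ univ.erase i, |c j * x j| := by
    have h3 : c i * x i = -∑ j ∈ univ.erase i, c j * x j := by
      have := Finset.add_sum_erase univ (fun j => c j * x j) (Finset.mem_univ i)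
      linarith
    rw [h3, abs_neg]
    exact Finset.abs_sum_le_sum_abs _ _
  have h3 := Finset.sum_le_sum h1
  rw [Finset.sum_const, Finset.card_erase_of_mem (Finset.mem_univ i), Finset.card_univ, Fintype.card_fin,
    nsmul_eq_mul] at h3
  have h4 : x i ≤ |c i * x i| := by
    rw [abs_mul, abs_of_pos (hx i)]
    nlinarith [hx i]
  have h5 : ((N - 1 : ℕ) : ℝ) * (x i / N) < x i := by
    have h6 : ((N - 1 : ℕ) : ℝ) = N - 1 := by
      rw [Nat.cast_sub (Fin.pos i)]
      simp
    rw [h6, mul_div_assoc', div_lt_iff₀ hN]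
    nlinarith [hx i]
  linarith

/-- **Tuples.** -/
theorem tuples : ∃ C : ℝ, 0 < C ∧ ∀ (N n : ℕ) (k : Fin N → ℕ), 1 ≤ n → (∀ i, n ≤ k i) → ∀ K : ℝ, 1 ≤ K →
    ∀ B : Finset (Fin N → List ℕ), (∀ w ∈ B, (∀ i, w i ∈ hw (k i)) ∧
      ∃ c : Fin N → ℝ, (∀ i, c i = 0 ∨ (1 ≤ |c i| ∧ |c i| ≤ K)) ∧ (∃ i, c i ≠ 0) ∧
        (∑ i, c i * val (w i) = 0 ∨ 1 ≤ |∑ i, c i * val (w i)|)) →
      (B.card : ℝ) ≤ C * (N : ℝ) ^ 2 * (1 + Real.log (N * K)) / Real.sqrt n * ∏ i, ((hw (k i)).card : ℝ) := by
  classical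
  obtain ⟨C, hC, h⟩ := pair_count
  refine ⟨max C 4, by positivity, fun N n k hn hk K hK B hB => ?_⟩
  have hs : 0 < Real.sqrt n := Real.sqrt_pos.2 (by exact_mod_cast hn)
  rcases Nat.eq_zero_or_pos N with rfl | hN
  · have : B = ∅ := by
      by_contra hcon
      obtain ⟨w, hw'⟩ := Finset.nonempty_of_ne_empty hcon
      obtain ⟨_, c, _, ⟨i, _⟩, _⟩ := hB w hw'
      exact i.elim0
    rw [this]
    simp
  have hN1 : (1 : ℝ) ≤ N := by exact_mod_cast hN
  have hNK : 1 ≤ (N : ℝ) * K := by nlinarith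
  have hL : 0 ≤ Real.log (N * K) := Real.log_nonneg hNK
  have hP : (0 : ℝ) ≤ ∏ i, ((hw (k i)).card : ℝ) := by positivity
  by_cases hbig : Real.sqrt n ≤ 4 * (1 + Real.log (N * K))
  · have h1 : (B.card : ℝ) ≤ ∏ i, ((hw (k i)).card : ℝ) := by
      have h2 : B ⊆ Fintype.piFinset fun i => hw (k i) := by
        intro w hw'
        rw [Fintype.mem_piFinset]
        exact (hB w hw').1
      have h3 := Finset.card_le_card h2
      rw [Fintype.card_piFinset] at h3
      exact_mod_cast h3
    have h2 : 1 ≤ max C 4 * (N : ℝ) ^ 2 * (1 + Real.log (N * K)) / Real.sqrt n := by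
      rw [le_div_iff₀ hs, one_mul]
      have h3 : (4 : ℝ) ≤ max C 4 := le_max_right _ _
      have h4 : (1 : ℝ) ≤ (N : ℝ) ^ 2 := one_le_pow₀ hN1
      have h5 : 4 * 1 ≤ max C 4 * (N : ℝ) ^ 2 := mul_le_mul h3 h4 (by norm_num) (by linarith)
      calc Real.sqrt n ≤ 4 * (1 + Real.log (N * K)) := hbig
        _ = (4 * 1) * (1 + Real.log (N * K)) := by ring
        _ ≤ _ := mul_le_mul_of_nonneg_right h5 (by linarith)
    calc (B.card : ℝ) ≤ 1 * ∏ i, ((hw (k i)).card : ℝ) := by rw [one_mul]; exact h1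
      _ ≤ _ := mul_le_mul_of_nonneg_right h2 hP
  · have hsub : B ⊆ (univ : Finset (Fin N × Fin N)).biUnion fun p =>
        if p.1 = p.2 then ∅ else (Fintype.piFinset fun i => hw (k i)).filter fun w : Fin N → List ℕ =>
          val (w p.2) ≤ val (w p.1) ∧ val (w p.1) ≤ (N * K) * val (w p.2) := by
      intro w hw'
      obtain ⟨h1, c, h2, h3, h4⟩ := hB w hw'
      have hpos : ∀ i, 0 < val (w i) := fun i => val_pos (hw_adm (h1 i))
      have hsm : ∀ i, (N * K) * val (w i) < 1 := by
        intro i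
        by_contra hcon
        rw [not_lt] at hcon
        exact hbig (val_small (h1 i) (hk i) hn hNK hcon)
      have h5 : ∑ i, c i * val (w i) = 0 := by
        rcases h4 with h4 | h4
        · exact h4
        · exfalso
          have h6 : |∑ i, c i * val (w i)| < 1 := by
            refine (Finset.abs_sum_le_sum_abs _ _).trans_lt ?_
            have h7 : ∀ i ∈ (univ : Finset (Fin N)), |c i * val (w i)| < 1 / N := by
              intro i _
              have h8 : |c i| ≤ K := by
                rcases h2 i with h9 | h9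
                · rw [h9, abs_zero]; linarith
                · exact h9.2
              rw [abs_mul, abs_of_pos (hpos i), lt_div_iff₀ (by linarith)]
              have h9 : |c i| * val (w i) ≤ K * val (w i) := mul_le_mul_of_nonneg_right h8 (hpos i).le
              have h10 := hsm i
              nlinarith
            have h8 := Finset.sum_lt_sum_of_nonempty (s := (univ : Finset (Fin N)))
              ⟨⟨0, hN⟩, Finset.mem_univ _⟩ h7
            rw [Finset.sum_const, Finset.card_univ, Fintype.card_fin, nsmul_eq_mul] at h8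
            have h9 : (N : ℝ) * (1 / N) = 1 := by field_simp
            linarith
          linarith
      obtain ⟨i, j, hij, h6, h7⟩ := two_close hpos h2 h3 h5
      rw [Finset.mem_biUnion]
      refine ⟨(i, j), Finset.mem_univ _, ?_⟩
      simp only
      rw [if_neg hij, Finset.mem_filter, Fintype.mem_piFinset]
      exact ⟨h1, h6, h7⟩
    have h1 : (B.card : ℝ) ≤ ∑ p : Fin N × Fin N,
        C * (1 + Real.log (N * K)) / Real.sqrt n * ∏ i, ((hw (k i)).card : ℝ) := by
      have h2 : (B.card : ℝ) ≤ ∑ p : Fin N × Fin N, (((if p.1 = p.2 then ∅ else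
          (Fintype.piFinset fun i => hw (k i)).filter fun w : Fin N → List ℕ =>
          val (w p.2) ≤ val (w p.1) ∧ val (w p.1) ≤ (N * K) * val (w p.2) : Finset (Fin N → List ℕ)).card : ℕ) : ℝ) := by
        exact_mod_cast (Finset.card_le_card hsub).trans Finset.card_biUnion_le
      refine h2.trans (Finset.sum_le_sum fun p _ => ?_)
      by_cases hp : p.1 = p.2
      · rw [if_pos hp, Finset.card_empty, Nat.cast_zero]
        positivity
      · rw [if_neg hp]
        exact h N n k hn hk (N * K) hNK p.1 p.2 hp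
    rw [Finset.sum_const, Finset.card_univ, Fintype.card_prod, Fintype.card_fin, nsmul_eq_mul] at h1
    refine h1.trans ?_
    have h2 : C ≤ max C 4 := le_max_left _ _
    calc ((N * N : ℕ) : ℝ) * (C * (1 + Real.log (N * K)) / Real.sqrt n * ∏ i, ((hw (k i)).card : ℝ))
        = C * (N : ℝ) ^ 2 * (1 + Real.log (N * K)) / Real.sqrt n * ∏ i, ((hw (k i)).card : ℝ) := by
          push_cast; ring
      _ ≤ _ := by gcongr

end Run7.h53.TI
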