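import Mathlib
import Pool.Agent.Run7.h53.TI.Count

/-!
# Windows: the abstract counting lemma (helper53)
-/

set_option autoImplicit false

namespace Run7.h53.TI

open Filter Topology Finset

/-- weight of a pair of blocks -/
def wp {m : ℕ} (E : Fin m → Option Bool) : ℕ := ∑ i, wO (E i)

open Classical in
/-- a function on `Ω × blocks` which grows by a constant factor with each exchange -/
theorem abs_window {Ω : Type} [Fintype Ω] (wr : Ω → ℕ) {ρ : ℝ} (hρ : 0 < ρ) (h : ρ ^ 2 + ρ ^ 3 = 1)
    (hwr : ∑ x, ρ ^ wr x ≤ 1) {m : ℕ} (f : Ω → (Fin m → Bool) → (Fin m → Bool) → ℝ)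
    (hf0 : ∀ x L S, 0 < f x L S) {δ : ℝ} (hδ : 0 < δ)
    (hf : ∀ x L S (i : Fin m), L i = true → S i = false →
      (1 + δ) * f x L S ≤ f x (Function.update L i false) (Function.update S i true)) (n e : ℕ) (v : ℝ) :
    ((univ.filter fun x : Ω × (Fin m → Bool) × (Fin m → Bool) => wr x.1 + wp (pt x.2.1 x.2.2) = n ∧
      (v ≤ f x.1 x.2.1 x.2.2 ∧ f x.1 x.2.1 x.2.2 < (1 + δ) * v)).card : ℝ) ≤
      1 / Real.sqrt (e + 1) * ((univ.filter fun x : Ω × (Fin m → Bool) × (Fin m → Bool) =>
        wr x.1 + wp (pt x.2.1 x.2.2) = n).card : ℝ) + 2 ^ e * (ρ⁻¹ ^ n * (1 - ρ ^ 5) ^ m) := by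
  set cl : Ω × (Fin m → Bool) × (Fin m → Bool) → Ω × (Fin m → Option Bool) :=
    fun x => (x.1, pt x.2.1 x.2.2) with hcl
  set K : Finset (Ω × (Fin m → Option Bool)) := univ.filter fun y => wr y.1 + wp y.2 = n with hK
  have h1 : (univ.filter fun x : Ω × (Fin m → Bool) × (Fin m → Bool) => wr x.1 + wp (pt x.2.1 x.2.2) = n ∧
      (v ≤ f x.1 x.2.1 x.2.2 ∧ f x.1 x.2.1 x.2.2 < (1 + δ) * v)).card = _ :=
    Finset.card_eq_sum_card_fiberwise (f := cl) (t := K) fun x hx => by
      have := (Finset.mem_filter.1 (Finset.mem_coe.1 hx)).2.1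
      rw [Finset.mem_coe, hK, Finset.mem_filter]
      exact ⟨Finset.mem_univ _, this⟩
  have h2 : (univ.filter fun x : Ω × (Fin m → Bool) × (Fin m → Bool) =>
      wr x.1 + wp (pt x.2.1 x.2.2) = n).card = _ :=
    Finset.card_eq_sum_card_fiberwise (f := cl) (t := K) fun x hx => by
      have := (Finset.mem_filter.1 (Finset.mem_coe.1 hx)).2
      rw [Finset.mem_coe, hK, Finset.mem_filter]
      exact ⟨Finset.mem_univ _, this⟩
  rw [h1, h2]
  push_cast
  -- one class, window
  have fw : ∀ y ∈ K, ((univ.filter fun x : Ω × (Fin m → Bool) × (Fin m → Bool) =>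
      wr x.1 + wp (pt x.2.1 x.2.2) = n ∧ (v ≤ f x.1 x.2.1 x.2.2 ∧ f x.1 x.2.1 x.2.2 < (1 + δ) * v)).filter
      fun x => cl x = y).card ≤ (mx y.2).card.choose ((mx y.2).card / 2) := by
    rintro ⟨R, E⟩ _
    refine le_trans ?_ (window (mx E) (fun X => f R (La E X) (Sa E X)) hδ (fun X _ => hf0 _ _ _)
      (fun X _ i hi hiX => ?_) v)
    · refine Finset.card_le_card_of_injOn (fun x => Xo x.2.1 x.2.2) (fun x hx => ?_) fun x hx x' hx' heq => ?_
      · obtain ⟨h1, h2⟩ := Finset.mem_filter.1 (Finset.mem_coe.1 hx)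
        obtain ⟨_, _, h3⟩ := Finset.mem_filter.1 h1
        obtain ⟨R', L', S'⟩ := x
        simp only [hcl, Prod.mk.injEq] at h2
        obtain ⟨rfl, rfl⟩ := h2
        rw [Finset.mem_coe, Finset.mem_filter, Finset.mem_powerset]
        refine ⟨Xo_sub _ _, ?_⟩
        simp only [La_Xo, Sa_Xo]
        exact h3
      · obtain ⟨_, h2⟩ := Finset.mem_filter.1 (Finset.mem_coe.1 hx)
        obtain ⟨_, h2'⟩ := Finset.mem_filter.1 (Finset.mem_coe.1 hx')
        obtain ⟨R1, L1, S1⟩ := x
        obtain ⟨R2, L2, S2⟩ := x'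
        simp only [hcl, Prod.mk.injEq] at h2 h2' heq
        obtain ⟨rfl, rfl⟩ := h2
        obtain ⟨rfl, h3⟩ := h2'
        have e1 : L1 = L2 := by
          rw [← La_Xo L1 S1, ← La_Xo L2 S2, h3, heq]
        have e2 : S1 = S2 := by
          rw [← Sa_Xo L1 S1, ← Sa_Xo L2 S2, h3, heq]
        rw [e1, e2]
    · have hE : E i = none := (Finset.mem_filter.1 hi).2
      have e1 : La E (insert i X) = Function.update (La E X) i false := by
        funext j
        by_cases hj : j = i
        · subst hj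
          rw [Function.update_self]
          unfold La
          rw [hE]
          simp
        · rw [Function.update_of_ne hj]
          unfold La
          cases E j with
          | none => simp [hj]
          | some b => rfl
      have e2 : Sa E (insert i X) = Function.update (Sa E X) i true := by
        funext j
        by_cases hj : j = i
        · subst hj
          rw [Function.update_self]
          unfold Sa
          rw [hE]
          simp
        · rw [Function.update_of_ne hj]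
          unfold Sa
          cases E j with
          | none => simp [hj]
          | some b => rfl
      rw [e1, e2]
      refine hf R (La E X) (Sa E X) i ?_ ?_
      · unfold La
        rw [hE]
        simp [hiX]
      · unfold Sa
        rw [hE]
        simp [hiX]
  -- one class, total
  have ft : ∀ y ∈ K, 2 ^ (mx y.2).card ≤ ((univ.filter fun x : Ω × (Fin m → Bool) × (Fin m → Bool) =>
      wr x.1 + wp (pt x.2.1 x.2.2) = n).filter fun x => cl x = y).card := by
    rintro ⟨R, E⟩ hy
    have hy' := (Finset.mem_filter.1 hy).2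
    rw [← Finset.card_powerset]
    refine Finset.card_le_card_of_injOn
      (fun X => ((R, La E X, Sa E X) : Ω × (Fin m → Bool) × (Fin m → Bool))) (fun X hX => ?_)
      fun X hX X' hX' heq => ?_
    · rw [Finset.mem_coe, Finset.mem_filter, Finset.mem_filter]
      simp only [hcl, pt_La]
      exact ⟨⟨Finset.mem_univ _, hy'⟩, trivial⟩
    · have hX1 := Finset.mem_powerset.1 (Finset.mem_coe.1 hX)
      have hX2 := Finset.mem_powerset.1 (Finset.mem_coe.1 hX')
      simp only [Prod.mk.injEq, true_and] at heq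
      exact La_inj E hX1 hX2 heq.1
  -- number of classes
  have hcls : (K.card : ℝ) * ρ ^ n ≤ (1 - ρ ^ 5) ^ m := by
    have e2 : ∑ E : Fin m → Option Bool, ρ ^ wp E = (1 - ρ ^ 5) ^ m := by
      have : ∀ g : Fin m → Option Bool, ρ ^ wp g = ∏ i, ρ ^ wO (g i) := fun g =>
        (Finset.prod_pow_eq_pow_sum _ _ _).symm
      simp only [this]
      rw [← Fintype.sum_pow (fun b => ρ ^ wO b) m]
      congr 1
      rw [Fintype.sum_option, Fintype.sum_bool]
      simp only [wO, bl]
      have h2 : (ρ ^ 2 + ρ ^ 3) ^ 2 = 1 := by rw [h]; norm_num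
      simp only [if_true, Bool.false_eq_true, if_false]
      linear_combination h2
    have h3 : (K.card : ℝ) * ρ ^ n = ∑ y ∈ K, ρ ^ (wr y.1 + wp y.2) := by
      rw [Finset.sum_congr rfl (g := fun _ => ρ ^ n), Finset.sum_const, nsmul_eq_mul]
      intro y hy
      rw [(Finset.mem_filter.1 hy).2]
    rw [h3]
    refine (Finset.sum_le_sum_of_subset_of_nonneg (Finset.subset_univ K) fun y _ _ => by positivity).trans ?_
    rw [Fintype.sum_prod_type]
    have h4 : ∀ x : Ω, ∑ y : Fin m → Option Bool, ρ ^ (wr x + wp y) = ρ ^ wr x * (1 - ρ ^ 5) ^ m := by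
      intro x
      rw [← e2, Finset.mul_sum]
      exact Finset.sum_congr rfl fun y _ => by rw [pow_add]
    simp only [h4]
    rw [← Finset.sum_mul]
    have h5 : 0 ≤ (1 - ρ ^ 5) ^ m := by
      rw [← e2]
      exact Finset.sum_nonneg fun y _ => by positivity
    nlinarith
  have hs : 0 < Real.sqrt ((e : ℝ) + 1) := Real.sqrt_pos.2 (by positivity)
  have hs0 : 0 ≤ 1 / Real.sqrt ((e : ℝ) + 1) := by positivity
  have hpt : ∀ D : ℕ, (D.choose (D / 2) : ℝ) ≤ 1 / Real.sqrt (e + 1) * 2 ^ D + 2 ^ e := by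
    intro D
    have h0 : (0 : ℝ) ≤ 1 / Real.sqrt (e + 1) * 2 ^ D := by positivity
    rcases Nat.lt_or_ge e D with hD | hD
    · have h1 := choose_half D
      have h3 : (D.choose (D / 2) : ℝ) ≤ 1 / Real.sqrt (e + 1) * 2 ^ D := by
        rw [div_mul_eq_mul_div, le_div_iff₀ hs]
        refine le_of_sq_le_sq ?_ (by positivity)
        rw [mul_pow, mul_pow, Real.sq_sqrt (by positivity)]
        have e4 : ((2 : ℝ) ^ D) ^ 2 = 4 ^ D := by rw [← pow_mul, mul_comm, pow_mul]; norm_num
        rw [e4]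
        have h4 : (0 : ℝ) ≤ (D.choose (D / 2) : ℝ) ^ 2 := by positivity
        have h5 : (e : ℝ) + 1 ≤ D + 1 := by
          have : (e : ℝ) ≤ D := by exact_mod_cast hD.le
          linarith
        nlinarith
      have h4 : (0 : ℝ) ≤ 2 ^ e := by positivity
      linarith
    · have h1 : (D.choose (D / 2) : ℝ) ≤ 2 ^ e := by
        have h2 : D.choose (D / 2) ≤ 2 ^ D := Nat.choose_le_two_pow _ _
        have h3 : 2 ^ D ≤ 2 ^ e := Nat.pow_le_pow_right (by norm_num) hD
        exact_mod_cast h2.trans h3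
      linarith
  calc _ ≤ ∑ y ∈ K, (1 / Real.sqrt (e + 1) * (((univ.filter fun x : Ω × (Fin m → Bool) × (Fin m → Bool) =>
        wr x.1 + wp (pt x.2.1 x.2.2) = n).filter fun x => cl x = y).card : ℝ) + 2 ^ e) := by
        refine Finset.sum_le_sum fun y hy => ?_
        have h3 := fw y hy
        have h4 := ft y hy
        have h5 := hpt (mx y.2).card
        have h6 := (Nat.cast_le (α := ℝ)).2 h3
        have h7 := (Nat.cast_le (α := ℝ)).2 h4
        push_cast at h7
        have h8 := mul_le_mul_of_nonneg_left h7 hs0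
        linarith
    _ = 1 / Real.sqrt (e + 1) * ∑ y ∈ K, (((univ.filter fun x : Ω × (Fin m → Bool) × (Fin m → Bool) =>
        wr x.1 + wp (pt x.2.1 x.2.2) = n).filter fun x => cl x = y).card : ℝ) + 2 ^ e * (K.card : ℝ) := by
        rw [Finset.sum_add_distrib, Finset.mul_sum, Finset.sum_const, nsmul_eq_mul]
        ring
    _ ≤ _ := by
        have h4 : (K.card : ℝ) ≤ ρ⁻¹ ^ n * (1 - ρ ^ 5) ^ m := by
          have h5 : (0 : ℝ) < ρ⁻¹ ^ n := by positivity
          have h6 := mul_le_mul_of_nonneg_left hcls h5.le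
          have h7 : ρ⁻¹ ^ n * ((K.card : ℝ) * ρ ^ n) = (K.card : ℝ) := by
            rw [mul_comm, mul_assoc, ← mul_pow, mul_inv_cancel₀ hρ.ne', one_pow, mul_one]
          rw [h7] at h6
          exact h6
        have h5 : (0 : ℝ) ≤ 2 ^ e := by positivity
        have h6 := mul_le_mul_of_nonneg_left h4 h5
        linarith

/-- all words of a given length -/
lemma words_sum {ρ : ℝ} (h : ρ ^ 2 + ρ ^ 3 = 1) (a : ℕ) : ∑ f : Fin a → Bool, ρ ^ (wf f).sum = 1 := by
  have h0 : ∀ f : Fin a → Bool, ρ ^ (wf f).sum = ∏ i, ρ ^ bl (f i) := by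
    intro f
    rw [wf_sum, Finset.prod_pow_eq_pow_sum]
  simp only [h0]
  rw [← Fintype.sum_pow (fun b => ρ ^ bl b) a, Fintype.sum_bool]
  simp only [bl, if_true]
  have : ρ ^ 3 + ρ ^ (if false = true then 3 else 2) = 1 := by
    simp
    linarith
  rw [this, one_pow]

end Run7.h53.TI
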