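import Mathlib
import Pool.Agent.Run7.h53.TI.Abs

/-!
# Words with few occurrences of a three behind a two at given positions (helper53)
-/

set_option autoImplicit false

namespace Run7.h53.TI

open Filter Topology Finset
open Run7.h53.VD (hof hof_finite hof_lower exists_rho hof_one hof_zero hof_two hof_card)

/-- number of the `i < h` such that the letters `2 i` and `2 i + 1` are a two and a three -/
def cnt : ℕ → List ℕ → ℕ
  | 0, _ => 0
  | _ + 1, [] => 0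
  | _ + 1, [_] => 0
  | h + 1, a :: b :: l => (if a = 2 ∧ b = 3 then 1 else 0) + cnt h l

lemma cnt_eq (h : ℕ) (l : List ℕ) :
    cnt h l = ((Finset.range h).filter fun i => l.getD (2 * i) 0 = 2 ∧ l.getD (2 * i + 1) 0 = 3).card := by
  induction h generalizing l with
  | zero => simp [cnt]
  | succ h ih =>
    rw [Finset.card_filter]
    match l with
    | [] =>
      simp [cnt]
    | [a] =>
      symm
      rw [cnt]
      refine Finset.sum_eq_zero fun i _ => ?_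
      rw [if_neg]
      rintro ⟨_, h2⟩
      simp at h2
    | a :: b :: l =>
      rw [cnt, ih, Finset.card_filter, Finset.sum_range_succ']
      have h1 : ∀ i, (a :: b :: l).getD (2 * (i + 1)) 0 = l.getD (2 * i) 0 := by
        intro i
        rw [show 2 * (i + 1) = 2 * i + 1 + 1 by ring]
        simp
      have h2 : ∀ i, (a :: b :: l).getD (2 * (i + 1) + 1) 0 = l.getD (2 * i + 1) 0 := by
        intro i
        rw [show 2 * (i + 1) + 1 = (2 * i + 1) + 1 + 1 by ring]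
        simp
      simp only [h1, h2]
      rw [add_comm]
      simp

lemma sum_cons_fn (ℓ : ℕ) (F : List ℕ → ℝ) :
    ∑ f : Fin (ℓ + 1) → Bool, F (wf f) = ∑ b : Bool, ∑ f : Fin ℓ → Bool, F (bl b :: wf f) := by
  rw [← Fintype.sum_prod_type' (fun (b : Bool) (f : Fin ℓ → Bool) => F (bl b :: wf f))]
  refine (Fintype.sum_equiv (Fin.consEquiv fun _ => Bool) _ _ fun x => ?_).symm
  obtain ⟨b, f⟩ := x
  congr 1
  unfold wf
  rw [List.ofFn_succ]
  rfl

lemma gsum {ρ : ℝ} (hr : ρ ^ 2 + ρ ^ 3 = 1) (h : ℕ) : ∀ ℓ : ℕ, 2 * h ≤ ℓ →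
    ∑ f : Fin ℓ → Bool, ρ ^ (wf f).sum * (1 / 2 : ℝ) ^ cnt h (wf f) = (1 - ρ ^ 5 / 2) ^ h := by
  induction h with
  | zero =>
    intro ℓ _
    simp only [cnt, pow_zero, mul_one]
    exact words_sum hr ℓ
  | succ h ih =>
    intro ℓ hℓ
    obtain ⟨t, rfl⟩ : ∃ t, ℓ = t + 1 + 1 := ⟨ℓ - 2, by omega⟩
    have h1 := ih t (by omega)
    rw [sum_cons_fn (t + 1) (fun l => ρ ^ l.sum * (1 / 2 : ℝ) ^ cnt (h + 1) l)]
    have h2 : ∀ b : Bool, ∑ f : Fin (t + 1) → Bool,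
        ρ ^ (bl b :: wf f).sum * (1 / 2 : ℝ) ^ cnt (h + 1) (bl b :: wf f) =
        ∑ c : Bool, ∑ f : Fin t → Bool,
          ρ ^ (bl b :: bl c :: wf f).sum * (1 / 2 : ℝ) ^ cnt (h + 1) (bl b :: bl c :: wf f) := fun b =>
      sum_cons_fn t (fun l => ρ ^ (bl b :: l).sum * (1 / 2 : ℝ) ^ cnt (h + 1) (bl b :: l))
    simp only [h2]
    have h3 : ∀ b c : Bool, ∑ f : Fin t → Bool,
        ρ ^ (bl b :: bl c :: wf f).sum * (1 / 2 : ℝ) ^ cnt (h + 1) (bl b :: bl c :: wf f) =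
        ρ ^ (bl b + bl c) * (1 / 2 : ℝ) ^ (if bl b = 2 ∧ bl c = 3 then 1 else 0) * (1 - ρ ^ 5 / 2) ^ h := by
      intro b c
      rw [← h1, Finset.mul_sum]
      refine Finset.sum_congr rfl fun f _ => ?_
      rw [cnt, List.sum_cons, List.sum_cons, pow_add, pow_add, pow_add, pow_add]
      ring
    simp only [h3]
    rw [Fintype.sum_bool, Fintype.sum_bool, Fintype.sum_bool]
    simp only [bl]
    norm_num
    rw [pow_succ]
    have h4 : (ρ ^ 2 + ρ ^ 3) ^ 2 = 1 := by rw [hr]; norm_num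
    have h5 : ρ ^ 6 + ρ ^ 5 + (ρ ^ 5 * 2⁻¹ + ρ ^ 4) = 1 - ρ ^ 5 / 2 := by linear_combination h4
    linear_combination (1 - ρ ^ 5 / 2) ^ h * h5

lemma gsum' {ρ : ℝ} (hr : ρ ^ 2 + ρ ^ 3 = 1) (h ℓ : ℕ) (hℓ : 2 * h ≤ ℓ) (p : ℕ) :
    ∑ f : Fin (ℓ + p) → Bool, ρ ^ (wf f).sum * (1 / 2 : ℝ) ^ cnt h ((wf f).drop p) = (1 - ρ ^ 5 / 2) ^ h := by
  induction p with
  | zero =>
    simp only [List.drop_zero]
    exact gsum hr h ℓ hℓ
  | succ p ih =>
    have h1 := sum_cons_fn (ℓ + p) (fun l => ρ ^ l.sum * (1 / 2 : ℝ) ^ cnt h (l.drop (p + 1)))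
    have e : ℓ + (p + 1) = ℓ + p + 1 := by ring
    rw [show (∑ f : Fin (ℓ + (p + 1)) → Bool, ρ ^ (wf f).sum * (1 / 2 : ℝ) ^ cnt h ((wf f).drop (p + 1))) = _
      from h1]
    have h2 : ∀ b : Bool, ∑ f : Fin (ℓ + p) → Bool,
        ρ ^ (bl b :: wf f).sum * (1 / 2 : ℝ) ^ cnt h ((bl b :: wf f).drop (p + 1)) =
        ρ ^ bl b * (1 - ρ ^ 5 / 2) ^ h := by
      intro b
      rw [← ih, Finset.mul_sum]
      refine Finset.sum_congr rfl fun f _ => ?_
      rw [List.sum_cons, pow_add, List.drop_succ_cons]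
      ring
    simp only [h2]
    rw [Fintype.sum_bool]
    simp only [bl]
    norm_num
    linear_combination (1 - ρ ^ 5 / 2) ^ h * hr

/-- **few occurrences** -/
theorem few {ρ : ℝ} (hρ : 0 < ρ) (hr : ρ ^ 2 + ρ ^ 3 = 1) (h ℓ p n g : ℕ) (hℓ : 2 * h ≤ ℓ) :
    (((hw n).filter fun w => w.length = ℓ + p ∧ cnt h (w.drop p) ≤ g).card : ℝ) ≤
      2 ^ g * (ρ⁻¹ ^ n * (1 - ρ ^ 5 / 2) ^ h) := by
  classical
  set A := (hw n).filter fun w => w.length = ℓ + p ∧ cnt h (w.drop p) ≤ g with hA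
  have h1 : A.card ≤ ((univ : Finset (Fin (ℓ + p) → Bool)).filter fun f => wf f ∈ A).card := by
    have : A ⊆ ((univ : Finset (Fin (ℓ + p) → Bool)).filter fun f => wf f ∈ A).image wf := by
      intro w hw'
      obtain ⟨h2, h3, _⟩ := Finset.mem_filter.1 hw'
      obtain ⟨f, hf⟩ := wf_ex w (mem_hw.1 h2).1 h3
      rw [Finset.mem_image]
      exact ⟨f, Finset.mem_filter.2 ⟨Finset.mem_univ _, by rw [hf]; exact hw'⟩, hf⟩
    exact (Finset.card_le_card this).trans Finset.card_image_le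
  have h2 : ((((univ : Finset (Fin (ℓ + p) → Bool)).filter fun f => wf f ∈ A).card : ℕ) : ℝ) *
      (ρ ^ n * (1 / 2) ^ g) ≤ (1 - ρ ^ 5 / 2) ^ h := by
    rw [← gsum' hr h ℓ hℓ p, ← nsmul_eq_mul, ← Finset.sum_const]
    refine (Finset.sum_le_sum fun f hf => ?_).trans
      (Finset.sum_le_sum_of_subset_of_nonneg (Finset.subset_univ _) fun f _ _ => by positivity)
    obtain ⟨h3, _, h4⟩ := Finset.mem_filter.1 (Finset.mem_filter.1 hf).2
    rw [(mem_hw.1 h3).2]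
    refine mul_le_mul_of_nonneg_left ?_ (by positivity)
    exact pow_le_pow_of_le_one (by norm_num) (by norm_num) h4
  have h3 : (A.card : ℝ) ≤ ((((univ : Finset (Fin (ℓ + p) → Bool)).filter fun f => wf f ∈ A).card : ℕ) : ℝ) := by
    exact_mod_cast h1
  have h4 : 0 < ρ ^ n * (1 / 2 : ℝ) ^ g := by positivity
  have h5 : (A.card : ℝ) * (ρ ^ n * (1 / 2) ^ g) ≤ (1 - ρ ^ 5 / 2) ^ h :=
    (mul_le_mul_of_nonneg_right h3 h4.le).trans h2
  have h6 : 2 ^ g * (ρ⁻¹ ^ n * (1 - ρ ^ 5 / 2) ^ h) = (1 - ρ ^ 5 / 2) ^ h / (ρ ^ n * (1 / 2) ^ g) := by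
    rw [inv_pow, one_div, inv_pow]
    field_simp
  rw [h6, le_div_iff₀ h4]
  exact h5

end Run7.h53.TI
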