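import Mathlib
import Pool.Agent.Run7.h53.TI.Flip

/-!
# Moving one letter (helper53)
-/

set_option autoImplicit false

namespace Run7.h53.TI

open Filter Topology Finset
open Pool.Agent.H447R2.MZ (H H_nil H_cons H_cons_zero H_cons_succ H_nonneg Adm val tendsto_H H_le_val H_mono)
open Run7.h53.VD (T T_zero T_nil T_step T_nonneg T_le T_tendsto adm_append_left)
open Run7.h53.SX (hasSum_split H_small H_pos)
open Run7.h53.FW (T_ratio T_anti T_pos adm_of_two)

lemma two_app {p q : List ℕ} {a : ℕ} (hp : ∀ x ∈ p, 2 ≤ x) (ha : 2 ≤ a) (hq : ∀ x ∈ q, 2 ≤ x) :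
    ∀ x ∈ p ++ a :: q, 2 ≤ x := by
  intro x hx
  rcases List.mem_append.1 hx with hx | hx
  · exact hp x hx
  · rcases List.mem_cons.1 hx with rfl | hx
    · exact ha
    · exact hq x hx

/-- **adjacent letters** -/
theorem swap_lt {P S : List ℕ} (hP : ∀ x ∈ P, 2 ≤ x) (hS : ∀ x ∈ S, 2 ≤ x) :
    val (P ++ 3 :: 2 :: S) < val (P ++ 2 :: 3 :: S) := by
  have a3 : Adm ((P ++ 3 :: []) ++ 2 :: S) :=
    adm_of_two (two_app (two_app hP (by norm_num) (by simp)) le_rfl hS)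
  have a2 : Adm ((P ++ 2 :: []) ++ 3 :: S) :=
    adm_of_two (two_app (two_app hP le_rfl (by simp)) (by norm_num) hS)
  have h3 := hasSum_split a3
  have h2 := hasSum_split a2
  have hP3 : ∀ x ∈ P ++ 3 :: [], 2 ≤ x := two_app hP (by norm_num) (by simp)
  have e3 : P ++ 3 :: 2 :: S = (P ++ 3 :: []) ++ 2 :: S := by simp
  have e2 : P ++ 2 :: 3 :: S = (P ++ 2 :: []) ++ 3 :: S := by simp
  rw [e3, e2]
  have key : ∀ n : ℕ, H S n * (((n + 1 : ℕ) : ℝ) ^ 2)⁻¹ * T (P ++ 3 :: []) (n + 1) +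
      H S n * (((n + 1 : ℕ) : ℝ) ^ 3)⁻¹ * T (P ++ 3 :: []) (n + 1) ≤
      H S n * (((n + 1 : ℕ) : ℝ) ^ 3)⁻¹ * T (P ++ 2 :: []) (n + 1) := by
    intro n
    have h4 := T_front P [] hP (by simp) (n + 1)
    have h5 : 0 ≤ H S n * (((n + 1 : ℕ) : ℝ) ^ 3)⁻¹ := mul_nonneg (H_nonneg _ _) (by positivity)
    have h6 := mul_le_mul_of_nonneg_left h4 h5
    refine le_trans (le_of_eq ?_) h6
    simp only [List.length_nil]
    push_cast
    field_simp
    ring
  refine hasSum_lt (i := S.length) (fun n => ?_) ?_ h3 h2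
  · have h4 := key n
    have h5 : 0 ≤ H S n * (((n + 1 : ℕ) : ℝ) ^ 3)⁻¹ * T (P ++ 3 :: []) (n + 1) :=
      mul_nonneg (mul_nonneg (H_nonneg _ _) (by positivity)) (T_nonneg (adm_of_two hP3) _)
    linarith
  · have h4 := key S.length
    have h5 : 0 < H S S.length * (((S.length + 1 : ℕ) : ℝ) ^ 3)⁻¹ * T (P ++ 3 :: []) (S.length + 1) :=
      mul_pos (mul_pos (H_pos S le_rfl) (by positivity)) (T_pos (adm_of_two hP3) _)
    linarith

/-- moving a three backwards -/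
theorem move_three (b : List ℕ) (hb : ∀ x ∈ b, x = 2 ∨ x = 3) : ∀ (a c : List ℕ), (∀ x ∈ a, 2 ≤ x) →
    (∀ x ∈ c, 2 ≤ x) → val (a ++ 3 :: (b ++ c)) ≤ val (a ++ b ++ 3 :: c) ∧
      (2 ∈ b → val (a ++ 3 :: (b ++ c)) < val (a ++ b ++ 3 :: c)) := by
  induction b with
  | nil =>
    intro a c _ _
    simp
  | cons x b ih =>
    intro a c ha hc
    have hb' : ∀ y ∈ b, y = 2 ∨ y = 3 := fun y hy => hb y (List.mem_cons_of_mem _ hy)
    have hbc : ∀ y ∈ b ++ c, 2 ≤ y := by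
      intro y hy
      rcases List.mem_append.1 hy with hy | hy
      · rcases hb' y hy with rfl | rfl <;> norm_num
      · exact hc y hy
    rcases hb x List.mem_cons_self with rfl | rfl
    · have h1 := (ih hb' (a ++ [2]) c (two_app ha le_rfl (by simp)) hc).1
      have h2 := swap_lt (P := a) (S := b ++ c) ha hbc
      have e1 : a ++ [2] ++ 3 :: (b ++ c) = a ++ 2 :: 3 :: (b ++ c) := by simp
      have e2 : a ++ [2] ++ b ++ 3 :: c = a ++ (2 :: b) ++ 3 :: c := by simp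
      have e3 : a ++ 3 :: (2 :: b ++ c) = a ++ 3 :: 2 :: (b ++ c) := by simp
      rw [e1, e2] at h1
      rw [e3]
      have h3 := h2.trans_le h1
      exact ⟨h3.le, fun _ => h3⟩
    · obtain ⟨h1, h2⟩ := ih hb' (a ++ [3]) c (two_app ha (by norm_num) (by simp)) hc
      have e1 : a ++ [3] ++ 3 :: (b ++ c) = a ++ 3 :: (3 :: b ++ c) := by simp
      have e2 : a ++ [3] ++ b ++ 3 :: c = a ++ (3 :: b) ++ 3 :: c := by simp
      rw [e1, e2] at h1 h2
      refine ⟨h1, fun h => h2 ?_⟩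
      rcases List.mem_cons.1 h with h | h
      · omega
      · exact h

/-- moving a two to the front -/
theorem move_two (b : List ℕ) (hb : ∀ x ∈ b, x = 2 ∨ x = 3) : ∀ (a c : List ℕ), (∀ x ∈ a, 2 ≤ x) →
    (∀ x ∈ c, 2 ≤ x) → val (a ++ b ++ 2 :: c) ≤ val (a ++ 2 :: (b ++ c)) := by
  induction b with
  | nil =>
    intro a c _ _
    simp
  | cons x b ih =>
    intro a c ha hc
    have hb' : ∀ y ∈ b, y = 2 ∨ y = 3 := fun y hy => hb y (List.mem_cons_of_mem _ hy)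
    have hbc : ∀ y ∈ b ++ c, 2 ≤ y := by
      intro y hy
      rcases List.mem_append.1 hy with hy | hy
      · rcases hb' y hy with rfl | rfl <;> norm_num
      · exact hc y hy
    have e2 : a ++ (x :: b) ++ 2 :: c = a ++ [x] ++ b ++ 2 :: c := by simp
    have e1 : a ++ [x] ++ 2 :: (b ++ c) = a ++ x :: 2 :: (b ++ c) := by simp
    have hx : 2 ≤ x := by rcases hb x List.mem_cons_self with rfl | rfl <;> norm_num
    have h1 := ih hb' (a ++ [x]) c (two_app ha hx (by simp)) hc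
    rw [e2]
    refine h1.trans ?_
    rw [e1]
    rcases hb x List.mem_cons_self with rfl | rfl
    · exact le_of_eq (by simp)
    · refine (swap_lt (P := a) (S := b ++ c) ha hbc).le.trans (le_of_eq (by simp))

/-- a three instead of a two -/
lemma three_two {a c : List ℕ} (ha : ∀ x ∈ a, 2 ≤ x) (hc : ∀ x ∈ c, 2 ≤ x) :
    ((c.length : ℝ) + 1) * val (a ++ 3 :: c) ≤ val (a ++ 2 :: c) := by
  have h3 := hasSum_split (adm_of_two (two_app ha (by norm_num : 2 ≤ 3) hc))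
  have h2 := hasSum_split (adm_of_two (two_app ha le_rfl hc))
  refine hasSum_le (fun n => ?_) (h3.mul_left ((c.length : ℝ) + 1)) h2
  have hT : 0 ≤ T a (n + 1) := T_nonneg (adm_of_two ha) _
  rcases Nat.lt_or_ge n c.length with hn | hn
  · rw [H_small c n hn]
    simp
  · have h4 : (c.length : ℝ) + 1 ≤ ((n + 1 : ℕ) : ℝ) := by
      have : (c.length : ℝ) ≤ n := by exact_mod_cast hn
      push_cast
      linarith
    have e : H c n * (((n + 1 : ℕ) : ℝ) ^ 2)⁻¹ * T a (n + 1) =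
        ((n + 1 : ℕ) : ℝ) * (H c n * (((n + 1 : ℕ) : ℝ) ^ 3)⁻¹ * T a (n + 1)) := by
      field_simp
    rw [e]
    exact mul_le_mul_of_nonneg_right h4 (mul_nonneg (mul_nonneg (H_nonneg _ _) (by positivity)) hT)

/-- first moment -/
lemma moment {W : ℕ → ℝ} {m : ℕ} (hm : 3 ≤ m) (h0 : ∀ n, 0 ≤ W n) {V B : ℝ} (hV : HasSum W V)
    (h : ∀ n : ℕ, 4 * m ≤ n + 1 → W (n + 1) * ((n : ℝ) + 2 + 5 / 4 * m) ≤ ((n : ℝ) + 1) * W n)
    (hB : HasSum (fun n : ℕ => ((n : ℝ) + 1) * W n) B) : B ≤ 128 / 3 * (m : ℝ) * V := by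
  obtain ⟨M, hM⟩ : ∃ M, 4 * m = M + 1 := ⟨4 * m - 1, by omega⟩
  have hMR : 4 * (m : ℝ) = M + 1 := by exact_mod_cast hM
  have hmR : (3 : ℝ) ≤ m := by exact_mod_cast hm
  have h1 : ∀ N, 5 / 12 * (m : ℝ) * ∑ k ∈ Finset.range N, ((M : ℝ) + 1 + k + 1) * W (M + 1 + k) ≤
      ((M : ℝ) + 1) ^ 2 * W M - ((M : ℝ) + N + 1) ^ 2 * W (M + N) := by
    intro N
    induction N with
    | zero => simp
    | succ N ih =>
      rw [Finset.sum_range_succ, mul_add]
      have h2 := h (M + N) (by omega)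
      have e : M + 1 + N = M + N + 1 := by ring
      have e' : M + (N + 1) = M + N + 1 := by ring
      rw [e, e']
      have hW := h0 (M + N + 1)
      push_cast at h2 ⊢
      set y : ℝ := (M : ℝ) + N + 1 with hy
      have hy4 : 4 * (m : ℝ) ≤ y := by
        rw [hMR, hy]
        have : (0 : ℝ) ≤ N := Nat.cast_nonneg N
        linarith
      have h3 := mul_le_mul_of_nonneg_left h2 (show 0 ≤ y by linarith)
      have e1 : (M : ℝ) + 1 + N + 1 = y + 1 := by rw [hy]; ring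
      have e2 : (M : ℝ) + (N + 1) + 1 = y + 1 := by rw [hy]; ring
      have e3 : (M : ℝ) + N + 2 + 5 / 4 * m = y + 1 + 5 / 4 * m := by rw [hy]; ring
      rw [e1, e2]
      rw [e3] at h3
      -- the polynomial inequality
      have h4 : 5 / 12 * (m : ℝ) * (y + 1) + (y + 1) ^ 2 ≤ y * (y + 1 + 5 / 4 * m) := by nlinarith
      have h5 := mul_le_mul_of_nonneg_right h4 hW
      nlinarith
  have hS := hV.summable
  have hS2 := hB.summable
  have h2 : 5 / 12 * (m : ℝ) * ∑' k, (((k + (M + 1) : ℕ) : ℝ) + 1) * W (k + (M + 1)) ≤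
      ((M : ℝ) + 1) ^ 2 * W M := by
    have hs : Summable fun k : ℕ => (((k + (M + 1) : ℕ) : ℝ) + 1) * W (k + (M + 1)) :=
      (summable_nat_add_iff (f := fun n : ℕ => ((n : ℝ) + 1) * W n) (M + 1)).2 hS2
    have h3 := hs.hasSum.tendsto_sum_nat.const_mul (5 / 12 * (m : ℝ))
    refine le_of_tendsto' h3 fun N => ?_
    have h4 := h1 N
    have h5 : 0 ≤ ((M : ℝ) + N + 1) ^ 2 * W (M + N) := mul_nonneg (by positivity) (h0 _)
    have e : ∑ i ∈ Finset.range N, (((i + (M + 1) : ℕ) : ℝ) + 1) * W (i + (M + 1)) =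
        ∑ k ∈ Finset.range N, ((M : ℝ) + 1 + k + 1) * W (M + 1 + k) :=
      Finset.sum_congr rfl fun k _ => by
        rw [add_comm k (M + 1)]
        push_cast
        ring
    rw [e]
    linarith
  have h3 : B = ∑ k ∈ Finset.range (M + 1), ((k : ℝ) + 1) * W k +
      ∑' k, (((k + (M + 1) : ℕ) : ℝ) + 1) * W (k + (M + 1)) := by
    rw [hS2.sum_add_tsum_nat_add (M + 1)]
    exact hB.tsum_eq.symm
  have h4 : ∑ k ∈ Finset.range (M + 1), ((k : ℝ) + 1) * W k ≤ 4 * (m : ℝ) * V := by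
    have h5 : ∑ k ∈ Finset.range (M + 1), W k ≤ V := sum_le_hasSum _ (fun n _ => h0 n) hV
    have h6 : ∑ k ∈ Finset.range (M + 1), ((k : ℝ) + 1) * W k ≤ 4 * (m : ℝ) * ∑ k ∈ Finset.range (M + 1), W k := by
      rw [Finset.mul_sum]
      refine Finset.sum_le_sum fun k hk => ?_
      have hk' : k < M + 1 := Finset.mem_range.1 hk
      have hk2 : (k : ℝ) + 1 ≤ 4 * m := by
        rw [hMR]
        exact_mod_cast hk'
      exact mul_le_mul_of_nonneg_right hk2 (h0 k)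
    exact h6.trans (mul_le_mul_of_nonneg_left h5 (by positivity))
  have h5 : W M ≤ V := le_hasSum hV M fun n _ => h0 n
  have h6 : ∑' k, (((k + (M + 1) : ℕ) : ℝ) + 1) * W (k + (M + 1)) ≤ 192 / 5 * (m : ℝ) * W M := by
    rw [← hMR] at h2
    have h7 : (m : ℝ) * (∑' k, (((k + (M + 1) : ℕ) : ℝ) + 1) * W (k + (M + 1))) ≤
        (m : ℝ) * (192 / 5 * (m : ℝ) * W M) := by nlinarith
    exact le_of_mul_le_mul_left h7 (by linarith)
  have h7 : 192 / 5 * (m : ℝ) * W M ≤ 192 / 5 * (m : ℝ) * V := mul_le_mul_of_nonneg_left h5 (by positivity)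
  have hV0 : 0 ≤ V := hV.nonneg h0
  have h8 : 0 ≤ (m : ℝ) * V := by positivity
  rw [h3]
  nlinarith

/-- a two instead of a three -/
theorem two_three {a s : List ℕ} {m : ℕ} (hm : 1 ≤ m) (ha : ∀ x ∈ a, 2 ≤ x) (hs : ∀ x ∈ s, 2 ≤ x)
    (hls : s.length ≤ 3 * m) (hla : 9 * m ≤ a.length) : val (a ++ 2 :: s) ≤ 128 * (m : ℝ) * val (a ++ 3 :: s) := by
  have h3 := hasSum_split (adm_of_two (two_app ha (by norm_num : 2 ≤ 3) hs))
  have h2 := hasSum_split (adm_of_two (two_app ha le_rfl hs))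
  set W : ℕ → ℝ := fun n => H s n * (((n + 1 : ℕ) : ℝ) ^ 3)⁻¹ * T a (n + 1) with hW
  have hW0 : ∀ n, 0 ≤ W n := fun n =>
    mul_nonneg (mul_nonneg (H_nonneg _ _) (by positivity)) (T_nonneg (adm_of_two ha) _)
  have h4 : HasSum (fun n : ℕ => ((n : ℝ) + 1) * W n) (val (a ++ 2 :: s)) := by
    refine h2.congr_fun ?_ |> id
    intro n
    simp only [hW]
    push_cast
    field_simp
  have h5 := moment (m := 3 * m) (by omega) hW0 h3 (fun n hn => ?_) h4
  · refine h5.trans (le_of_eq ?_)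
    push_cast
    ring
  · have h2 := T_ratio a ha (n + 1)
    have h3 := H_ratio s n
    have hT1 : 0 ≤ T a (n + 1) := T_nonneg (adm_of_two ha) _
    have hT2 : 0 ≤ T a (n + 1 + 1) := T_nonneg (adm_of_two ha) _
    have hH1 : 0 ≤ H s n := H_nonneg _ _
    have hH2 : 0 ≤ H s (n + 1) := H_nonneg _ _
    have hs : (s.length : ℝ) ≤ ((3 * m : ℕ) : ℝ) := by exact_mod_cast hls
    have hu : 3 * ((3 * m : ℕ) : ℝ) ≤ a.length := by
      have : 3 * (3 * m) ≤ a.length := by omega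
      exact_mod_cast this
    have hx : 4 * ((3 * m : ℕ) : ℝ) ≤ (n : ℝ) + 1 := by exact_mod_cast hn
    have hμ1 : (1 : ℝ) ≤ ((3 * m : ℕ) : ℝ) := by exact_mod_cast (by omega : 1 ≤ 3 * m)
    set μ : ℝ := ((3 * m : ℕ) : ℝ) with hμ
    set x : ℝ := (n : ℝ) + 1 with hxdef
    have hx0 : 0 < x := by rw [hxdef]; positivity
    have h4 : (x + 1 + 3 * μ) * T a (n + 1 + 1) ≤ (x + 1) * T a (n + 1) := by
      push_cast at h2
      have : (x + 1 + 3 * μ) * T a (n + 1 + 1) ≤ ((n : ℝ) + 1 + 1 + a.length) * T a (n + 1 + 1) := by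
        refine mul_le_mul_of_nonneg_right ?_ hT2
        rw [hxdef]
        linarith
      refine this.trans (h2.trans (le_of_eq ?_))
      rw [hxdef]
    have h5 : (x - μ) * H s (n + 1) ≤ x * H s n := by
      refine le_trans (mul_le_mul_of_nonneg_right ?_ hH2) h3
      rw [hxdef]
      linarith
    have hxm : 0 ≤ x - μ := by linarith
    have h6 : (x + 1 + 3 * μ) * T a (n + 1 + 1) * ((x - μ) * H s (n + 1)) ≤
        (x + 1) * T a (n + 1) * (x * H s n) :=
      mul_le_mul h4 h5 (mul_nonneg hxm hH2) (by positivity)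
    have hpoly : x ^ 2 * (x + 1 + 5 / 4 * μ) ≤ (x + 1 + 3 * μ) * (x - μ) * (x + 1) := by
      have e : (x + 1 + 3 * μ) * (x - μ) * (x + 1) - x ^ 2 * (x + 1 + 5 / 4 * μ) =
        (3 / 4 * μ * x) * (x - 4 * μ) + (x ^ 2 + (1 + μ) * x - μ - 3 * μ ^ 2) := by ring
      have e2 : 0 ≤ (3 / 4 * μ * x) * (x - 4 * μ) := mul_nonneg (by positivity) (by linarith)
      have e3 : 0 ≤ x ^ 2 + (1 + μ) * x - μ - 3 * μ ^ 2 := by nlinarith
      linarith
    have e1 : W (n + 1) = H s (n + 1) * ((x + 1) ^ 3)⁻¹ * T a (n + 1 + 1) := by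
      simp only [hW, hxdef]
      push_cast
      ring_nf
    have e2 : W n = H s n * (x ^ 3)⁻¹ * T a (n + 1) := by
      simp only [hW, hxdef]
      push_cast
      ring_nf
    rw [e1, e2]
    have hx1 : 0 < x + 1 := by linarith
    have h7 : x ^ 2 * (x + 1 + 5 / 4 * μ) * (H s (n + 1) * T a (n + 1 + 1)) ≤
        (x + 1) ^ 2 * x * (H s n * T a (n + 1)) := by
      calc x ^ 2 * (x + 1 + 5 / 4 * μ) * (H s (n + 1) * T a (n + 1 + 1)) ≤
            (x + 1 + 3 * μ) * (x - μ) * (x + 1) * (H s (n + 1) * T a (n + 1 + 1)) :=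
            mul_le_mul_of_nonneg_right hpoly (mul_nonneg hH2 hT2)
        _ = (x + 1) * ((x + 1 + 3 * μ) * T a (n + 1 + 1) * ((x - μ) * H s (n + 1))) := by ring
        _ ≤ (x + 1) * ((x + 1) * T a (n + 1) * (x * H s n)) := mul_le_mul_of_nonneg_left h6 hx1.le
        _ = _ := by ring
    have h10 : x ^ 3 * (x + 1 + 5 / 4 * μ) * (H s (n + 1) * T a (n + 1 + 1)) ≤
        (x + 1) ^ 3 * x * (H s n * T a (n + 1)) := by
      have h11 : (x + 1) ^ 2 * x * (H s n * T a (n + 1)) * x ≤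
          (x + 1) ^ 2 * x * (H s n * T a (n + 1)) * (x + 1) :=
        mul_le_mul_of_nonneg_left (by linarith) (by positivity)
      have h12 := mul_le_mul_of_nonneg_right h7 hx0.le
      calc _ = x ^ 2 * (x + 1 + 5 / 4 * μ) * (H s (n + 1) * T a (n + 1 + 1)) * x := by ring
        _ ≤ (x + 1) ^ 2 * x * (H s n * T a (n + 1)) * x := h12
        _ ≤ (x + 1) ^ 2 * x * (H s n * T a (n + 1)) * (x + 1) := h11
        _ = _ := by ring
    have hn2 : ((n : ℝ) + 2 + 5 / 4 * μ) = x + 1 + 5 / 4 * μ := by rw [hxdef]; ring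
    rw [hn2]
    have h8 : H s (n + 1) * ((x + 1) ^ 3)⁻¹ * T a (n + 1 + 1) * (x + 1 + 5 / 4 * μ) =
        (x ^ 3 * (x + 1 + 5 / 4 * μ) * (H s (n + 1) * T a (n + 1 + 1))) * ((x ^ 3)⁻¹ * ((x + 1) ^ 3)⁻¹) := by
      field_simp
    have h9 : x * (H s n * (x ^ 3)⁻¹ * T a (n + 1)) =
        ((x + 1) ^ 3 * x * (H s n * T a (n + 1))) * ((x ^ 3)⁻¹ * ((x + 1) ^ 3)⁻¹) := by
      field_simp
    rw [h8, h9]
    exact mul_le_mul_of_nonneg_right h10 (by positivity)

/-- **moving a three changes the value by a bounded factor** -/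
theorem move_bdd {a b c : List ℕ} {m : ℕ} (hm : 1 ≤ m) (ha : ∀ x ∈ a, 2 ≤ x) (hb : ∀ x ∈ b, x = 2 ∨ x = 3)
    (hc : ∀ x ∈ c, 2 ≤ x) (hla : 9 * m ≤ a.length) (hlc : m ≤ c.length) (hlbc : b.length + c.length ≤ 3 * m) :
    val (a ++ b ++ 3 :: c) ≤ 128 * val (a ++ 3 :: (b ++ c)) := by
  have hbc : ∀ y ∈ b ++ c, 2 ≤ y := by
    intro y hy
    rcases List.mem_append.1 hy with hy | hy
    · rcases hb y hy with rfl | rfl <;> norm_num
    · exact hc y hy
  have hab : ∀ y ∈ a ++ b, 2 ≤ y := by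
    intro y hy
    rcases List.mem_append.1 hy with hy | hy
    · exact ha y hy
    · rcases hb y hy with rfl | rfl <;> norm_num
  have h1 := three_two hab hc
  have h2 := move_two b hb a c ha hc
  have h3 := two_three (s := b ++ c) hm ha hbc (by rw [List.length_append]; exact hlbc) hla
  have hmR : (1 : ℝ) ≤ m := by exact_mod_cast hm
  have hc1 : (m : ℝ) ≤ (c.length : ℝ) + 1 := by
    have : (m : ℝ) ≤ c.length := by exact_mod_cast hlc
    linarith
  have hv : 0 ≤ val (a ++ b ++ 3 :: c) :=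
    (H_nonneg _ 0).trans (H_le_val _ (adm_of_two (two_app hab (by norm_num : 2 ≤ 3) hc)) 0)
  have h4 : (m : ℝ) * val (a ++ b ++ 3 :: c) ≤ (m : ℝ) * (128 * val (a ++ 3 :: (b ++ c))) := by
    calc (m : ℝ) * val (a ++ b ++ 3 :: c) ≤ ((c.length : ℝ) + 1) * val (a ++ b ++ 3 :: c) :=
          mul_le_mul_of_nonneg_right hc1 hv
      _ ≤ 128 * (m : ℝ) * val (a ++ 3 :: (b ++ c)) := h1.trans (h2.trans h3)
      _ = _ := by ring
  exact le_of_mul_le_mul_left h4 (by linarith)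

end Run7.h53.TI
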