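import Mathlib
import Pool.Agent.Run7.h53.TI.Few
import Pool.Agent.Run7.h53.TI.Move
import Pool.Agent.Run7.h53.TI.Main

/-!
# One value is taken by few words (helper53)
-/

set_option autoImplicit false

namespace Run7.h53.TI

open Filter Topology Finset
open Pool.Agent.H447R2.MZ (H H_nil H_cons H_cons_zero H_cons_succ H_nonneg Adm val tendsto_H H_le_val H_mono)
open Run7.h53.VD (hof hof_finite hof_lower exists_rho hof_one hof_zero hof_two hof_card)
open Run7.h53.FW (adm_of_two)

/-- the blocks outside of the pairs -/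
abbrev Om (m r : ℕ) : Type := (Fin (3 * m + r) → Bool) × (Fin (5 * m) → Bool) × (Fin (2 * m - 1) → Bool)

/-- their weight -/
def wr {m r : ℕ} (x : Om m r) : ℕ := (wf x.1).sum + (wf x.2.1).sum + (wf x.2.2).sum

/-- front part -/
def fr {m r : ℕ} (x : Om m r) (L S : Fin m → Bool) : List ℕ := wf x.1 ++ wf L ++ wf x.2.1 ++ wf S

lemma fr_length {m r : ℕ} (x : Om m r) (L S : Fin m → Bool) : (fr x L S).length = 10 * m + r := by
  unfold fr
  simp only [List.length_append, wf_length]
  ring

/-- the value with a three inserted in front of the last block -/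
noncomputable def fz {m r : ℕ} (x : Om m r) (L S : Fin m → Bool) : ℝ := val (fr x L S ++ 3 :: wf x.2.2)

lemma fr_two {m r : ℕ} (x : Om m r) (L S : Fin m → Bool) : ∀ y ∈ fr x L S, y = 2 ∨ y = 3 := by
  intro y hy
  unfold fr at hy
  rcases List.mem_append.1 hy with hy | hy
  · rcases List.mem_append.1 hy with hy | hy
    · rcases List.mem_append.1 hy with hy | hy
      · exact wf_or _ _ hy
      · exact wf_or _ _ hy
    · exact wf_or _ _ hy
  · exact wf_or _ _ hy

lemma two_of_or {l : List ℕ} (h : ∀ x ∈ l, x = 2 ∨ x = 3) : ∀ x ∈ l, 2 ≤ x := by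
  intro x hx
  rcases h x hx with rfl | rfl <;> norm_num

lemma fz_pos {m r : ℕ} (x : Om m r) (L S : Fin m → Bool) : 0 < fz x L S :=
  val_pos (adm_of_two (two_app (two_of_or (fr_two x L S)) (by norm_num) (wf_two _)))

lemma wr_sum {m r : ℕ} {ρ : ℝ} (hr : ρ ^ 2 + ρ ^ 3 = 1) : ∑ x : Om m r, ρ ^ wr x = 1 := by
  rw [Fintype.sum_prod_type]
  have h1 : ∀ R : Fin (3 * m + r) → Bool, ∑ y : (Fin (5 * m) → Bool) × (Fin (2 * m - 1) → Bool),
      ρ ^ wr ((R, y) : Om m r) = ρ ^ (wf R).sum := by
    intro R
    rw [Fintype.sum_prod_type]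
    have h2 : ∀ M : Fin (5 * m) → Bool, ∑ V : Fin (2 * m - 1) → Bool, ρ ^ wr ((R, M, V) : Om m r) =
        ρ ^ (wf R).sum * ρ ^ (wf M).sum := by
      intro M
      have h3 : ∀ V : Fin (2 * m - 1) → Bool, ρ ^ wr ((R, M, V) : Om m r) =
          ρ ^ (wf R).sum * ρ ^ (wf M).sum * ρ ^ (wf V).sum := by
        intro V
        unfold wr
        rw [pow_add, pow_add]
      simp only [h3]
      rw [← Finset.mul_sum, words_sum hr, mul_one]
    simp only [h2]
    rw [← Finset.mul_sum, words_sum hr, mul_one]
  simp only [h1]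
  exact words_sum hr _

lemma fz_flip {m r : ℕ} (x : Om m r) (L S : Fin m → Bool) (i : Fin m) (hL : L i = true) (hS : S i = false) :
    (1 + 5 / 42) * fz x L S ≤ fz x (Function.update L i false) (Function.update S i true) := by
  have key : ∀ (f : Fin m → Bool) (b : Bool), wf (Function.update f i b) =
      (wf f).take i ++ bl b :: (wf f).drop (i + 1) := by
    intro f b
    unfold wf
    rw [← ofFn_update]
    congr 1
    funext j
    by_cases hj : j = i
    · subst hj; simp
    · rw [Function.update_of_ne hj, Function.update_of_ne hj]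
  have eL : wf L = (wf L).take i ++ 3 :: (wf L).drop (i + 1) := by
    have := key L true
    rw [← hL, Function.update_eq_self] at this
    conv_lhs => rw [this]
    rw [hL]
    rfl
  have eS : wf S = (wf S).take i ++ 2 :: (wf S).drop (i + 1) := by
    have := key S false
    rw [← hS, Function.update_eq_self] at this
    conv_lhs => rw [this]
    rw [hS]
    rfl
  have hi := i.2
  have hS' : ∀ y ∈ (wf S).drop (i + 1) ++ 3 :: wf x.2.2, 2 ≤ y :=
    two_app (fun y hy => wf_two _ _ (List.mem_of_mem_drop hy)) (by norm_num) (wf_two _)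
  have h := flip (P := wf x.1 ++ (wf L).take i) (Q := (wf L).drop (i + 1) ++ wf x.2.1 ++ (wf S).take i)
    (S := (wf S).drop (i + 1) ++ 3 :: wf x.2.2) (m := 3 * m) (by omega)
    (fun x hx => by
      rcases List.mem_append.1 hx with hx | hx
      · exact wf_two _ _ hx
      · exact wf_two _ _ (List.mem_of_mem_take hx))
    (fun x hx => by
      rcases List.mem_append.1 hx with hx | hx
      · rcases List.mem_append.1 hx with hx | hx
        · exact wf_two _ _ (List.mem_of_mem_drop hx)
        · exact wf_two _ _ hx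
      · exact wf_two _ _ (List.mem_of_mem_take hx))
    hS'
    (by
      simp only [List.length_append, List.length_drop, List.length_take, wf_length]
      omega)
    (by
      simp only [List.length_append, List.length_drop, List.length_cons, wf_length]
      omega)
    (by simp only [List.length_append, List.length_take, wf_length]; omega)
  unfold fz fr
  rw [key, key]
  have e1 : wf x.1 ++ wf L ++ wf x.2.1 ++ wf S ++ 3 :: wf x.2.2 = wf x.1 ++ (wf L).take i ++
      3 :: ((wf L).drop (i + 1) ++ wf x.2.1 ++ (wf S).take i) ++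
        2 :: ((wf S).drop (i + 1) ++ 3 :: wf x.2.2) := by
    conv_lhs => rw [eL, eS]
    simp only [List.append_assoc, List.cons_append]
  have e2 : wf x.1 ++ ((wf L).take i ++ bl false :: (wf L).drop (i + 1)) ++ wf x.2.1 ++
      ((wf S).take i ++ bl true :: (wf S).drop (i + 1)) ++ 3 :: wf x.2.2 = wf x.1 ++ (wf L).take i ++
      2 :: ((wf L).drop (i + 1) ++ wf x.2.1 ++ (wf S).take i) ++
        3 :: ((wf S).drop (i + 1) ++ 3 :: wf x.2.2) := by
    simp only [List.append_assoc, List.cons_append, bl]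
    rfl
  rw [e1, e2]
  exact h

/-- the value of a word with a three inserted at the position `p` -/
noncomputable def lowz (p : ℕ) (z : List ℕ) : ℝ := val (z.take p ++ 3 :: z.drop p)

/-- bijection with the blocks -/
theorem blockz (m r n : ℕ) (hm : 1 ≤ m) (P : ℝ → Prop) [DecidablePred P] :
    ((hw n).filter fun z => z.length + 1 = 12 * m + r ∧ P (lowz (10 * m + r) z)).card =
      (univ.filter fun x : Om m r × (Fin m → Bool) × (Fin m → Bool) =>
        wr x.1 + wp (pt x.2.1 x.2.2) = n ∧ P (fz x.1 x.2.1 x.2.2)).card := by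
  classical
  symm
  have hsum : ∀ x : Om m r × (Fin m → Bool) × (Fin m → Bool),
      (fr x.1 x.2.1 x.2.2 ++ wf x.1.2.2).sum = wr x.1 + wp (pt x.2.1 x.2.2) := by
    intro x
    unfold fr wr wp
    have h : ∑ i, wO (pt x.2.1 x.2.2 i) = (wf x.2.1).sum + (wf x.2.2).sum := by
      rw [wf_sum, wf_sum, ← Finset.sum_add_distrib]
      refine Finset.sum_congr rfl fun i _ => ?_
      unfold pt
      cases h1 : x.2.1 i <;> cases h2 : x.2.2 i <;> simp [wO, bl]
    rw [h]
    simp only [List.sum_append]
    ring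
  have hlow : ∀ x : Om m r × (Fin m → Bool) × (Fin m → Bool),
      lowz (10 * m + r) (fr x.1 x.2.1 x.2.2 ++ wf x.1.2.2) = fz x.1 x.2.1 x.2.2 := by
    intro x
    unfold lowz fz
    rw [List.take_left' (fr_length _ _ _), List.drop_left' (fr_length _ _ _)]
  refine Finset.card_bij (fun x _ => fr x.1 x.2.1 x.2.2 ++ wf x.1.2.2) (fun x hx => ?_)
    (fun x hx x' hx' h => ?_) fun w hw' => ?_
  · obtain ⟨_, h1, h2⟩ := Finset.mem_filter.1 hx
    rw [Finset.mem_filter, mem_hw]
    refine ⟨⟨fun y hy => ?_, by rw [hsum]; exact h1⟩, ?_, by rw [hlow]; exact h2⟩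
    · rcases List.mem_append.1 hy with hy | hy
      · exact fr_two _ _ _ y hy
      · exact wf_or _ _ hy
    · rw [List.length_append, fr_length, wf_length]
      omega
  · obtain ⟨h1, h2⟩ := List.append_inj h (by rw [fr_length, fr_length])
    unfold fr at h1
    obtain ⟨h3, h4⟩ := List.append_inj h1 (by simp only [List.length_append, wf_length])
    obtain ⟨h5, h6⟩ := List.append_inj h3 (by simp only [List.length_append, wf_length])
    obtain ⟨h7, h8⟩ := List.append_inj h5 (by simp only [wf_length])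
    obtain ⟨⟨R, M, V⟩, L, S⟩ := x
    obtain ⟨⟨R', M', V'⟩, L', S'⟩ := x'
    simp only at h2 h4 h6 h7 h8
    rw [wf_inj h2, wf_inj h4, wf_inj h6, wf_inj h7, wf_inj h8]
  · obtain ⟨h1, h2, h3⟩ := Finset.mem_filter.1 hw'
    obtain ⟨h4, h5⟩ := mem_hw.1 h1
    obtain ⟨R, hR⟩ := wf_ex (a := 3 * m + r) (w.take (3 * m + r)) (fun x hx => h4 x (List.mem_of_mem_take hx))
      (by rw [List.length_take]; omega)
    obtain ⟨L, hL⟩ := wf_ex (a := m) ((w.drop (3 * m + r)).take m)
      (fun x hx => h4 x (List.mem_of_mem_drop (List.mem_of_mem_take hx)))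
      (by rw [List.length_take, List.length_drop]; omega)
    obtain ⟨M, hM⟩ := wf_ex (a := 5 * m) (((w.drop (3 * m + r)).drop m).take (5 * m))
      (fun x hx => h4 x (List.mem_of_mem_drop (List.mem_of_mem_drop (List.mem_of_mem_take hx))))
      (by rw [List.length_take, List.length_drop, List.length_drop]; omega)
    obtain ⟨S, hS⟩ := wf_ex (a := m) ((((w.drop (3 * m + r)).drop m).drop (5 * m)).take m)
      (fun x hx => h4 x (List.mem_of_mem_drop (List.mem_of_mem_drop (List.mem_of_mem_drop
        (List.mem_of_mem_take hx)))))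
      (by rw [List.length_take, List.length_drop, List.length_drop, List.length_drop]; omega)
    obtain ⟨V, hV⟩ := wf_ex (a := 2 * m - 1) ((((w.drop (3 * m + r)).drop m).drop (5 * m)).drop m)
      (fun x hx => h4 x (List.mem_of_mem_drop (List.mem_of_mem_drop (List.mem_of_mem_drop
        (List.mem_of_mem_drop hx)))))
      (by rw [List.length_drop, List.length_drop, List.length_drop, List.length_drop]; omega)
    have e : fr ((R, M, V) : Om m r) L S ++ wf V = w := by
      unfold fr
      simp only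
      rw [hR, hL, hM, hS, hV]
      simp only [List.append_assoc, List.take_append_drop]
    refine ⟨((R, M, V), L, S), ?_, e⟩
    rw [Finset.mem_filter]
    refine ⟨Finset.mem_univ _, ?_, ?_⟩
    · have := hsum ((R, M, V), L, S)
      simp only at this
      rw [← this, e]
      exact h5
    · have := hlow ((R, M, V), L, S)
      simp only at this
      rw [← this, e]
      exact h3

/-- windows for the words with a letter removed -/
theorem win_z {m r n : ℕ} (hm : 1 ≤ m) {ρ : ℝ} (hρ : 0 < ρ) (hr : ρ ^ 2 + ρ ^ 3 = 1) (e : ℕ) (u : ℝ) :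
    (((hw n).filter fun z => z.length + 1 = 12 * m + r ∧ (u ≤ lowz (10 * m + r) z ∧
      lowz (10 * m + r) z < (1 + 5 / 42) * u)).card : ℝ) ≤
      1 / Real.sqrt (e + 1) * (((hw n).filter fun z => z.length + 1 = 12 * m + r).card : ℝ) +
        2 ^ e * (ρ⁻¹ ^ n * (1 - ρ ^ 5) ^ m) := by
  classical
  have h1 := abs_window (Ω := Om m r) wr hρ hr (wr_sum hr).le (m := m) fz fz_pos
    (by norm_num : (0 : ℝ) < 5 / 42) fz_flip n e u
  have h2 := blockz m r n hm (fun t => u ≤ t ∧ t < (1 + 5 / 42) * u)
  have h3 := blockz m r n hm (fun _ => True)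
  have h4 : ((hw n).filter fun z => z.length + 1 = 12 * m + r ∧ True) =
      (hw n).filter fun z => z.length + 1 = 12 * m + r := by
    ext z
    simp
  have h5 : (univ.filter fun x : Om m r × (Fin m → Bool) × (Fin m → Bool) =>
      wr x.1 + wp (pt x.2.1 x.2.2) = n ∧ True) =
      univ.filter fun x : Om m r × (Fin m → Bool) × (Fin m → Bool) => wr x.1 + wp (pt x.2.1 x.2.2) = n := by
    ext x
    simp
  rw [h4, h5] at h3
  rw [h3]
  refine le_trans (le_of_eq ?_) h1
  rw [h2]

/-- the occurrences -/
def occ (p h : ℕ) (w : List ℕ) : Finset ℕ :=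
  (Finset.range h).filter fun i => (w.drop p).getD (2 * i) 0 = 2 ∧ (w.drop p).getD (2 * i + 1) 0 = 3

lemma occ_card (p h : ℕ) (w : List ℕ) : (occ p h w).card = cnt h (w.drop p) := (cnt_eq h _).symm

/-- shape of a word at an occurrence -/
lemma occ_shape {p h i : ℕ} {w : List ℕ} (hi : i ∈ occ p h w) :
    ∃ α γ : List ℕ, w = α ++ 2 :: 3 :: γ ∧ α.length = p + 2 * i := by
  obtain ⟨_, h1, h2⟩ := Finset.mem_filter.1 hi
  have hl1 : 2 * i + 1 < (w.drop p).length := by
    by_contra hcon
    rw [List.getD_eq_default _ _ (by omega)] at h2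
    omega
  have hl0 : 2 * i < (w.drop p).length := by omega
  rw [List.getD_eq_getElem _ _ hl0] at h1
  rw [List.getD_eq_getElem _ _ hl1] at h2
  rw [List.getElem_drop] at h1 h2
  have hlw : (w.drop p).length = w.length - p := List.length_drop
  have a1 : p + 2 * i < w.length := by omega
  have a2 : p + (2 * i + 1) < w.length := by omega
  refine ⟨w.take (p + 2 * i), w.drop (p + 2 * i + 2), ?_, by rw [List.length_take]; omega⟩
  conv_lhs => rw [← List.take_append_drop (p + 2 * i) w]
  congr 1
  rw [List.drop_eq_getElem_cons a1, h1, List.drop_eq_getElem_cons (by omega : p + 2 * i + 1 < w.length)]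
  have h3 : w[p + 2 * i + 1] = 3 := h2
  rw [h3]

/-- removal of the letter -/
def rem (p : ℕ) (w : List ℕ) (i : ℕ) : List ℕ := w.eraseIdx (p + 2 * i + 1)

lemma rem_shape {α γ : List ℕ} {p i : ℕ} (h : α.length = p + 2 * i) :
    rem p (α ++ 2 :: 3 :: γ) i = α ++ 2 :: γ := by
  unfold rem
  have e : α ++ 2 :: 3 :: γ = (α ++ [2]) ++ 3 :: γ := by simp
  rw [e, List.eraseIdx_append_of_length_le (by simp [h])]
  have e2 : p + 2 * i + 1 - (α ++ [2]).length = 0 := by
    rw [List.length_append, h, List.length_singleton]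
    omega
  rw [e2]
  simp

/-- **counting pairs** -/
theorem pairs {m r n : ℕ} (hm : 1 ≤ m) (v : ℝ) :
    ∑ w ∈ (hw n).filter (fun w : List ℕ => w.length = 12 * m + r ∧ val w = v), (occ (10 * m + r) (m / 2) w).card ≤
      ((hw (n - 3)).filter fun z => z.length + 1 = 12 * m + r ∧ (v / 128 ≤ lowz (10 * m + r) z ∧
        lowz (10 * m + r) z ≤ v)).card := by
  classical
  set A := (hw n).filter (fun w : List ℕ => w.length = 12 * m + r ∧ val w = v) with hA
  rw [← Finset.card_sigma]
  refine Finset.card_le_card_of_injOn (fun x => rem (10 * m + r) x.1 x.2) (fun x hx => ?_)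
    fun x hx x' hx' heq => ?_
  · obtain ⟨w, i⟩ := x
    obtain ⟨h1, h2⟩ := Finset.mem_sigma.1 (Finset.mem_coe.1 hx)
    simp only at h1 h2
    obtain ⟨h3, h4, h5⟩ := Finset.mem_filter.1 h1
    obtain ⟨α, γ, rfl, hα⟩ := occ_shape h2
    have hi : i < m / 2 := Finset.mem_range.1 (Finset.mem_filter.1 h2).1
    obtain ⟨h6, h7⟩ := mem_hw.1 h3
    rw [List.length_append, List.length_cons, List.length_cons] at h4
    rw [Finset.mem_coe]
    simp only
    rw [rem_shape hα, Finset.mem_filter, mem_hw]
    have h2γ : ∀ x ∈ γ, x = 2 ∨ x = 3 := fun x hx => h6 x (by simp [hx])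
    have h2α : ∀ x ∈ α, x = 2 ∨ x = 3 := fun x hx => h6 x (by simp [hx])
    refine ⟨⟨fun x hx => ?_, ?_⟩, ?_, ?_⟩
    · rcases List.mem_append.1 hx with hx | hx
      · exact h2α x hx
      · rcases List.mem_cons.1 hx with rfl | hx
        · exact Or.inl rfl
        · exact h2γ x hx
    · rw [List.sum_append, List.sum_cons, List.sum_cons] at h7
      rw [List.sum_append, List.sum_cons]
      omega
    · rw [List.length_append, List.length_cons]
      omega
    · -- the value
      set α0 := α.take (10 * m + r) with hα0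
      set β0 := α.drop (10 * m + r) with hβ0
      have hαe : α = α0 ++ β0 := (List.take_append_drop _ _).symm
      have hl0 : α0.length = 10 * m + r := by rw [hα0, List.length_take]; omega
      have hlβ : β0.length = 2 * i := by rw [hβ0, List.length_drop]; omega
      have e1 : α ++ 2 :: γ = α0 ++ ((β0 ++ [2]) ++ γ) := by rw [hαe]; simp
      have e2 : α ++ 2 :: 3 :: γ = α0 ++ (β0 ++ [2]) ++ 3 :: γ := by rw [hαe]; simp
      have h2α0 : ∀ x ∈ α0, x = 2 ∨ x = 3 := fun x hx => h2α x (List.mem_of_mem_take hx)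
      have h2β : ∀ x ∈ β0 ++ [2], x = 2 ∨ x = 3 := by
        intro x hx
        rcases List.mem_append.1 hx with hx | hx
        · exact h2α x (List.mem_of_mem_drop hx)
        · left; simpa using hx
      have h8 := (move_three (β0 ++ [2]) h2β α0 γ (two_of_or h2α0) (two_of_or h2γ)).1
      have h9 := move_bdd (a := α0) (b := β0 ++ [2]) (c := γ) hm (two_of_or h2α0) h2β (two_of_or h2γ)
        (by omega) (by omega) (by rw [List.length_append, List.length_singleton]; omega)
      have e3 : lowz (10 * m + r) (α ++ 2 :: γ) = (val (α0 ++ 3 :: ((β0 ++ [2]) ++ γ) : List ℕ) : ℝ) := by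
        unfold lowz
        rw [e1, List.take_left' hl0, List.drop_left' hl0]
      rw [e3]
      rw [← e2, h5] at h8 h9
      exact ⟨by linarith, h8⟩
  · obtain ⟨w, i⟩ := x
    obtain ⟨w', i'⟩ := x'
    obtain ⟨h1, h2⟩ := Finset.mem_sigma.1 (Finset.mem_coe.1 hx)
    obtain ⟨h1', h2'⟩ := Finset.mem_sigma.1 (Finset.mem_coe.1 hx')
    simp only at h1 h2 h1' h2' heq
    obtain ⟨h3, h4, h5⟩ := Finset.mem_filter.1 h1
    obtain ⟨h3', h4', h5'⟩ := Finset.mem_filter.1 h1'
    -- a strict comparison
    have key : ∀ (w w' : List ℕ) (i i' : ℕ), w ∈ hw n → w' ∈ hw n → i ∈ occ (10 * m + r) (m / 2) w →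
        i' ∈ occ (10 * m + r) (m / 2) w' → rem (10 * m + r) w i = rem (10 * m + r) w' i' → i < i' →
        val w < val w' := by
      intro w w' i i' hw1 hw2 ho ho' he hlt
      obtain ⟨α, γ, rfl, hα⟩ := occ_shape ho
      obtain ⟨α', γ', rfl, hα'⟩ := occ_shape ho'
      rw [rem_shape hα, rem_shape hα'] at he
      have hw1' := (mem_hw.1 hw1).1
      have hw2' := (mem_hw.1 hw2).1
      -- `α' = (α ++ [2]) ++ β`
      have e1 : (α ++ [2]) ++ γ = α' ++ 2 :: γ' := by simpa using he
      obtain ⟨β, hβ⟩ : ∃ β, α' = (α ++ [2]) ++ β := by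
        have hpre : (α ++ [2]) <+: α' ++ 2 :: γ' := ⟨γ, e1⟩
        have hpre2 : α' <+: α' ++ 2 :: γ' := List.prefix_append _ _
        obtain ⟨β, hβ⟩ := List.prefix_of_prefix_length_le hpre hpre2 (by
          rw [List.length_append, List.length_singleton]; omega)
        exact ⟨β, hβ.symm⟩
      have e1' : (α ++ [2]) ++ γ = (α ++ [2]) ++ (β ++ 2 :: γ') := by
        rw [e1, hβ, List.append_assoc]
      have e2 : γ = β ++ 2 :: γ' := List.append_cancel_left e1'
      have h2β : ∀ x ∈ β ++ [2], x = 2 ∨ x = 3 := by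
        intro x hx
        rcases List.mem_append.1 hx with hx | hx
        · exact hw2' x (by rw [hβ]; simp [hx])
        · left; simpa using hx
      have h2a : ∀ x ∈ α ++ [2], x = 2 ∨ x = 3 := by
        intro x hx
        rcases List.mem_append.1 hx with hx | hx
        · exact hw1' x (by simp [hx])
        · left; simpa using hx
      have h2γ : ∀ x ∈ γ', x = 2 ∨ x = 3 := fun x hx => hw2' x (by simp [hx])
      have h8 := (move_three (β ++ [2]) h2β (α ++ [2]) γ' (two_of_or h2a) (two_of_or h2γ)).2 (by simp)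
      have e3 : α ++ 2 :: 3 :: γ = α ++ [2] ++ 3 :: (β ++ [2] ++ γ') := by rw [e2]; simp
      have e4 : α' ++ 2 :: 3 :: γ' = α ++ [2] ++ (β ++ [2]) ++ 3 :: γ' := by rw [hβ]; simp
      rw [e3, e4]
      exact h8
    rcases lt_trichotomy i i' with hlt | rfl | hlt
    · have := key w w' i i' h3 h3' h2 h2' heq hlt
      rw [h5, h5'] at this
      exact absurd this (lt_irrefl _)
    · obtain ⟨α, γ, rfl, hα⟩ := occ_shape h2
      obtain ⟨α', γ', rfl, hα'⟩ := occ_shape h2'
      rw [rem_shape hα, rem_shape hα'] at heq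
      obtain ⟨e1, e2⟩ := List.append_inj heq (by rw [hα, hα'])
      have e3 : γ = γ' := (List.cons.inj e2).2
      rw [e1, e3]
    · have := key w' w i' i h3' h3 h2' h2 heq.symm hlt
      rw [h5, h5'] at this
      exact absurd this (lt_irrefl _)

end Run7.h53.TI
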