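import Mathlib
import Pool.Agent.Run7.h53.TI.Coin

/-!
# One value is taken by a proportion at most `C n ^ (- 3 / 2)` of the words (helper53)
-/

set_option autoImplicit false

namespace Run7.h53.TI

open Filter Topology
open Pool.Agent.H447R2.MZ (H H_nil H_cons H_cons_zero H_cons_succ H_nonneg Adm val tendsto_H H_le_val H_mono)
open Run7.h53.VD (hof hof_finite hof_lower exists_rho hof_one hof_zero hof_two hof_card)
open Run7.h53.FW (adm_of_two)

/-- bounded windows -/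
theorem win_long {m r n : ℕ} (hm : 1 ≤ m) {ρ : ℝ} (hρ : 0 < ρ) (hr : ρ ^ 2 + ρ ^ 3 = 1) (e : ℕ) {v : ℝ}
    (hv : 0 < v) :
    (((hw n).filter fun z : List ℕ => z.length + 1 = 12 * m + r ∧ (v / 128 ≤ lowz (10 * m + r) z ∧
      lowz (10 * m + r) z ≤ v)).card : ℝ) ≤
      64 * (1 / Real.sqrt (e + 1) * (((hw n).filter fun z : List ℕ => z.length + 1 = 12 * m + r).card : ℝ) +
        2 ^ e * (ρ⁻¹ ^ n * (1 - ρ ^ 5) ^ m)) := by
  classical
  set y : ℝ := 1 + 5 / 42 with hy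
  have hy1 : 1 < y := by rw [hy]; norm_num
  have hy64 : 128 < y ^ 64 := by rw [hy]; norm_num
  set u : ℝ := v / 128 with hu
  have hu0 : 0 < u := by rw [hu]; positivity
  have hvu : v = 128 * u := by rw [hu]; ring
  have hsub : ((hw n).filter fun z : List ℕ => z.length + 1 = 12 * m + r ∧ (u ≤ lowz (10 * m + r) z ∧
      lowz (10 * m + r) z ≤ v)) ⊆ (Finset.range 64).biUnion fun j =>
      (hw n).filter fun z : List ℕ => z.length + 1 = 12 * m + r ∧ (y ^ j * u ≤ lowz (10 * m + r) z ∧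
        lowz (10 * m + r) z < y * (y ^ j * u)) := by
    intro z hz
    obtain ⟨h1, h2, h3, h4⟩ := Finset.mem_filter.1 hz
    obtain ⟨j, hj1, hj2⟩ := exists_nat_pow_near
      (show 1 ≤ lowz (10 * m + r) z / u by rw [le_div_iff₀ hu0]; linarith) hy1
    rw [le_div_iff₀ hu0] at hj1
    rw [div_lt_iff₀ hu0] at hj2
    rw [Finset.mem_biUnion]
    refine ⟨j, ?_, ?_⟩
    · rw [Finset.mem_range]
      by_contra hcon
      rw [not_lt] at hcon
      have h5 : y ^ 64 ≤ y ^ j := pow_le_pow_right₀ hy1.le hcon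
      have h6 : 128 * u < y ^ j * u := mul_lt_mul_of_pos_right (hy64.trans_le h5) hu0
      linarith
    · rw [Finset.mem_filter]
      refine ⟨h1, h2, hj1, ?_⟩
      rw [pow_succ] at hj2
      linarith
  have h1 : (((hw n).filter fun z : List ℕ => z.length + 1 = 12 * m + r ∧ (u ≤ lowz (10 * m + r) z ∧
      lowz (10 * m + r) z ≤ v)).card : ℝ) ≤ ∑ j ∈ Finset.range 64,
      (((hw n).filter fun z : List ℕ => z.length + 1 = 12 * m + r ∧ (y ^ j * u ≤ lowz (10 * m + r) z ∧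
        lowz (10 * m + r) z < y * (y ^ j * u))).card : ℝ) := by
    exact_mod_cast (Finset.card_le_card hsub).trans Finset.card_biUnion_le
  refine h1.trans ((Finset.sum_le_sum fun j _ => win_z hm hρ hr e (y ^ j * u)).trans ?_)
  rw [Finset.sum_const, Finset.card_range, nsmul_eq_mul]
  push_cast
  exact le_rfl

lemma decay3 {q : ℝ} (hq0 : 0 < q) (hq : q < 1) : ∃ B : ℝ, ∀ j : ℕ, ((j : ℝ) + 1) ^ 3 * q ^ j ≤ B := by
  have hq' : |q| < 1 := by rwa [abs_of_pos hq0]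
  obtain ⟨B, hB⟩ := (tendsto_pow_const_mul_const_pow_of_abs_lt_one 3 hq').bddAbove_range
  refine ⟨B / q, fun j => ?_⟩
  have hB1 : (((j + 1 : ℕ) : ℝ)) ^ 3 * q ^ (j + 1) ≤ B := hB ⟨j + 1, rfl⟩
  rw [le_div_iff₀ hq0]
  rw [pow_succ q j] at hB1
  push_cast at hB1
  linarith

/-- the exponentially small terms -/
lemma small_terms : ∃ B : ℝ, 0 < B ∧ ∀ n : ℕ, 1 ≤ n →
    ((n : ℝ) + 1) * (2 ^ (n / 720) * (1805 / 2048 : ℝ) ^ (n / 72)) ≤ B / (n * Real.sqrt n) ∧
    ((n : ℝ) + 1) * (2 ^ ((n - 3) / 144) * (781 / 1024 : ℝ) ^ (n / 36)) ≤ B / (n * Real.sqrt n) := by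
  obtain ⟨B1, hB1⟩ := decay3 (q := 2 * (1805 / 2048 : ℝ) ^ 10) (by positivity) (by norm_num)
  obtain ⟨B2, hB2⟩ := decay3 (q := 32 * (781 / 1024 : ℝ) ^ 20) (by positivity) (by norm_num)
  refine ⟨720 ^ 3 * |B1| + 16 * 720 ^ 3 * |B2| + 1, by positivity, fun n hn => ?_⟩
  have hn0 : (0 : ℝ) < n := by exact_mod_cast hn
  have hs : 0 < Real.sqrt n := Real.sqrt_pos.2 hn0
  set j := n / 720 with hj
  have hn720 : (n : ℝ) + 1 ≤ 720 * ((j : ℝ) + 1) := by
    have : n + 1 ≤ 720 * (j + 1) := by omega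
    exact_mod_cast this
  have hn720' : (n : ℝ) ≤ 720 * ((j : ℝ) + 1) := by linarith
  have hsq : Real.sqrt n ≤ 720 * ((j : ℝ) + 1) := by
    have h8 : Real.sqrt n ≤ n := by
      rw [Real.sqrt_le_left (by positivity)]
      have : (1 : ℝ) ≤ n := by exact_mod_cast hn
      nlinarith
    linarith
  have hj0 : (0 : ℝ) ≤ (j : ℝ) + 1 := by positivity
  constructor
  · rw [le_div_iff₀ (by positivity)]
    have h5 : (1805 / 2048 : ℝ) ^ (n / 72) ≤ ((1805 / 2048 : ℝ) ^ 10) ^ j := by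
      rw [← pow_mul]
      exact pow_le_pow_of_le_one (by norm_num) (by norm_num) (by omega)
    have h6 := hB1 j
    calc ((n : ℝ) + 1) * (2 ^ j * (1805 / 2048 : ℝ) ^ (n / 72)) * (n * Real.sqrt n)
        ≤ (720 * ((j : ℝ) + 1)) * (2 ^ j * ((1805 / 2048 : ℝ) ^ 10) ^ j) *
          ((720 * ((j : ℝ) + 1)) * (720 * ((j : ℝ) + 1))) := by gcongr
      _ = 720 ^ 3 * (((j : ℝ) + 1) ^ 3 * (2 * (1805 / 2048 : ℝ) ^ 10) ^ j) := by
          rw [mul_pow]
          ring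
      _ ≤ 720 ^ 3 * B1 := by gcongr
      _ ≤ _ := by
          have h7 := le_abs_self B1
          have h8 := abs_nonneg B2
          nlinarith
  · rw [le_div_iff₀ (by positivity)]
    have h4 : (2 : ℝ) ^ ((n - 3) / 144) ≤ 16 * 32 ^ j := by
      calc (2 : ℝ) ^ ((n - 3) / 144) ≤ 2 ^ (5 * j + 4) := pow_le_pow_right₀ (by norm_num) (by omega)
        _ = 16 * 32 ^ j := by rw [pow_add, pow_mul]; norm_num; ring
    have h5 : (781 / 1024 : ℝ) ^ (n / 36) ≤ ((781 / 1024 : ℝ) ^ 20) ^ j := by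
      rw [← pow_mul]
      exact pow_le_pow_of_le_one (by norm_num) (by norm_num) (by omega)
    have h6 := hB2 j
    calc ((n : ℝ) + 1) * (2 ^ ((n - 3) / 144) * (781 / 1024 : ℝ) ^ (n / 36)) * (n * Real.sqrt n)
        ≤ (720 * ((j : ℝ) + 1)) * ((16 * 32 ^ j) * ((781 / 1024 : ℝ) ^ 20) ^ j) *
          ((720 * ((j : ℝ) + 1)) * (720 * ((j : ℝ) + 1))) := by gcongr
      _ = 16 * 720 ^ 3 * (((j : ℝ) + 1) ^ 3 * (32 * (781 / 1024 : ℝ) ^ 20) ^ j) := by
          rw [mul_pow]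
          ring
      _ ≤ 16 * 720 ^ 3 * B2 := by gcongr
      _ ≤ _ := by
          have h7 := le_abs_self B2
          have h8 := abs_nonneg B1
          nlinarith

/-- one length -/
theorem one_length {k n : ℕ} (hk : 12 ≤ k) {ρ : ℝ} (hρ : 0 < ρ) (hr : ρ ^ 2 + ρ ^ 3 = 1) (e g : ℕ) {v : ℝ}
    (hv : 0 < v) :
    (((hw n).filter fun w : List ℕ => w.length = k ∧ val w = v).card : ℝ) ≤
      2 ^ g * (ρ⁻¹ ^ n * (1 - ρ ^ 5 / 2) ^ (k / 12 / 2)) + 1 / ((g : ℝ) + 1) *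
        (64 * (1 / Real.sqrt (e + 1) * (((hw (n - 3)).filter fun z : List ℕ => z.length + 1 = k).card : ℝ) +
        2 ^ e * (ρ⁻¹ ^ (n - 3) * (1 - ρ ^ 5) ^ (k / 12)))) := by
  classical
  set m := k / 12 with hm
  set r := k % 12 with hrr
  have hkk : 12 * m + r = k := Nat.div_add_mod k 12
  have hm1 : 1 ≤ m := by omega
  set p := 10 * m + r with hp
  set h := m / 2 with hh
  have h1 := few hρ hr h (2 * m) p n g (by omega)
  have hkp : 2 * m + p = k := by omega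
  rw [hkp] at h1
  have h2 := pairs (r := r) (n := n) hm1 v
  have h3 := win_long (r := r) (n := n - 3) hm1 hρ hr e hv
  rw [hkk] at h2 h3
  set A := (hw n).filter fun w : List ℕ => w.length = k ∧ val w = v with hA
  set A1 := A.filter fun w => cnt h (w.drop p) ≤ g with hA1
  set A2 := A.filter fun w => ¬ cnt h (w.drop p) ≤ g with hA2
  have h4 : A.card = A1.card + A2.card := (Finset.card_filter_add_card_filter_not _).symm
  have h5 : (A1.card : ℝ) ≤ 2 ^ g * (ρ⁻¹ ^ n * (1 - ρ ^ 5 / 2) ^ h) := by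
    refine le_trans ?_ h1
    have : A1 ⊆ (hw n).filter fun w => w.length = k ∧ cnt h (w.drop p) ≤ g := by
      intro w hw'
      obtain ⟨h6, h7⟩ := Finset.mem_filter.1 hw'
      obtain ⟨h8, h9, _⟩ := Finset.mem_filter.1 h6
      exact Finset.mem_filter.2 ⟨h8, h9, h7⟩
    exact_mod_cast Finset.card_le_card this
  have h6 : (A2.card : ℝ) * ((g : ℝ) + 1) ≤
      64 * (1 / Real.sqrt (e + 1) * (((hw (n - 3)).filter fun z : List ℕ => z.length + 1 = k).card : ℝ) +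
        2 ^ e * (ρ⁻¹ ^ (n - 3) * (1 - ρ ^ 5) ^ m)) := by
    refine le_trans ?_ h3
    have h7 : A2.card * (g + 1) ≤ ∑ w ∈ A, (occ p h w).card := by
      rw [← smul_eq_mul, ← Finset.sum_const]
      refine (Finset.sum_le_sum fun w hw' => ?_).trans
        (Finset.sum_le_sum_of_subset (Finset.filter_subset _ A))
      have h8 := (Finset.mem_filter.1 hw').2
      rw [occ_card]
      omega
    exact_mod_cast h7.trans h2
  have hg : (0 : ℝ) < (g : ℝ) + 1 := by positivity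
  have h7 : (A2.card : ℝ) ≤ 1 / ((g : ℝ) + 1) *
      (64 * (1 / Real.sqrt (e + 1) * (((hw (n - 3)).filter fun z : List ℕ => z.length + 1 = k).card : ℝ) +
        2 ^ e * (ρ⁻¹ ^ (n - 3) * (1 - ρ ^ 5) ^ m))) := by
    rw [one_div, inv_mul_eq_div, le_div_iff₀ hg]
    exact h6
  rw [h4]
  push_cast
  linarith

lemma hw_mono {n : ℕ} (hn : 3 ≤ n) : (hw (n - 3)).card ≤ (hw n).card := by
  refine Finset.card_le_card_of_injOn (fun w => 3 :: w) (fun w hw' => ?_) fun w _ w' _ h => ?_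
  · obtain ⟨h1, h2⟩ := mem_hw.1 (Finset.mem_coe.1 hw')
    rw [Finset.mem_coe, mem_hw]
    refine ⟨fun x hx => ?_, by rw [List.sum_cons, h2]; omega⟩
    rcases List.mem_cons.1 hx with rfl | hx
    · exact Or.inr rfl
    · exact h1 x hx
  · exact (List.cons.inj h).2

/-- **Coincidences.** -/
theorem coincidences : ∃ C : ℝ, 0 < C ∧ ∀ n : ℕ, 1 ≤ n → ∀ v : ℝ,
    (((hw n).filter fun w : List ℕ => val w = v).card : ℝ) ≤ C / (n * Real.sqrt n) * ((hw n).card : ℝ) := by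
  classical
  obtain ⟨ρ, r1, r2, r3⟩ := exists_rho
  have hρ : 0 < ρ := by linarith
  obtain ⟨B, hB, hB12⟩ := small_terms
  refine ⟨8000 + 783360 + 260 * B, by positivity, fun n hn v => ?_⟩
  have hn0 : (0 : ℝ) < n := by exact_mod_cast hn
  have hs : 0 < Real.sqrt n := Real.sqrt_pos.2 hn0
  have hns : 0 < (n : ℝ) * Real.sqrt n := by positivity
  have hle : (((hw n).filter fun w : List ℕ => val w = v).card : ℝ) ≤ ((hw n).card : ℝ) := by
    exact_mod_cast Finset.card_filter_le _ _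
  rcases Nat.lt_or_ge n 400 with h400 | h400
  · have h1 : 1 ≤ (8000 + 783360 + 260 * B) / (n * Real.sqrt n) := by
      rw [le_div_iff₀ hns, one_mul]
      have h2 : Real.sqrt n ≤ 20 := by
        rw [Real.sqrt_le_left (by norm_num)]
        have : (n : ℝ) ≤ 400 := by exact_mod_cast h400.le
        linarith
      have h3 : (n : ℝ) ≤ 400 := by exact_mod_cast h400.le
      have h4 : (n : ℝ) * Real.sqrt n ≤ 400 * 20 := mul_le_mul h3 h2 hs.le (by norm_num)
      linarith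
    calc _ ≤ 1 * ((hw n).card : ℝ) := by rw [one_mul]; exact hle
      _ ≤ _ := mul_le_mul_of_nonneg_right h1 (Nat.cast_nonneg _)
  by_cases hv : v ≤ 0
  · have h0 : ((hw n).filter fun w : List ℕ => val w = v) = ∅ := by
      refine Finset.filter_false_of_mem fun w hw' h1 => ?_
      have := val_pos (hw_adm hw')
      linarith
    rw [h0, Finset.card_empty, Nat.cast_zero]
    positivity
  rw [not_le] at hv
  set e := (n - 3) / 144 with he
  set g := n / 720 with hg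
  have hγ0 : 0 ≤ 1 - ρ ^ 5 := by
    have : ρ ^ 5 ≤ 1 := pow_le_one₀ hρ.le r2.le
    linarith
  have hp5 : (3 / 4 : ℝ) ^ 5 ≤ ρ ^ 5 := pow_le_pow_left₀ (by norm_num) r1.le 5
  have hγ : 1 - ρ ^ 5 ≤ 781 / 1024 := by
    norm_num at hp5
    linarith
  have hβ : 1 - ρ ^ 5 / 2 ≤ 1805 / 2048 := by
    norm_num at hp5
    linarith
  have hβ0 : 0 ≤ 1 - ρ ^ 5 / 2 := by
    have : 0 < ρ ^ 5 := by positivity
    linarith
  -- the lengths
  have h1 : (((hw n).filter fun w : List ℕ => val w = v).card : ℝ) =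
      ∑ k ∈ Finset.range (n + 1), (((hw n).filter fun w : List ℕ => w.length = k ∧ val w = v).card : ℝ) := by
    have h2 : ((hw n).filter fun w : List ℕ => val w = v).card = _ :=
      Finset.card_eq_sum_card_fiberwise (f := List.length)
      (t := Finset.range (n + 1)) fun w hw' => by
        have h2 := mem_hw.1 (Finset.mem_filter.1 (Finset.mem_coe.1 hw')).1
        have h3 := (len_bounds w h2.1).1
        rw [Finset.mem_coe, Finset.mem_range]
        omega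
    rw [h2]
    push_cast
    refine Finset.sum_congr rfl fun k _ => ?_
    rw [Finset.filter_filter]
    congr 2
    ext w
    simp only [Finset.mem_filter]
    tauto
  have hk : ∀ k ∈ Finset.range (n + 1),
      (((hw n).filter fun w : List ℕ => w.length = k ∧ val w = v).card : ℝ) ≤
      2 ^ g * (ρ⁻¹ ^ n * (1805 / 2048 : ℝ) ^ (n / 72)) + 1 / ((g : ℝ) + 1) *
        (64 * (1 / Real.sqrt (e + 1) * (((hw (n - 3)).filter fun z : List ℕ => z.length + 1 = k).card : ℝ) +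
        2 ^ e * (ρ⁻¹ ^ n * (781 / 1024 : ℝ) ^ (n / 36)))) := by
    intro k _
    by_cases hk3 : 3 * k < n
    · have h0 : ((hw n).filter fun w : List ℕ => w.length = k ∧ val w = v) = ∅ := by
        refine Finset.filter_false_of_mem fun w hw' h1 => ?_
        have h2 := mem_hw.1 hw'
        have h3 := (len_bounds w h2.1).2
        omega
      rw [h0, Finset.card_empty, Nat.cast_zero]
      positivity
    · refine (one_length (by omega) hρ r3 e g hv).trans ?_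
      have h4 : (1 - ρ ^ 5 / 2) ^ (k / 12 / 2) ≤ (1805 / 2048 : ℝ) ^ (n / 72) := by
        calc (1 - ρ ^ 5 / 2) ^ (k / 12 / 2) ≤ (1805 / 2048 : ℝ) ^ (k / 12 / 2) := pow_le_pow_left₀ hβ0 hβ _
          _ ≤ _ := pow_le_pow_of_le_one (by norm_num) (by norm_num) (by omega)
      have h5 : (1 - ρ ^ 5) ^ (k / 12) ≤ (781 / 1024 : ℝ) ^ (n / 36) := by
        calc (1 - ρ ^ 5) ^ (k / 12) ≤ (781 / 1024 : ℝ) ^ (k / 12) := pow_le_pow_left₀ hγ0 hγ _
          _ ≤ _ := pow_le_pow_of_le_one (by norm_num) (by norm_num) (by omega)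
      have h6 : ρ⁻¹ ^ (n - 3) ≤ ρ⁻¹ ^ n := by
        refine pow_le_pow_right₀ ?_ (by omega)
        rw [one_le_inv₀ hρ]
        exact r2.le
      have h7 : (0 : ℝ) ≤ ρ⁻¹ ^ n := by positivity
      have h8 : (0 : ℝ) ≤ ρ⁻¹ ^ (n - 3) := by positivity
      have h9 : (0 : ℝ) ≤ (1 - ρ ^ 5) ^ (k / 12) := pow_nonneg hγ0 _
      have h10 : ρ⁻¹ ^ (n - 3) * (1 - ρ ^ 5) ^ (k / 12) ≤ ρ⁻¹ ^ n * (781 / 1024 : ℝ) ^ (n / 36) :=
        mul_le_mul h6 h5 h9 h7
      have h11 : ρ⁻¹ ^ n * (1 - ρ ^ 5 / 2) ^ (k / 12 / 2) ≤ ρ⁻¹ ^ n * (1805 / 2048 : ℝ) ^ (n / 72) :=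
        mul_le_mul_of_nonneg_left h4 h7
      gcongr
  rw [h1]
  refine (Finset.sum_le_sum hk).trans ?_
  rw [Finset.sum_add_distrib, Finset.sum_const, Finset.card_range, nsmul_eq_mul, ← Finset.mul_sum,
    ← Finset.mul_sum, Finset.sum_add_distrib, ← Finset.mul_sum, Finset.sum_const, Finset.card_range,
    nsmul_eq_mul]
  have h2 : ∑ k ∈ Finset.range (n + 1), (((hw (n - 3)).filter fun z : List ℕ => z.length + 1 = k).card : ℝ) ≤
      ((hw n).card : ℝ) := by
    have h3 : ∑ k ∈ Finset.range (n + 1), ((hw (n - 3)).filter fun z : List ℕ => z.length + 1 = k).card =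
        (hw (n - 3)).card := by
      symm
      exact Finset.card_eq_sum_card_fiberwise (f := fun z : List ℕ => z.length + 1)
        (t := Finset.range (n + 1)) fun w hw' => by
          have h2 := mem_hw.1 (Finset.mem_coe.1 hw')
          have h3 := (len_bounds w h2.1).1
          rw [Finset.mem_coe, Finset.mem_range]
          show w.length + 1 < n + 1
          omega
    have h4 := hw_mono (n := n) (by omega)
    rw [← h3] at h4
    exact_mod_cast h4
  set N : ℝ := ((hw n).card : ℝ) with hN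
  have hN0 : 0 ≤ N := Nat.cast_nonneg _
  have h3 := hof_lower r1 r2 r3 n (by omega)
  rw [← hw_card] at h3
  have h4 : ρ⁻¹ ^ n ≤ 4 * N := by
    rw [inv_pow, inv_le_iff_one_le_mul₀ (by positivity)]
    nlinarith
  obtain ⟨h5, h6⟩ := hB12 n hn
  have hg1 : (n : ℝ) ≤ 720 * ((g : ℝ) + 1) := by
    have : n ≤ 720 * (g + 1) := by omega
    exact_mod_cast this
  have he1 : (n : ℝ) ≤ 288 * ((e : ℝ) + 1) := by
    have : n ≤ 288 * (e + 1) := by omega
    exact_mod_cast this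
  have hg0 : (0 : ℝ) < (g : ℝ) + 1 := by positivity
  have he0 : (0 : ℝ) < (e : ℝ) + 1 := by positivity
  have hse : 0 < Real.sqrt ((e : ℝ) + 1) := Real.sqrt_pos.2 he0
  have h7 : Real.sqrt n ≤ 17 * Real.sqrt ((e : ℝ) + 1) := by
    have h8 : (17 : ℝ) = Real.sqrt 289 := by
      rw [show (289 : ℝ) = 17 ^ 2 by norm_num, Real.sqrt_sq (by norm_num)]
    rw [h8, ← Real.sqrt_mul (by norm_num)]
    exact Real.sqrt_le_sqrt (by linarith)
  have h8 : 1 / ((g : ℝ) + 1) * (1 / Real.sqrt (e + 1)) ≤ 12240 / (n * Real.sqrt n) := by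
    rw [div_mul_div_comm, one_mul, div_le_div_iff₀ (by positivity) hns, one_mul]
    calc (n : ℝ) * Real.sqrt n ≤ (720 * ((g : ℝ) + 1)) * (17 * Real.sqrt ((e : ℝ) + 1)) :=
          mul_le_mul hg1 h7 hs.le (by positivity)
      _ = _ := by ring
  have hg1' : 1 / ((g : ℝ) + 1) ≤ 1 := by
    rw [div_le_one hg0]
    have : (0 : ℝ) ≤ g := Nat.cast_nonneg g
    linarith
  -- the three terms
  have t1 : ((n + 1 : ℕ) : ℝ) * (2 ^ g * (ρ⁻¹ ^ n * (1805 / 2048 : ℝ) ^ (n / 72))) ≤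
      B / (n * Real.sqrt n) * (4 * N) := by
    calc ((n + 1 : ℕ) : ℝ) * (2 ^ g * (ρ⁻¹ ^ n * (1805 / 2048 : ℝ) ^ (n / 72)))
        = (((n : ℝ) + 1) * (2 ^ g * (1805 / 2048 : ℝ) ^ (n / 72))) * ρ⁻¹ ^ n := by push_cast; ring
      _ ≤ (B / (n * Real.sqrt n)) * (4 * N) :=
          mul_le_mul h5 h4 (pow_nonneg (inv_nonneg.2 hρ.le) n) (div_nonneg hB.le hns.le)
  have t3 : ((n + 1 : ℕ) : ℝ) * (2 ^ e * (ρ⁻¹ ^ n * (781 / 1024 : ℝ) ^ (n / 36))) ≤
      B / (n * Real.sqrt n) * (4 * N) := by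
    calc ((n + 1 : ℕ) : ℝ) * (2 ^ e * (ρ⁻¹ ^ n * (781 / 1024 : ℝ) ^ (n / 36)))
        = (((n : ℝ) + 1) * (2 ^ e * (781 / 1024 : ℝ) ^ (n / 36))) * ρ⁻¹ ^ n := by push_cast; ring
      _ ≤ (B / (n * Real.sqrt n)) * (4 * N) :=
          mul_le_mul h6 h4 (pow_nonneg (inv_nonneg.2 hρ.le) n) (div_nonneg hB.le hns.le)
  have t2 : 1 / ((g : ℝ) + 1) * (64 * (1 / Real.sqrt (e + 1) *
      ∑ k ∈ Finset.range (n + 1), (((hw (n - 3)).filter fun z : List ℕ => z.length + 1 = k).card : ℝ))) ≤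
      783360 / (n * Real.sqrt n) * N := by
    calc _ = 64 * (1 / ((g : ℝ) + 1) * (1 / Real.sqrt (e + 1))) *
          ∑ k ∈ Finset.range (n + 1), (((hw (n - 3)).filter fun z : List ℕ => z.length + 1 = k).card : ℝ) := by
          ring
      _ ≤ 64 * (12240 / (n * Real.sqrt n)) * N :=
          mul_le_mul (mul_le_mul_of_nonneg_left h8 (by norm_num)) h2
            (Finset.sum_nonneg fun k _ => Nat.cast_nonneg _)
            (mul_nonneg (by norm_num) (div_nonneg (by norm_num) hns.le))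
      _ = _ := by ring
  have t4 : 1 / ((g : ℝ) + 1) * (64 * (((n + 1 : ℕ) : ℝ) * (2 ^ e * (ρ⁻¹ ^ n * (781 / 1024 : ℝ) ^ (n / 36))))) ≤
      64 * (B / (n * Real.sqrt n) * (4 * N)) := by
    have h9 : 0 ≤ 64 * (((n + 1 : ℕ) : ℝ) * (2 ^ e * (ρ⁻¹ ^ n * (781 / 1024 : ℝ) ^ (n / 36)))) :=
      mul_nonneg (by norm_num) (mul_nonneg (Nat.cast_nonneg _) (mul_nonneg (pow_nonneg (by norm_num) e)
        (mul_nonneg (pow_nonneg (inv_nonneg.2 hρ.le) n) (pow_nonneg (by norm_num) _))))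
    calc _ ≤ 1 * (64 * (((n + 1 : ℕ) : ℝ) * (2 ^ e * (ρ⁻¹ ^ n * (781 / 1024 : ℝ) ^ (n / 36))))) :=
          mul_le_mul_of_nonneg_right hg1' h9
      _ ≤ _ := by rw [one_mul]; exact mul_le_mul_of_nonneg_left t3 (by norm_num)
  have e1 : (8000 + 783360 + 260 * B) / (n * Real.sqrt n) * N = 8000 / (n * Real.sqrt n) * N +
      783360 / (n * Real.sqrt n) * N + B / (n * Real.sqrt n) * (4 * N) +
        64 * (B / (n * Real.sqrt n) * (4 * N)) := by ring
  have e2 : 0 ≤ 8000 / (n * Real.sqrt n) * N := mul_nonneg (div_nonneg (by norm_num) hns.le) hN0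
  rw [e1]
  have e3 : 1 / ((g : ℝ) + 1) * (64 * (1 / Real.sqrt (e + 1) *
      ∑ k ∈ Finset.range (n + 1), (((hw (n - 3)).filter fun z : List ℕ => z.length + 1 = k).card : ℝ) +
      ((n + 1 : ℕ) : ℝ) * (2 ^ e * (ρ⁻¹ ^ n * (781 / 1024 : ℝ) ^ (n / 36))))) =
      1 / ((g : ℝ) + 1) * (64 * (1 / Real.sqrt (e + 1) *
      ∑ k ∈ Finset.range (n + 1), (((hw (n - 3)).filter fun z : List ℕ => z.length + 1 = k).card : ℝ))) +
      1 / ((g : ℝ) + 1) * (64 * (((n + 1 : ℕ) : ℝ) * (2 ^ e * (ρ⁻¹ ^ n * (781 / 1024 : ℝ) ^ (n / 36))))) := by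
    ring
  rw [e3]
  linarith

end Run7.h53.TI
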